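import Pool.Agent.Helper15.Sub.AlgDefs

/-! Block WT: existence of generic weights. -/

namespace SubPow

universe u

open Classical in
/-- The algebra endomorphism `X_{p,y} ↦ X_{p,y} + a`. -/
noncomputable def shiftEnd {I : Type u} (j : I) (a : ℚ) :
    MvPolynomial I ℚ →ₐ[ℚ] MvPolynomial I ℚ :=
  MvPolynomial.aeval (fun i => if i = j then MvPolynomial.X i + MvPolynomial.C a
      else MvPolynomial.X i)

theorem shiftEnd_self {I : Type u} (j : I) (a : ℚ) :
    shiftEnd j a (MvPolynomial.X j) = MvPolynomial.X j + MvPolynomial.C a := by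
  rw [shiftEnd, MvPolynomial.aeval_X, if_pos rfl]

theorem shiftEnd_ne {I : Type u} {j i : I} (h : i ≠ j) (a : ℚ) :
    shiftEnd j a (MvPolynomial.X i) = MvPolynomial.X i := by
  rw [shiftEnd, MvPolynomial.aeval_X, if_neg h]

theorem shiftEnd_left {I : Type u} (j : I) (x : MvPolynomial I ℚ) :
    shiftEnd j (-1) (shiftEnd j 1 x) = x := by
  have : (shiftEnd j (-1)).comp (shiftEnd j 1) = AlgHom.id ℚ (MvPolynomial I ℚ) := by
    refine MvPolynomial.algHom_ext fun i => ?_
    rw [AlgHom.comp_apply, AlgHom.id_apply]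
    by_cases hi : i = j
    · rw [hi, shiftEnd_self, map_add, shiftEnd_self, MvPolynomial.algHom_C, MvPolynomial.algebraMap_eq,
        add_assoc, ← map_add]
      simp
    · rw [shiftEnd_ne hi, shiftEnd_ne hi]
  exact DFunLike.congr_fun this x

theorem exists_sigma {I : Type u} (j : I) :
    ∃ σ : FractionRing (MvPolynomial I ℚ) →+* FractionRing (MvPolynomial I ℚ),
      σ (algebraMap _ _ (MvPolynomial.X j : MvPolynomial I ℚ)) =
        algebraMap _ _ (MvPolynomial.X j : MvPolynomial I ℚ) + 1 ∧
      ∀ i, i ≠ j → σ (algebraMap _ _ (MvPolynomial.X i : MvPolynomial I ℚ)) =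
        algebraMap _ _ (MvPolynomial.X i : MvPolynomial I ℚ) := by
  have hinj : Function.Injective (shiftEnd j 1 : MvPolynomial I ℚ →+* MvPolynomial I ℚ) :=
    fun a b hab => by
      have h1 : shiftEnd j 1 a = shiftEnd j 1 b := hab
      rw [← shiftEnd_left j a, h1, shiftEnd_left j b]
  have hσ : ∀ x : MvPolynomial I ℚ,
      (IsFractionRing.map hinj : FractionRing (MvPolynomial I ℚ) →+*
        FractionRing (MvPolynomial I ℚ)) (algebraMap _ _ x) = algebraMap _ _ (shiftEnd j 1 x) := by
    intro x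
    simp [IsFractionRing.map]
  refine ⟨IsFractionRing.map hinj, ?_, fun i hi => ?_⟩
  · rw [hσ, shiftEnd_self, map_add]
    simp
  · rw [hσ, shiftEnd_ne hi]

/-- Take `F = FractionRing (MvPolynomial (V × V) ℚ)`, `O = PowerSeries F`, `ϖ = X`,
`w p y = C (X_{p,y})`; the endomorphism `τ` is `PowerSeries.map σ`, with `σ` induced on the
fraction field by the algebra automorphism `X_{p,y} ↦ X_{p,y} + 1`. -/
theorem exists_wdata (V : Type u) :
    ∃ (O : Type u) (_ : CommRing O) (_ : IsDomain O) (_ : IsDiscreteValuationRing O),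
      Nonempty (WData V O) := by
  refine ⟨PowerSeries (FractionRing (MvPolynomial (V × V) ℚ)), inferInstance, inferInstance,
    inferInstance, ⟨⟨PowerSeries.X,
      fun p y => PowerSeries.C (algebraMap (MvPolynomial (V × V) ℚ)
        (FractionRing (MvPolynomial (V × V) ℚ)) (MvPolynomial.X (p, y))),
      PowerSeries.X_prime.irreducible, fun p y => ?_⟩⟩⟩
  obtain ⟨σ, h1, h2⟩ := exists_sigma (p, y)
  refine ⟨PowerSeries.map σ, PowerSeries.map_injective _ σ.injective, PowerSeries.map_X _,
    ?_, ?_⟩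
  · rw [PowerSeries.map_C, h1, map_add, map_one]
  · intro q z hqz
    rw [PowerSeries.map_C, h2 _ hqz]

end SubPow
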