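import Pool.Agent.Helper15.Sub.Claim
import Pool.Agent.Helper15.Sub.Weights

/-! The abstract theorem. -/

namespace SubPow

open Finset

universe u

theorem abstract_theorem {V : Type u} [Fintype V] [DecidableEq V] {t : ℕ} (X : Sit V t)
    (r e₀ : ℕ) (Y : Finset ℕ)
    (hY : ∀ n ∈ Y, ∃ q i, i ≤ r ∧ X.Dies n q i ∧
      ((∃ c ∈ X.K 0, X.G.edist q c + (e₀ : ℕ∞) ≤ (i : ℕ∞)) ∨ (q ∈ X.K 0 ∧ i + e₀ ≤ 2 * r))) :
    Y.card ≤ AA r t e₀ := by
  obtain ⟨O, _, _, _, ⟨W⟩⟩ := exists_wdata V
  have hs : W.s (FractionRing O) ≠ 0 := WData.s_ne_zero (FractionRing O) W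
  have hϖ : algebraMap O (FractionRing O) W.ϖ = W.s (FractionRing O) := rfl
  have hUS : ∀ v : V → FractionRing O, v ∈ US O (FractionRing O) (∅ : Finset V) → v = 0 := by
    intro v hv
    funext q
    exact hv q (notMem_empty q)
  have h := claim (FractionRing O) X W r e₀ 0 (Y.sup id + 1) t (Nat.zero_le _) ∅ (fun _ => 0)
    (fun _ => 0) (empty_subset _) (by simp) (by
      rintro v ⟨hv, -⟩
      rw [hUS v hv]
      exact Submodule.zero_mem _) (by simp) (by simp) Y (by
      intro n hn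
      obtain ⟨q, i, hi, hd, ho⟩ := hY n hn
      refine ⟨Nat.zero_le _, Nat.lt_succ_of_le (le_sup (f := id) hn), q, i, hi, hd, ?_⟩
      rcases ho with ho | ⟨hq, ho⟩
      · exact Or.inl ho
      · refine Or.inr ⟨mem_union_right _ hq, Submodule.mem_sup_right ?_⟩
        have h1 : sh (W.s (FractionRing O)) 0 (X.R (FractionRing O) W 0) ≤
            sh (W.s (FractionRing O)) ((i : ℤ) + 1 - ((2 * r + 1 - e₀ : ℕ) : ℤ))
              (X.R (FractionRing O) W 0) :=
          sh_le_sh hs hϖ (by omega) _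
        rw [sh_zero] at h1
        exact h1 (ee_mem_R (FractionRing O) X W le_rfl (mem_union_right _ hq)))
  have h0 : rl (US O (FractionRing O) (∅ : Finset V) ⊓ X.R (FractionRing O) W 0)
      (US O (FractionRing O) (∅ : Finset V) ⊓ X.R (FractionRing O) W (Y.sup id + 1)) = 0 := by
    have h1 : US O (FractionRing O) (∅ : Finset V) = ⊥ := by
      rw [eq_bot_iff]
      intro v hv
      rw [hUS v hv]
      exact Submodule.zero_mem _
    rw [h1, bot_inf_eq, bot_inf_eq]
    exact rl_self _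
  rw [h0, zero_add] at h
  exact_mod_cast h

end SubPow
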