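import Pool.Agent.Helper15.Sub.Defs

/-! Definitions for the algebraic part (abstract theorem AT). -/

namespace SubPow

open Finset

/-- Distance from `q` to the finite set `K` is at most `i`. -/
def near {V : Type*} (G : SimpleGraph V) (K : Finset V) (q : V) (i : ℕ) : Prop :=
  ∃ k ∈ K, G.edist q k ≤ (i : ℕ∞)

/-- The combinatorial situation of the abstract theorem. -/
structure Sit (V : Type*) [DecidableEq V] (t : ℕ) where
  G : SimpleGraph V
  S : ℕ → Finset V
  K : ℕ → Finset V
  card_le : ∀ n, (K n).card ≤ t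
  disj : ∀ n, Disjoint (S n) (K n)
  nb : ∀ n, ∀ p ∈ S n, ∀ y, G.Adj p y → y ∈ S n ∪ K n
  S_sub : ∀ n, S n ⊆ S (n + 1)
  K_sub : ∀ n, K n ⊆ S (n + 1) ∪ K (n + 1)

/-- The ball with centre `q` and radius `i` dies at `n`. -/
def Sit.Dies {V : Type*} [DecidableEq V] {t : ℕ} (X : Sit V t) (n : ℕ) (q : V) (i : ℕ) : Prop :=
  q ∈ X.S n ∪ X.K n ∧ near X.G (X.K n) q i ∧ ¬ near X.G (X.K (n + 1)) q i

/-- Weights over a discrete valuation ring: `ϖ` is a uniformiser, `w` the weights; for every
pair `(p, y)` there is an injective endomorphism which moves only the weight of this pair. -/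
structure WData (V O : Type*) [CommRing O] where
  ϖ : O
  w : V → V → O
  irr : Irreducible ϖ
  move : ∀ p y, ∃ τ : O →+* O, Function.Injective τ ∧ τ ϖ = ϖ ∧ τ (w p y) = w p y + 1 ∧
    ∀ q z, (q, z) ≠ (p, y) → τ (w q z) = w q z

section general

variable {O L E : Type*} [CommRing O] [Field L] [Algebra O L]
  [AddCommGroup E] [Module L E] [Module O E] [IsScalarTower O L E]

/-- `sh s k R = s ^ k • R`, as `{v | s ^ (-k) • v ∈ R}` (`k` an integer, `s ≠ 0`). -/
def sh (s : L) (k : ℤ) (R : Submodule O E) : Submodule O E :=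
  R.comap ((LinearMap.lsmul L E (s ^ (-k))).restrictScalars O)

theorem mem_sh (s : L) (k : ℤ) (R : Submodule O E) (v : E) :
    v ∈ sh s k R ↔ s ^ (-k) • v ∈ R := Iff.rfl

end general

section graph

variable {O L V : Type*} [CommRing O] [Field L] [Algebra O L] [DecidableEq V]

/-- The unit vectors of `E = V → L`. -/
def ee (L : Type*) [Field L] {V : Type*} [DecidableEq V] (q : V) : V → L := Pi.single q 1

/-- The uniformiser in `L`. -/
def WData.s (L : Type*) [Field L] [Algebra O L] (W : WData V O) : L := algebraMap O L W.ϖ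

open Classical in
/-- The relation vector of `q`: `e_q - s ∑_{y ~ q} w_{q,y} e_y`. -/
noncomputable def rho (L : Type*) [Field L] [Algebra O L] (G : SimpleGraph V) (W : WData V O)
    (q : V) : V → L :=
  fun z => (if z = q then 1 else 0) - (if G.Adj q z then W.s L * algebraMap O L (W.w q z) else 0)

/-- The relation module `R(S, K) = span_L {rho_q : q ∈ S} + span_O {e_o : o ∈ K}`. -/
noncomputable def RR (L : Type*) [Field L] [Algebra O L] (G : SimpleGraph V) (W : WData V O)
    (S K : Finset V) : Submodule O (V → L) :=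
  (Submodule.span L (rho L G W '' (S : Set V))).restrictScalars O ⊔
    Submodule.span O (ee L '' (K : Set V))

/-- `US C`: the `L`-span of the unit vectors in `C`, as an `O`-module. -/
def US (O L : Type*) [CommRing O] [Field L] [Algebra O L] {V : Type*} (C : Finset V) :
    Submodule O (V → L) where
  carrier := {v | ∀ q, q ∉ C → v q = 0}
  zero_mem' := fun _ _ => rfl
  add_mem' := fun {a b} ha hb q hq => by
    simp only [Set.mem_setOf_eq] at ha hb
    rw [Pi.add_apply, ha q hq, hb q hq, add_zero]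
  smul_mem' := fun c v hv q hq => by
    simp only [Set.mem_setOf_eq] at hv
    rw [Pi.smul_apply, hv q hq, smul_zero]

/-- `LT s C b`: the vectors supported in `C` with `v_c ∈ s^{-b c} O`. -/
def LT (O : Type*) {L : Type*} [CommRing O] [Field L] [Algebra O L] {V : Type*} (s : L)
    (C : Finset V) (b : V → ℕ) : Submodule O (V → L) where
  carrier := {v | (∀ q, q ∉ C → v q = 0) ∧ ∀ q, q ∈ C → ∃ x : O, algebraMap O L x = s ^ (b q) * v q}
  zero_mem' := ⟨fun _ _ => rfl, fun q _ => ⟨0, by simp⟩⟩
  add_mem' := fun {a b'} ha hb => by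
    refine ⟨fun q hq => ?_, fun q hq => ?_⟩
    · rw [Pi.add_apply, ha.1 q hq, hb.1 q hq, add_zero]
    · obtain ⟨x, hx⟩ := ha.2 q hq
      obtain ⟨y, hy⟩ := hb.2 q hq
      exact ⟨x + y, by rw [map_add, hx, hy, Pi.add_apply, mul_add]⟩
  smul_mem' := fun c v hv => by
    refine ⟨fun q hq => ?_, fun q hq => ?_⟩
    · rw [Pi.smul_apply, hv.1 q hq, smul_zero]
    · obtain ⟨x, hx⟩ := hv.2 q hq
      exact ⟨c * x, by rw [map_mul, hx, Pi.smul_apply, Algebra.smul_def]; ring⟩

end graph

end SubPow
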