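import Pool.Agent.Helper15.Sub.Defs

/-! Block AR: arithmetic of the counting function. -/

namespace SubPow

open Finset

theorem AA_zero (r e : ℕ) : AA r 0 e = 0 := by
  unfold AA
  refine Finset.sum_eq_zero fun k _ => ?_
  rw [Nat.zero_add]
  exact Nat.choose_succ_self _

theorem AA_base {r e : ℕ} (w : ℕ) (h : r < e) : AA r w e = w * (2 * r + 1 - e) := by
  unfold AA
  have h1 : ∀ k ∈ Icc (e + 1) (2 * r + 1),
      (w + Nat.log 2 (k / (e + 1))).choose (Nat.log 2 (k / (e + 1)) + 1) = w := by
    intro k hk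
    rw [Finset.mem_Icc] at hk
    have h2 : k / (e + 1) = 1 := by
      rw [Nat.div_eq_iff (by omega)]
      constructor <;> omega
    rw [h2]
    simp
  rw [Finset.sum_congr rfl h1, Finset.sum_const, Nat.card_Icc, smul_eq_mul, Nat.mul_comm]
  congr 1
  omega

/-- The hockey stick identity in the form needed here. -/
theorem hockey (w j : ℕ) :
    ∑ l ∈ range (w + 1), (l + j).choose (j + 1) = (w + (j + 1)).choose (j + 2) := by
  induction w with
  | zero => simp
  | succ w ih =>
    rw [Finset.sum_range_succ, ih]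
    have h : w + 1 + (j + 1) = (w + (j + 1)) + 1 := by omega
    rw [h, Nat.choose_succ_succ' (w + (j + 1)) (j + 1), Nat.add_comm]
    congr 2
    omega

theorem AA_step {r e : ℕ} (w : ℕ) (h : e ≤ r) :
    AA r w e = w * (e + 1) + ∑ l ∈ range (w + 1), AA r l (2 * e + 1) := by
  have hsplit : Icc (e + 1) (2 * r + 1) =
      Icc (e + 1) (2 * e + 1) ∪ Icc (2 * e + 1 + 1) (2 * r + 1) := by
    ext k
    simp only [Finset.mem_union, Finset.mem_Icc]
    omega
  have hdisj : Disjoint (Icc (e + 1) (2 * e + 1)) (Icc (2 * e + 1 + 1) (2 * r + 1)) := by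
    rw [Finset.disjoint_left]
    intro k hk hk'
    rw [Finset.mem_Icc] at hk hk'
    omega
  unfold AA
  rw [hsplit, Finset.sum_union hdisj]
  congr 1
  · have h1 : ∀ k ∈ Icc (e + 1) (2 * e + 1),
        (w + Nat.log 2 (k / (e + 1))).choose (Nat.log 2 (k / (e + 1)) + 1) = w := by
      intro k hk
      rw [Finset.mem_Icc] at hk
      have h2 : k / (e + 1) = 1 := by
        rw [Nat.div_eq_iff (by omega)]
        constructor <;> omega
      rw [h2]
      simp
    rw [Finset.sum_congr rfl h1, Finset.sum_const, Nat.card_Icc, smul_eq_mul, Nat.mul_comm]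
    congr 1
    omega
  · rw [Finset.sum_comm]
    refine Finset.sum_congr rfl fun k hk => ?_
    rw [Finset.mem_Icc] at hk
    have h2 : 2 ≤ k / (e + 1) := by
      rw [Nat.le_div_iff_mul_le (by omega)]
      omega
    have h3 : k / (2 * e + 1 + 1) = k / (e + 1) / 2 := by
      rw [Nat.div_div_eq_div_mul]
      congr 1
      omega
    have h4 : Nat.log 2 (k / (e + 1)) = Nat.log 2 (k / (e + 1) / 2) + 1 :=
      Nat.log_of_one_lt_of_le (by norm_num) h2
    rw [h3, hockey, h4]

theorem formula_odd (r t : ℕ) : formula (2 * r + 1) t = 1 + AA r t 0 := by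
  unfold formula AA
  congr 1
  refine Finset.sum_congr rfl fun k hk => ?_
  rw [Finset.mem_Icc] at hk
  have h1 : jj (2 * r + 1) k = Nat.log 2 k + 1 := by
    unfold jj
    rw [if_pos ⟨r, rfl⟩, Nat.mul_comm]
    exact Nat.log_mul_base (by norm_num) (by omega)
  rw [h1]
  simp

theorem formula_even (r t : ℕ) : formula (2 * r) t = 1 + AA r t 1 := by
  unfold formula AA
  congr 1
  have himg : Icc (1 + 1) (2 * r + 1) = (Icc 1 (2 * r)).map (addRightEmbedding 1) := by
    rw [Finset.map_add_right_Icc]
  rw [himg, Finset.sum_map]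
  refine Finset.sum_congr rfl fun k hk => ?_
  rw [Finset.mem_Icc] at hk
  have h0 : ¬ Odd (2 * r) := by
    rw [Nat.not_odd_iff_even]
    exact even_two_mul r
  have h1 : jj (2 * r) k = Nat.log 2 ((k + 1) / 2) + 1 := by
    unfold jj
    rw [if_neg h0]
    exact Nat.log_of_one_lt_of_le (by norm_num) (by omega)
  rw [h1]
  simp

theorem jj_pos {d k : ℕ} (hk : 1 ≤ k) : 1 ≤ jj d k := by
  unfold jj
  split_ifs
  · exact Nat.log_pos (by norm_num) (by omega)
  · exact Nat.log_pos (by norm_num) (by omega)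

theorem formula_zero (d : ℕ) : formula d 0 = 1 := by
  unfold formula
  have h0 : ∑ k ∈ Icc 1 d, (0 + jj d k - 1).choose (jj d k) = 0 := by
    refine Finset.sum_eq_zero fun k hk => ?_
    rw [Finset.mem_Icc] at hk
    have := jj_pos (d := d) hk.1
    apply Nat.choose_eq_zero_of_lt
    omega
  rw [h0]

theorem formula_one (d : ℕ) : formula d 1 = d + 1 := by
  unfold formula
  have h1 : ∀ k ∈ Icc 1 d, (1 + jj d k - 1).choose (jj d k) = 1 := by
    intro k _
    rw [Nat.add_sub_cancel_left]
    exact Nat.choose_self _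
  rw [Finset.sum_congr rfl h1, Finset.sum_const, Nat.card_Icc]
  simp
  omega

end SubPow
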