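import Pool.Agent.Helper15.Sub.LowDefs

/-!
Block BL: the blow-up of a design.

Ramsey lemma: induction on `R` (last coordinate: for fixed `a` on the first `R` coordinates,
pigeonhole gives two values of the last coordinate with the same colour; call it `g a` and apply
the induction hypothesis to `g`).

Blow-up. Given a design on `V`, `E`, `r`, `v`, `top`, put `R = card V` and let `δ : V → Fin R` be the
number of vertices older than `v` (so `δ u < δ v` iff `u` is older). Vertices of the new graph:
`(v, a)` with `a : Fin R → Fin M` modulo agreement on the positions `≤ δ v`; e.g. the subtype of the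
`(v, a)` with `a j = 0` for `j > δ v`. `(v, a) ~ (u, b)` iff `G.Adj v u` and `a j = b j` for all
`j ≤ min (δ v) (δ u)`. Elimination structure: `P (v, a) = {(u, a restricted to ≤ δ u) : u ∈ P v}`,
rank: any injective function with `(v, a) < (u, b)` whenever `rank v < rank u`.
For a full sequence `a : Fin R → Fin M` the map `x ↦ x^a = (x, a restricted to ≤ δ x)` is a graph
homomorphism. Let `c` be a subcolouring of the `d`-th power with `k - 1` colours, and
`f a = (i ↦ c ((v i)^a))`, `κ = Fin k → Fin (k-1)`, `M = card κ + 1`. The Ramsey lemma gives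
`C : Fin k → Fin (k-1)`, and `C i = C j` for some `i ≠ j`; by symmetry `top i` is older than `top j`
(`δ (top i) < δ (top j)`). Take the two sequences `a, a'` for the position `δ (top j)`. Then
`(top i)^a = (top i)^{a'}`, so `(v i)^a` and `(v i)^{a'}` are at distance `≤ 2r ≤ d`; `(v i)^a` and
`(v j)^a` are at distance `≤ d`, also for `a'`; all four have the same colour, so (equality or
adjacency in the power is transitive on the class) `(v j)^a` and `(v j)^{a'}` are equal or at
distance `≤ d`. They are not equal (`δ (top j) ≤ δ (v j)`), and a walk between them must pass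
through a copy of a vertex `u` with `δ u < δ (top j)` (the coordinate `δ (top j)` changes), which is
at distance `≥ r + 1` from both ends: the length is at least `2r + 2 > d`, a contradiction.
-/

namespace SubPow

open Finset

/-- Ramsey lemma for the blow-up. -/
theorem exists_colour {κ : Type*} [Fintype κ] (M : ℕ) (hM : Fintype.card κ < M) :
    ∀ (R : ℕ) (f : (Fin R → Fin M) → κ), ∃ C : κ, (∃ a, f a = C) ∧
      ∀ i : Fin R, ∃ a a' : Fin R → Fin M, f a = C ∧ f a' = C ∧ (∀ j, j < i → a j = a' j) ∧
        a i ≠ a' i := by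
  intro R
  induction R with
  | zero =>
    intro f
    exact ⟨f Fin.elim0, ⟨_, rfl⟩, fun i => i.elim0⟩
  | succ R ih =>
    intro f
    have h : ∀ a : Fin R → Fin M, ∃ x y : Fin M, x ≠ y ∧
        f (Fin.snoc (α := fun _ => Fin M) a x) = f (Fin.snoc (α := fun _ => Fin M) a y) := by
      intro a
      obtain ⟨x, y, hxy, h⟩ := Fintype.exists_ne_map_eq_of_card_lt
        (fun x : Fin M => f (Fin.snoc (α := fun _ => Fin M) a x)) (by simpa using hM)
      exact ⟨x, y, hxy, h⟩
    choose x y hxy hf using h
    obtain ⟨C, ⟨a0, ha0⟩, hC⟩ := ih (fun a => f (Fin.snoc (α := fun _ => Fin M) a (x a)))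
    refine ⟨C, ⟨_, ha0⟩, ?_⟩
    intro i
    induction i using Fin.lastCases with
    | last =>
      refine ⟨Fin.snoc (α := fun _ => Fin M) a0 (x a0), Fin.snoc (α := fun _ => Fin M) a0 (y a0),
        ha0, ?_, ?_, ?_⟩
      · rw [← hf]; exact ha0
      · intro j hj
        obtain ⟨j', rfl⟩ := Fin.exists_castSucc_eq.2 hj.ne
        simp
      · simpa using hxy a0
    | cast i =>
      obtain ⟨a, a', h1, h2, h3, h4⟩ := hC i
      refine ⟨_, _, h1, h2, ?_, ?_⟩
      · intro j hj
        obtain ⟨j', rfl⟩ := Fin.exists_castSucc_eq.2 (hj.trans (Fin.castSucc_lt_last i)).ne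
        simpa using h3 j' (by simpa using hj)
      · simpa using h4

/-- The Ramsey lemma with the coordinates indexed by the vertices, from the oldest one on. -/
theorem exists_colour' {κ : Type*} [Fintype κ] (M : ℕ) (hM : Fintype.card κ < M)
    {V : Type} [Fintype V] (rank : V → ℕ) (hr : Function.Injective rank)
    (f : (V → Fin M) → κ) : ∃ C : κ, ∀ x : V, ∃ a a' : V → Fin M, f a = C ∧ f a' = C ∧
      (∀ y, rank x < rank y → a y = a' y) ∧ a x ≠ a' x := by
  letI : LinearOrder V := LinearOrder.lift' (fun v => OrderDual.toDual (rank v)) (by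
    intro u v h; exact hr (OrderDual.toDual.injective h))
  have hlt : ∀ u v : V, u < v ↔ rank v < rank u := fun u v => Iff.rfl
  let e : Fin (Fintype.card V) ≃o V := Fintype.orderIsoFinOfCardEq V rfl
  obtain ⟨C, -, hC⟩ := exists_colour M hM (Fintype.card V) (fun a => f (fun v => a (e.symm v)))
  refine ⟨C, fun x => ?_⟩
  obtain ⟨a, a', h1, h2, h3, h4⟩ := hC (e.symm x)
  refine ⟨_, _, h1, h2, ?_, h4⟩
  intro y hy
  exact h3 _ (e.symm.lt_iff_lt.2 ((hlt y x).2 hy))

section Blow

variable {V : Type} {G : SimpleGraph V} {t : ℕ}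

/-- The vertices of the blow-up. -/
abbrev BV (E : Elim G t) (n : ℕ) : Type :=
  {p : V × (V → Fin (n + 1)) // ∀ y, E.rank y < E.rank p.1 → p.2 y = 0}

/-- The copy of `x` given by a full sequence. -/
def res (E : Elim G t) {n : ℕ} (x : V) (a : V → Fin (n + 1)) : BV E n :=
  ⟨(x, fun y => if E.rank y < E.rank x then 0 else a y), fun _ hy => if_pos hy⟩

theorem res_fst (E : Elim G t) {n : ℕ} (x : V) (a : V → Fin (n + 1)) : (res E x a).1.1 = x := rfl

theorem res_snd (E : Elim G t) {n : ℕ} (x : V) (a : V → Fin (n + 1)) {y : V}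
    (h : E.rank x ≤ E.rank y) : (res E x a).1.2 y = a y := if_neg (not_lt.2 h)

theorem eq_res (E : Elim G t) {n : ℕ} (p : BV E n) (x : V) (a : V → Fin (n + 1))
    (h1 : p.1.1 = x) (h2 : ∀ y, E.rank x ≤ E.rank y → p.1.2 y = a y) : p = res E x a := by
  obtain ⟨⟨x', b⟩, hb⟩ := p
  simp only at h1
  subst h1
  apply Subtype.ext
  refine Prod.ext rfl ?_
  funext y
  by_cases hy : E.rank y < E.rank x'
  · exact (hb y hy).trans (if_pos hy).symm
  · exact (h2 y (not_lt.1 hy)).trans (if_neg hy).symm

/-- The blow-up. -/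
def BG (E : Elim G t) (n : ℕ) : SimpleGraph (BV E n) where
  Adj p q := G.Adj p.1.1 q.1.1 ∧
    ∀ y, E.rank p.1.1 ≤ E.rank y → E.rank q.1.1 ≤ E.rank y → p.1.2 y = q.1.2 y
  symm := ⟨fun _ _ h => ⟨h.1.symm, fun y h1 h2 => (h.2 y h2 h1).symm⟩⟩
  loopless := ⟨fun _ h => G.irrefl h.1⟩

/-- The elimination structure of the blow-up. -/
noncomputable def BE [Fintype V] (E : Elim G t) (n : ℕ) : Elim (BG E n) t := by
  classical
  letI : Fintype (BV E n) := Fintype.ofFinite _
  let N := Fintype.card (BV E n)
  let code : BV E n → ℕ := fun p => (Fintype.equivFin (BV E n) p : ℕ)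
  have hcode : ∀ p, code p < N := fun p => (Fintype.equivFin (BV E n) p).2
  have hinj : ∀ p q, code p = code q → p = q := fun p q h =>
    (Fintype.equivFin (BV E n)).injective (Fin.ext h)
  let rk : BV E n → ℕ := fun p => E.rank p.1.1 * N + code p
  have hlt : ∀ p q : BV E n, E.rank p.1.1 < E.rank q.1.1 → rk p < rk q := by
    intro p q h
    have h1 : (E.rank p.1.1 + 1) * N ≤ E.rank q.1.1 * N := Nat.mul_le_mul_right _ h
    have h2 := hcode p
    have h3 : (E.rank p.1.1 + 1) * N = E.rank p.1.1 * N + N := by ring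
    change E.rank p.1.1 * N + code p < E.rank q.1.1 * N + code q
    omega
  have hle : ∀ p q : BV E n, rk p < rk q → E.rank p.1.1 ≤ E.rank q.1.1 := by
    intro p q h
    by_contra hc
    have := hlt q p (not_le.1 hc)
    omega
  refine
    { rank := rk
      rank_inj := ?_
      P := fun p => (E.P p.1.1).image (fun u => res E u p.1.2)
      older := ?_
      card_le := ?_
      clique := ?_
      cover := ?_ }
  · intro p q h
    have h1 : E.rank p.1.1 ≤ E.rank q.1.1 := by
      by_contra hc
      have := hlt q p (not_le.1 hc)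
      omega
    have h2 : E.rank q.1.1 ≤ E.rank p.1.1 := by
      by_contra hc
      have := hlt p q (not_le.1 hc)
      omega
    have h3 : E.rank p.1.1 = E.rank q.1.1 := le_antisymm h1 h2
    apply hinj
    change E.rank p.1.1 * N + code p = E.rank q.1.1 * N + code q at h
    rw [h3] at h
    omega
  · intro p u hu
    obtain ⟨x, hx, rfl⟩ := Finset.mem_image.1 hu
    exact hlt _ _ (E.older _ _ hx)
  · intro p
    exact Finset.card_image_le.trans (E.card_le _)
  · intro p u w hu hw huw
    obtain ⟨x, hx, rfl⟩ := Finset.mem_image.1 hu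
    obtain ⟨y, hy, rfl⟩ := Finset.mem_image.1 hw
    have h1 : E.rank x ≤ E.rank y := hle _ _ huw
    have h2 : E.rank x ≠ E.rank y := by
      intro h
      have := E.rank_inj h
      subst this
      exact lt_irrefl _ huw
    have h3 : E.rank x < E.rank y := lt_of_le_of_ne h1 h2
    have h4 := E.clique _ _ _ hx hy h3
    refine Finset.mem_image.2 ⟨y, h4, ?_⟩
    refine eq_res E _ _ _ rfl ?_
    intro z hz
    rw [res_snd E y _ hz, res_snd E x _ (h3.le.trans hz)]
  · intro p q hpq h
    have h1 : E.rank p.1.1 ≤ E.rank q.1.1 := hle _ _ h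
    have h2 : E.rank p.1.1 ≠ E.rank q.1.1 := by
      intro h'
      have := E.rank_inj h'
      exact hpq.1.ne this
    have h3 : E.rank p.1.1 < E.rank q.1.1 := lt_of_le_of_ne h1 h2
    have h4 := E.cover _ _ hpq.1 h3
    refine Finset.mem_image.2 ⟨_, h4, ?_⟩
    refine (eq_res E _ _ _ rfl ?_).symm
    intro z hz
    exact (hpq.2 z (h3.le.trans hz) hz).symm

/-- The canonical copy of the graph. -/
def copyHom (E : Elim G t) {n : ℕ} (a : V → Fin (n + 1)) : G →g BG E n where
  toFun x := res E x a
  map_rel' := by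
    intro x y h
    refine ⟨h, fun z h1 h2 => ?_⟩
    rw [res_snd E x a h1, res_snd E y a h2]

/-- The projection. -/
def projHom (E : Elim G t) (n : ℕ) : BG E n →g G where
  toFun p := p.1.1
  map_rel' := fun h => h.1

theorem edist_map_le {V W : Type*} {G : SimpleGraph V} {H : SimpleGraph W} (f : G →g H) (u v : V) :
    H.edist (f u) (f v) ≤ G.edist u v := by
  by_cases h : G.edist u v = ⊤
  · rw [h]; exact le_top
  · obtain ⟨w, hw⟩ := SimpleGraph.exists_walk_of_edist_ne_top h
    rw [← hw]
    refine (SimpleGraph.edist_le (w.map f)).trans ?_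
    rw [SimpleGraph.Walk.length_map]

/-- Along a walk which stays below `x0` the coordinate `x0` does not change. -/
theorem coord_const (E : Elim G t) {n : ℕ} (x0 : V) {p q : BV E n} (w : (BG E n).Walk p q)
    (h : ∀ z ∈ w.support, E.rank z.1.1 ≤ E.rank x0) : p.1.2 x0 = q.1.2 x0 := by
  induction w with
  | nil => rfl
  | cons hadj w ih =>
    rename_i a b c
    have h1 := h a (by simp)
    have h2 := h b (by simp)
    rw [hadj.2 x0 h1 h2]
    exact ih fun z hz => h z (by simp [hz])

end Blow

theorem lower_of_design {d t k : ℕ} (hk : 1 ≤ k) (h : HasDesign d t k) :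
    ∃ (V : Type) (_ : Fintype V) (G : SimpleGraph V), Nonempty (Elim G t) ∧
      ∀ c : V → Fin (k - 1), ¬ IsSubcolouring (power G d) c := by
  classical
  obtain ⟨V, _, G, E, r, v, top, hr, hr', htop, hvt, hold, hd⟩ := h
  set n := Fintype.card (Fin k → Fin (k - 1)) with hn
  refine ⟨BV E n, Fintype.ofFinite _, BG E n, ⟨BE E n⟩, ?_⟩
  intro c hc
  obtain ⟨C, hC⟩ := exists_colour' (n + 1) (Nat.lt_succ_self n) E.rank E.rank_inj
    (fun a => (fun i => c (res E (v i) a) : Fin k → Fin (k - 1)))
  -- transitivity inside the colour classes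
  have trans : ∀ x y z : BV E n, c x = c y → c y = c z → (BG E n).edist x y ≤ (d : ℕ∞) →
      (BG E n).edist y z ≤ (d : ℕ∞) → (BG E n).edist x z ≤ (d : ℕ∞) := by
    intro x y z h1 h2 h3 h4
    by_cases hxz : x = z
    · subst hxz; simp
    by_cases hxy : x = y
    · subst hxy; exact h4
    by_cases hyz : y = z
    · subst hyz; exact h3
    exact (hc x y z ⟨hxy, h3⟩ ⟨hyz, h4⟩ hxz h1 h2).2
  obtain ⟨i0, j0, hij0, hCij0⟩ := Fintype.exists_ne_map_eq_of_card_lt C (by simp; omega)
  obtain ⟨i, j, hij, hCij⟩ : ∃ i j : Fin k, E.rank (top j) < E.rank (top i) ∧ C i = C j := by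
    have hne : E.rank (top i0) ≠ E.rank (top j0) := fun h => hij0 (htop (E.rank_inj h))
    rcases lt_or_gt_of_ne hne with h | h
    · exact ⟨j0, i0, h, hCij0.symm⟩
    · exact ⟨i0, j0, h, hCij0⟩
  obtain ⟨a, a', ha, ha', hag, hdiff⟩ := hC (top j)
  have hcol : ∀ m, c (res E (v m) a) = C m := fun m => congrFun ha m
  have hcol' : ∀ m, c (res E (v m) a') = C m := fun m => congrFun ha' m
  have htopeq : res E (top i) a = res E (top i) a' := by
    refine eq_res E _ _ _ rfl ?_
    intro y hy
    rw [res_snd E _ _ hy]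
    exact hag y (lt_of_lt_of_le hij hy)
  have hd1 : (BG E n).edist (res E (v i) a) (res E (v i) a') ≤ (d : ℕ∞) := by
    have e1 : (BG E n).edist (res E (v i) a) (res E (top i) a) ≤ (r : ℕ∞) :=
      (edist_map_le (copyHom E a) (v i) (top i)).trans (hvt i)
    have e2 : (BG E n).edist (res E (top i) a) (res E (v i) a') ≤ (r : ℕ∞) := by
      rw [htopeq, SimpleGraph.edist_comm]
      exact (edist_map_le (copyHom E a') (v i) (top i)).trans (hvt i)
    calc (BG E n).edist (res E (v i) a) (res E (v i) a')
        ≤ (BG E n).edist (res E (v i) a) (res E (top i) a) +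
          (BG E n).edist (res E (top i) a) (res E (v i) a') := SimpleGraph.edist_triangle
      _ ≤ (r : ℕ∞) + (r : ℕ∞) := add_le_add e1 e2
      _ = ((2 * r : ℕ) : ℕ∞) := by push_cast; ring
      _ ≤ (d : ℕ∞) := by exact_mod_cast hr
  have hd2 : (BG E n).edist (res E (v j) a) (res E (v i) a) ≤ (d : ℕ∞) :=
    (edist_map_le (copyHom E a) (v j) (v i)).trans (hd j i)
  have hd3 : (BG E n).edist (res E (v i) a') (res E (v j) a') ≤ (d : ℕ∞) :=
    (edist_map_le (copyHom E a') (v i) (v j)).trans (hd i j)
  have hd4 : (BG E n).edist (res E (v j) a) (res E (v i) a') ≤ (d : ℕ∞) :=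
    trans _ (res E (v i) a) _ (by rw [hcol, hcol, hCij]) (by rw [hcol, hcol']) hd2 hd1
  have hd5 : (BG E n).edist (res E (v j) a) (res E (v j) a') ≤ (d : ℕ∞) :=
    trans _ (res E (v i) a') _ (by rw [hcol, hcol', hCij]) (by rw [hcol', hcol', hCij]) hd4 hd3
  -- the walk
  have hne : (BG E n).edist (res E (v j) a) (res E (v j) a') ≠ ⊤ := by
    intro h
    rw [h] at hd5
    exact absurd hd5 (by simp)
  obtain ⟨w, hw⟩ := SimpleGraph.exists_walk_of_edist_ne_top hne
  rw [← hw] at hd5
  have hwl : w.length ≤ d := by exact_mod_cast hd5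
  have hrank : E.rank (v j) ≤ E.rank (top j) := by
    by_contra hcon
    exact hold j (v j) (not_le.1 hcon) (by simp)
  have hex : ∃ z ∈ w.support, E.rank (top j) < E.rank z.1.1 := by
    by_contra hcon
    push Not at hcon
    have := coord_const E (top j) w hcon
    rw [res_snd E _ _ hrank, res_snd E _ _ hrank] at this
    exact hdiff this
  obtain ⟨z, hz, hzr⟩ := hex
  have hlen : (w.takeUntil z hz).length + (w.dropUntil z hz).length = w.length := by
    rw [← SimpleGraph.Walk.length_append, SimpleGraph.Walk.take_spec]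
  have hfar := hold j z.1.1 hzr
  have h1 : (r : ℕ∞) < ((w.takeUntil z hz).length : ℕ∞) := by
    refine lt_of_not_ge fun hcon => hfar ?_
    exact ((edist_map_le (projHom E n) _ _).trans (SimpleGraph.edist_le _)).trans hcon
  have h2 : (r : ℕ∞) < ((w.dropUntil z hz).length : ℕ∞) := by
    refine lt_of_not_ge fun hcon => hfar ?_
    rw [SimpleGraph.edist_comm]
    exact ((edist_map_le (projHom E n) _ _).trans (SimpleGraph.edist_le _)).trans hcon
  have h1' : r < (w.takeUntil z hz).length := by exact_mod_cast h1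
  have h2' : r < (w.dropUntil z hz).length := by exact_mod_cast h2
  omega

end SubPow
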