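import Pool.Agent.Helper15.Sub.ClaimW
import Pool.Agent.Helper15.Sub.Arith

/-!
Block CL: the length inequality and the base case.

* `rl_union_le`. Put `U = US C`, `V' = US C'`, `U' = US (C ∪ C') = U ⊔ V'` (`US_union`),
  `D = LT K (e+1)`, `Q_i = D ⊓ (U ⊔ R_i)`, `X_i = (R_i ⊔ U) ⊓ V'`. `rl_split` with `U`:
  `rl (U' ⊓ R₁) (U' ⊓ R₂) = rl (U' ⊓ R₁ ⊓ U) (U' ⊓ R₂ ⊓ U) + rl ((U' ⊓ R₁) ⊔ U) ((U' ⊓ R₂) ⊔ U)`.
  The first term is `rl (U ⊓ R₁) (U ⊓ R₂)`. By the modular law twice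
  `(U' ⊓ R_i) ⊔ U = U' ⊓ (R_i ⊔ U) = X_i ⊔ U`, so the second is at most `rl X₁ X₂`
  (`rl_sup_le`). `X₂ ≤ LT C' e ≤ D` by F2, so `X_i = Q_i ⊓ V'`, and `rl_inf_le` applies.
* `claim_base`: an open ball is impossible (`e ≤ i ≤ r`). Put `g = 2r+1-e`, `U = US C`,
  `R = R a`, `Y' = sh (-g) R ⊔ U ≥ R ⊔ U`. For `n ∈ Y`, `y = s^{-(i+1)} e_q ∈ Y'`,
  `y ∈ R (n+1)`, `y ∉ R n` (`Sit.Dies.mem`). `card_le_rl`: `|Y| ≤ rl (R a ⊓ Y') (R b ⊓ Y')`.
  `rl_split` with `U`: it is at most `rl (R a ⊓ U) (R b ⊓ U) + rl (R a ⊔ U) Y'`; use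
  `rl_sup_US_le` and `AA_base`. (H1 at `a` follows from H1 at `b` by `R_mono`.)
-/

namespace SubPow

open Finset

variable {O V : Type*} [CommRing O] [IsDomain O] [IsDiscreteValuationRing O]
  (L : Type*) [Field L] [Algebra O L] [IsFractionRing O L] [Fintype V] [DecidableEq V]
  {t : ℕ} (X : Sit V t) (W : WData V O)

omit [IsDomain O] [IsDiscreteValuationRing O] [IsFractionRing O L] [Fintype V] in
theorem rl_union_le (s : L) (hs : s ≠ 0) {ϖ : O} (hϖ : algebraMap O L ϖ = s)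
    {K C C' : Finset V} (e : ℕ) {R₁ R₂ : Submodule O (V → L)}
    (hR : R₁ ≤ R₂) (hC' : C' ⊆ K)
    (F2 : US O L C' ⊓ (US O L C ⊔ R₂) ≤ LT O s C' (fun _ => e)) :
    rl (US O L (C ∪ C') ⊓ R₁) (US O L (C ∪ C') ⊓ R₂) ≤
      rl (US O L C ⊓ R₁) (US O L C ⊓ R₂) +
      rl (LT O s K (fun _ => e + 1) ⊓ (US O L C ⊔ R₁))
        (LT O s K (fun _ => e + 1) ⊓ (US O L C ⊔ R₂)) := by
  have hUV : US O L (C ∪ C') = US O L C ⊔ US O L C' := US_union C C'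
  have hDV : US O L C' ⊓ (US O L C ⊔ R₂) ≤ LT O s K (fun _ => e + 1) :=
    F2.trans (LT_mono hs hϖ hC' (fun _ _ => Nat.le_succ e))
  rw [hUV]
  generalize US O L C = U at *
  generalize US O L C' = V' at *
  generalize LT O s K (fun _ => e + 1) = D at *
  have hAB : (U ⊔ V') ⊓ R₁ ≤ (U ⊔ V') ⊓ R₂ := inf_le_inf_left _ hR
  rw [rl_split hAB U]
  have h1 : ∀ R : Submodule O (V → L), (U ⊔ V') ⊓ R ⊓ U = U ⊓ R := by
    intro R
    rw [inf_right_comm, inf_eq_right.mpr (le_sup_left : U ≤ U ⊔ V')]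
  have h2 : ∀ R : Submodule O (V → L), (U ⊔ V') ⊓ R ⊔ U = V' ⊓ (U ⊔ R) ⊔ U := by
    intro R
    rw [inf_sup_assoc_of_le R (le_sup_left : U ≤ U ⊔ V'), sup_comm R U,
      sup_inf_assoc_of_le V' (le_sup_left : U ≤ U ⊔ R), sup_comm]
  have h3 : ∀ R : Submodule O (V → L), R ≤ R₂ → V' ⊓ (U ⊔ R) = D ⊓ (U ⊔ R) ⊓ V' := by
    intro R hR'
    apply le_antisymm
    · refine le_inf (le_inf ?_ inf_le_right) inf_le_left
      exact (inf_le_inf_left _ (sup_le_sup_left hR' _)).trans hDV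
    · exact le_inf inf_le_right (inf_le_left.trans inf_le_right)
  rw [h1, h1, h2, h2, h3 R₁ hR, h3 R₂ le_rfl]
  have hQ : D ⊓ (U ⊔ R₁) ≤ D ⊓ (U ⊔ R₂) := inf_le_inf_left _ (sup_le_sup_left hR _)
  gcongr
  exact (rl_sup_le (inf_le_inf_right _ hQ) U).trans (rl_inf_le hQ V')

/-- The base case of the claim (`r < e`). -/
theorem claim_base {r e a b w : ℕ} (her : r < e) (hab : a ≤ b) (C : Finset V)
    (hC : C ⊆ X.S a ∪ X.K a) (hw : C.card + w = t) (B : V → ℕ)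
    (H1 : US O L C ⊓ X.R L W b ≤ LT O (W.s L) C B) (Y : Finset ℕ)
    (hY : ∀ n ∈ Y, a ≤ n ∧ n < b ∧ ∃ q i, i ≤ r ∧ X.Dies n q i ∧
      (X.Open a e q i ∨ X.Closed L W r a e C q i)) :
    (Y.card : ℕ∞) ≤ rl (US O L C ⊓ X.R L W a) (US O L C ⊓ X.R L W b) + (AA r w e : ℕ) := by
  have hϖ : algebraMap O L W.ϖ = W.s L := rfl
  have hs : W.s L ≠ 0 := by
    intro h0
    have hinj : Function.Injective (algebraMap O L) := IsFractionRing.injective O L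
    exact W.irr.ne_zero (hinj (by rw [map_zero]; exact h0))
  have hmono := Sit.R_mono L X W
  have hRab : X.R L W a ≤ X.R L W b := hmono hab
  have H1a : US O L C ⊓ X.R L W a ≤ LT O (W.s L) C B := (inf_le_inf_left _ hRab).trans H1
  set g : ℕ := 2 * r + 1 - e with hg
  set U : Submodule O (V → L) := US O L C with hU
  set Y' : Submodule O (V → L) := sh (W.s L) (-(g : ℤ)) (X.R L W a) ⊔ U with hY'
  have hRY : X.R L W a ≤ Y' := by
    refine le_sup_of_le_left ?_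
    have h := sh_le_sh (O := O) hs hϖ (a := -(g : ℤ)) (b := 0) (by omega) (X.R L W a)
    rwa [sh_zero] at h
  have hcard : (Y.card : ℕ∞) ≤ rl (X.R L W a ⊓ Y') (X.R L W b ⊓ Y') := by
    refine card_le_rl (X.R L W) hmono Y' hab Y ?_
    intro n hn
    obtain ⟨h1, h2, q, i, hi, hd, ho⟩ := hY n hn
    refine ⟨h1, h2, ?_⟩
    rcases ho with ⟨o, -, ho⟩ | ⟨-, hc⟩
    · exfalso
      have h3 : (e : ℕ∞) ≤ (i : ℕ∞) := le_trans le_add_self ho
      have h4 : e ≤ i := by exact_mod_cast h3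
      omega
    · obtain ⟨hm1, hm2⟩ := Sit.Dies.mem L X W hd
      refine ⟨(W.s L) ^ (-((i : ℤ) + 1)) • ee L q, ?_, hm1, hm2⟩
      have h5 : (W.s L) ^ (-((i : ℤ) + 1)) • ee L q ∈
          sh (W.s L) (-((i : ℤ) + 1)) (US O L C ⊔
            sh (W.s L) ((i : ℤ) + 1 - ((2 * r + 1 - e : ℕ) : ℤ)) (X.R L W a)) := by
        rw [mem_sh, neg_neg, smul_smul, ← zpow_add₀ hs, add_neg_cancel, zpow_zero, one_smul]
        exact hc
      rw [sh_sup hs, sh_US hs, sh_sh hs] at h5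
      have h6 : -((i : ℤ) + 1) + ((i : ℤ) + 1 - ((2 * r + 1 - e : ℕ) : ℤ)) = -(g : ℤ) := by
        rw [← hg]; ring
      rw [h6, sup_comm] at h5
      exact h5
  refine hcard.trans ?_
  rw [rl_split (inf_le_inf_right Y' hRab) U]
  have hUY : U ≤ Y' := le_sup_right
  have h1 : ∀ R : Submodule O (V → L), R ⊓ Y' ⊓ U = U ⊓ R := by
    intro R
    rw [inf_assoc, inf_eq_right.mpr hUY, inf_comm]
  rw [h1, h1, inf_eq_left.mpr hRY]
  gcongr
  refine (rl_mono_right (sup_le_sup_right (le_inf hRab hRY) U)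
    (sup_le inf_le_right hUY)).trans ?_
  have h7 := rl_sup_US_le L X W a C hC hw B H1a g
  rw [AA_base w her]
  exact h7

end SubPow
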