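import Pool.Agent.Helper15.Sub.ClaimDefs

/-!
Block CS: selection of the new kept set. `R₁ ≤ R₂` are the relation modules at the two ends of
an interval on which the number of generators `m` is constant.

Put `D = LT K (e+1)`, `U = US C`, `T_i = (D ⊓ (U ⊔ R_i)) ⊔ sh 1 D`. `T_1 ≤ T_2 ≤ D` and
`rl T_1 D = rl T_2 D = m` is finite, so `rl T_1 T_2 = 0` and `T_1 = T_2 =: T`
(`one_le_rl`). Let `x_o = s^{-(e+1)} e_o` (`o ∈ K`); `D = span {x_o : o ∈ K}` (`LT_eq_span`) and
`ϖ x_o ∈ sh 1 D ≤ T`. Choose `C' ⊆ K` of minimal cardinality with `D ≤ T ⊔ span {x_c : c ∈ C'}`.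
* minimality: `x_c ∉ T ⊔ span {x_{c'} : c' ∈ C', c' ≠ c}` for `c ∈ C'`; hence `C'.card = m` by
  `rl_le_card` and `card_le_rl_of_indep`, and `C` and `C'` are disjoint (`x_c ∈ D ⊓ U ≤ T` for
  `c ∈ C ∩ K`).
* first conclusion: `D ≤ (span {x_c : c ∈ C'} ⊔ (D ⊓ (U ⊔ R₁))) ⊔ ϖ • D`, so by Nakayama
  (`Submodule.le_of_le_smul_of_le_jacobson_bot`, `O` is local, `D` is finitely generated)
  `D ≤ span {x_c : c ∈ C'} ⊔ (U ⊔ R₁)`; multiply `x_o` by `s^{e+1}`.
* second conclusion: let `v ∈ US C' ⊓ (U ⊔ R₂)`, `v ∉ LT C' e`. Let `n` be minimal such that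
  `v' = ϖ^n v ∈ LT C' (e+1) ≤ D`; then
  `v' ∈ U ⊔ R₂`, so `v' ∈ D ⊓ (U ⊔ R₂) ≤ T`; some coordinate of `v'` is a unit times
  `s^{-(e+1)}`, so `x_c ∈ T ⊔ span (others)`, a contradiction.
-/

namespace SubPow

open Finset

variable {O V : Type*} [CommRing O] [IsDomain O] [IsDiscreteValuationRing O]
  (L : Type*) [Field L] [Algebra O L] [IsFractionRing O L] [Fintype V] [DecidableEq V]
  (W : WData V O)

omit [Fintype V] [DecidableEq V] in
/-- every element of the fraction field becomes integral after multiplication by a power of the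
uniformiser -/
lemma exists_pow_int (x : L) : ∃ n : ℕ, ∃ y : O, algebraMap O L y = W.s L ^ n * x := by
  obtain ⟨a, b, hb, rfl⟩ := IsFractionRing.div_surjective (A := O) x
  have hb0 : b ≠ 0 := nonZeroDivisors.ne_zero hb
  obtain ⟨n, u, hu⟩ := IsDiscreteValuationRing.associated_pow_irreducible hb0 W.irr
  have hbL : algebraMap O L b ≠ 0 := fun h =>
    hb0 ((IsFractionRing.injective O L) (by rw [map_zero]; exact h))
  refine ⟨n, a * u, ?_⟩
  have h1 : W.s L ^ n = algebraMap O L b * algebraMap O L u := by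
    rw [← map_mul, hu, map_pow]
    rfl
  rw [h1, map_mul]
  field_simp

omit [IsDiscreteValuationRing O] [IsFractionRing O L] [IsDomain O] [Fintype V] [DecidableEq V] in
lemma int_mono {x : L} {n m : ℕ} (h : n ≤ m) (hx : ∃ y : O, algebraMap O L y = W.s L ^ n * x) :
    ∃ y : O, algebraMap O L y = W.s L ^ m * x := by
  obtain ⟨y, hy⟩ := hx
  refine ⟨W.ϖ ^ (m - n) * y, ?_⟩
  rw [map_mul, hy, map_pow]
  change W.s L ^ (m - n) * _ = _
  rw [← mul_assoc, ← pow_add, Nat.sub_add_cancel h]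

omit [Fintype V] [DecidableEq V] in
lemma exists_pow_int_finset (C' : Finset V) (v : V → L) :
    ∃ n : ℕ, ∀ q ∈ C', ∃ y : O, algebraMap O L y = W.s L ^ n * v q := by
  choose f hf using fun q => exists_pow_int L W (v q)
  exact ⟨C'.sup f, fun q hq => int_mono L W (Finset.le_sup hq) (hf q)⟩

theorem select {K C : Finset V} (e : ℕ) {R₁ R₂ : Submodule O (V → L)} (hR : R₁ ≤ R₂)
    {m : ℕ}
    (h1 : rl ((LT O (W.s L) K (fun _ => e + 1) ⊓ (US O L C ⊔ R₁)) ⊔
      sh (W.s L) 1 (LT O (W.s L) K (fun _ => e + 1))) (LT O (W.s L) K (fun _ => e + 1)) = m)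
    (h2 : rl ((LT O (W.s L) K (fun _ => e + 1) ⊓ (US O L C ⊔ R₂)) ⊔
      sh (W.s L) 1 (LT O (W.s L) K (fun _ => e + 1))) (LT O (W.s L) K (fun _ => e + 1)) = m) :
    ∃ C' ⊆ K, Disjoint C C' ∧ C'.card = m ∧
      (∀ o ∈ K, ee L o ∈ LT O (W.s L) C' (fun _ => 0) ⊔ US O L C ⊔
        sh (W.s L) ((e : ℤ) + 1) R₁) ∧
      US O L C' ⊓ (US O L C ⊔ R₂) ≤ LT O (W.s L) C' (fun _ => e) := by
  classical
  have hs : W.s L ≠ 0 := W.s_ne_zero L
  have hϖ : algebraMap O L W.ϖ = W.s L := rfl
  set s : L := W.s L with hsdef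
  set D : Submodule O (V → L) := LT O s K (fun _ => e + 1) with hD
  set U : Submodule O (V → L) := US O L C with hU
  have hshD : sh s 1 D ≤ D := by
    have h := sh_le_sh (O := O) hs hϖ (show (0 : ℤ) ≤ 1 by norm_num) D
    rwa [sh_zero] at h
  have hT12 : (D ⊓ (U ⊔ R₁)) ⊔ sh s 1 D ≤ (D ⊓ (U ⊔ R₂)) ⊔ sh s 1 D :=
    sup_le_sup_right (inf_le_inf_left _ (sup_le_sup_left hR _)) _
  have hT2D : (D ⊓ (U ⊔ R₂)) ⊔ sh s 1 D ≤ D := sup_le inf_le_left hshD
  have hTeq : (D ⊓ (U ⊔ R₁)) ⊔ sh s 1 D = (D ⊓ (U ⊔ R₂)) ⊔ sh s 1 D := by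
    by_contra hne
    have hlt := lt_of_le_of_ne hT12 hne
    have h3 := rl_trans hT12 hT2D
    have h4 := one_le_rl hlt
    rw [h1, h2] at h3
    have h5 : (1 : ℕ∞) + m ≤ (m : ℕ∞) := by
      calc (1 : ℕ∞) + m ≤ rl ((D ⊓ (U ⊔ R₁)) ⊔ sh s 1 D) ((D ⊓ (U ⊔ R₂)) ⊔ sh s 1 D) + m := by
            gcongr
        _ = m := h3.symm
    have h6 : 1 + m ≤ m := by exact_mod_cast h5
    omega
  set T : Submodule O (V → L) := (D ⊓ (U ⊔ R₁)) ⊔ sh s 1 D with hT
  have hTD : T ≤ D := hTeq ▸ hT2D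
  set x : V → V → L := fun q => (s ^ (e + 1))⁻¹ • ee L q with hx
  have hspan : ∀ A : Finset V, LT O s A (fun _ => e + 1) = Submodule.span O (x '' (A : Set V)) :=
    fun A => LT_eq_span hs A (fun _ => e + 1)
  have hxD : ∀ o ∈ K, x o ∈ D := by
    intro o ho
    rw [hD, hspan K]
    exact Submodule.subset_span ⟨o, ho, rfl⟩
  have hϖx : ∀ v ∈ D, W.ϖ • v ∈ sh s 1 D := by
    intro v hv
    rw [mem_sh]
    have h : s ^ (-(1 : ℤ)) • (W.ϖ • v) = v := by
      rw [← algebraMap_smul L W.ϖ v, hϖ, smul_smul, zpow_neg, zpow_one, inv_mul_cancel₀ hs,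
        one_smul]
    rw [h]
    exact hv
  -- the minimal set
  have hex : ∃ n : ℕ, ∃ C' ⊆ K, C'.card = n ∧ D ≤ T ⊔ Submodule.span O (x '' (C' : Set V)) :=
    ⟨K.card, K, Finset.Subset.refl _, rfl, (hspan K).le.trans le_sup_right⟩
  obtain ⟨C', hC'K, hC'n, hC'D⟩ := Nat.find_spec hex
  have hmin : ∀ A : Finset V, A ⊆ K → A.card < C'.card →
      ¬ D ≤ T ⊔ Submodule.span O (x '' (A : Set V)) := by
    intro A hA hcard hle
    exact Nat.find_min hex (m := A.card) (hC'n ▸ hcard) ⟨A, hA, rfl, hle⟩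
  have hindep : ∀ c ∈ C', x c ∉ T ⊔ Submodule.span O (x '' ((C'.erase c : Finset V) : Set V)) := by
    intro c hc hmem
    refine hmin (C'.erase c) ((Finset.erase_subset _ _).trans hC'K)
      (Finset.card_erase_lt_of_mem hc) (hC'D.trans (sup_le le_sup_left ?_))
    rw [Submodule.span_le]
    rintro _ ⟨c', hc', rfl⟩
    by_cases h : c' = c
    · subst h
      exact hmem
    · exact Submodule.mem_sup_right (Submodule.subset_span
        ⟨c', Finset.mem_coe.2 (Finset.mem_erase.2 ⟨h, hc'⟩), rfl⟩)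
  have hDeq : T ⊔ Submodule.span O (x '' (C' : Set V)) = D := by
    apply le_antisymm _ hC'D
    refine sup_le hTD ?_
    rw [Submodule.span_le]
    rintro _ ⟨c, hc, rfl⟩
    exact hxD c (hC'K hc)
  have hmax : (Ideal.span {W.ϖ}).IsMaximal := by
    rw [← W.irr.maximalIdeal_eq]
    infer_instance
  have hcard : C'.card = m := by
    have ha := rl_le_card C' x W.ϖ hmax T
      (fun c hc => le_sup_right (a := D ⊓ (U ⊔ R₁)) (hϖx _ (hxD c (hC'K hc))))
    have hb := card_le_rl_of_indep C' x T hindep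
    rw [hDeq] at ha hb
    rw [h1] at ha hb
    have ha' : m ≤ C'.card := by exact_mod_cast ha
    have hb' : C'.card ≤ m := by exact_mod_cast hb
    omega
  refine ⟨C', hC'K, ?_, hcard, ?_, ?_⟩
  · rw [Finset.disjoint_left]
    intro c hc hc'
    refine hindep c hc' (Submodule.mem_sup_left (Submodule.mem_sup_left ⟨hxD c (hC'K hc'),
      Submodule.mem_sup_left ?_⟩))
    intro q hq
    have hne : q ≠ c := fun h => hq (h ▸ hc)
    simp [hx, ee, hne]
  · intro o ho
    -- Nakayama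
    have hfg : D.FG := by
      rw [hD, hspan K]
      exact ⟨K.image x, by rw [Finset.coe_image]⟩
    have hI : (Ideal.span {W.ϖ} : Ideal O) ≤ Ideal.jacobson ⊥ := by
      rw [IsLocalRing.jacobson_eq_maximalIdeal ⊥ bot_ne_top, W.irr.maximalIdeal_eq]
    have hle : D ≤ (Submodule.span O (x '' (C' : Set V)) ⊔ (D ⊓ (U ⊔ R₁))) ⊔
        Ideal.span {W.ϖ} • D := by
      have hshle : sh s 1 D ≤ Ideal.span {W.ϖ} • D := by
        intro v hv
        rw [mem_sh] at hv
        have h : v = W.ϖ • (s ^ (-(1 : ℤ)) • v) := by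
          rw [← algebraMap_smul L W.ϖ (s ^ (-(1 : ℤ)) • v), hϖ, smul_smul, zpow_neg, zpow_one,
            mul_inv_cancel₀ hs, one_smul]
        rw [h]
        exact Submodule.smul_mem_smul (Ideal.mem_span_singleton_self _) hv
      calc D ≤ T ⊔ Submodule.span O (x '' (C' : Set V)) := hC'D
        _ ≤ _ := by
          refine sup_le (sup_le (le_sup_of_le_left le_sup_right)
            (le_sup_of_le_right hshle)) (le_sup_of_le_left le_sup_left)
    have hN := Submodule.le_of_le_smul_of_le_jacobson_bot hfg hI hle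
    have h7 : x o ∈ LT O s C' (fun _ => e + 1) ⊔ U ⊔ R₁ := by
      have h8 : x o ∈ Submodule.span O (x '' (C' : Set V)) ⊔ (D ⊓ (U ⊔ R₁)) := hN (hxD o ho)
      rw [hspan C', sup_assoc]
      have h8' : Submodule.span O (x '' (C' : Set V)) ⊔ (D ⊓ (U ⊔ R₁)) ≤
          Submodule.span O (x '' (C' : Set V)) ⊔ (U ⊔ R₁) := sup_le_sup_left inf_le_right _
      exact h8' h8
    have h9 : ee L o ∈ sh s ((e : ℤ) + 1) (LT O s C' (fun _ => e + 1) ⊔ U ⊔ R₁) := by
      rw [mem_sh]
      have h : s ^ (-((e : ℤ) + 1)) • ee L o = x o := by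
        rw [hx, zpow_neg]
        congr 2
        exact_mod_cast zpow_natCast s (e + 1)
      rw [h]
      exact h7
    rw [sh_sup hs, sh_sup hs, sh_US hs] at h9
    have h10 : sh s ((e : ℤ) + 1) (LT O s C' (fun _ => e + 1)) = LT O s C' (fun _ => 0) := by
      have h11 := sh_LT (O := O) hs (e + 1) C' (fun _ => 0)
      have h12 : LT O s C' (fun _ => e + 1) = sh s (-((e + 1 : ℕ) : ℤ)) (LT O s C' (fun _ => 0)) := by
        rw [h11]
        congr 1
        funext q
        omega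
      rw [h12, sh_sh hs]
      have h13 : ((e : ℤ) + 1 + -((e + 1 : ℕ) : ℤ)) = 0 := by push_cast; ring
      rw [h13, sh_zero]
    rw [h10] at h9
    exact h9
  · intro v hv
    obtain ⟨hvC', hvUR⟩ := Submodule.mem_inf.mp hv
    by_contra hnot
    have hexn := exists_pow_int_finset (O := O) L W C' (fun q => s ^ (e + 1) * v q)
    set n := Nat.find hexn with hn
    have hnspec := Nat.find_spec hexn
    rw [← hn] at hnspec
    -- a coordinate which is a unit times `s ^ (-(e + 1))`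
    have hunit : ∃ q ∈ C', ∃ y : O, IsUnit y ∧ algebraMap O L y = s ^ n * (s ^ (e + 1) * v q) := by
      have key : ∃ q ∈ C', ¬ ∃ y : O, s * algebraMap O L y = s ^ n * (s ^ (e + 1) * v q) := by
        by_contra hcon
        push Not at hcon
        rcases Nat.eq_zero_or_pos n with h0 | hpos
        · apply hnot
          refine ⟨fun q hq => hvC' q hq, fun q hq => ?_⟩
          obtain ⟨y, hy⟩ := hcon q hq
          refine ⟨y, ?_⟩
          rw [h0, pow_zero, one_mul, pow_succ', mul_assoc] at hy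
          exact mul_left_cancel₀ hs hy
        · have hlt : n - 1 < n := by omega
          apply Nat.find_min hexn hlt
          intro q hq
          obtain ⟨y, hy⟩ := hcon q hq
          refine ⟨y, ?_⟩
          have h14 : s ^ n = s * s ^ (n - 1) := by
            rw [← pow_succ']
            congr 1
            omega
          rw [h14, mul_assoc] at hy
          exact mul_left_cancel₀ hs hy
      obtain ⟨q, hq, hqn⟩ := key
      obtain ⟨y, hy⟩ := hnspec q hq
      refine ⟨q, hq, y, ?_, hy⟩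
      by_contra hyu
      have hmem : y ∈ IsLocalRing.maximalIdeal O := hyu
      rw [W.irr.maximalIdeal_eq, Ideal.mem_span_singleton] at hmem
      obtain ⟨z, hz⟩ := hmem
      apply hqn
      refine ⟨z, ?_⟩
      rw [← hsdef] at hy
      rw [← hy, hz, map_mul, hϖ]
    obtain ⟨q₀, hq₀, y₀, hy₀u, hy₀⟩ := hunit
    choose! f hf using hnspec
    rw [← hsdef] at hf
    set v' : V → L := W.ϖ ^ n • v with hv'
    have hv'q : ∀ q, v' q = s ^ n * v q := by
      intro q
      rw [hv', Pi.smul_apply, Algebra.smul_def, map_pow, hϖ]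
    have hv'sum : v' = ∑ c ∈ C', f c • x c := by
      funext q
      rw [hv'q, Finset.sum_apply]
      by_cases hq : q ∈ C'
      · rw [Finset.sum_eq_single q]
        · rw [Pi.smul_apply, Algebra.smul_def, hf q hq, hx]
          simp only [Pi.smul_apply, ee, Pi.single_eq_same, smul_eq_mul, mul_one]
          field_simp
        · intro c hc hcq
          simp [hx, ee, Ne.symm hcq]
        · intro h
          exact absurd hq h
      · rw [hvC' q hq, mul_zero]
        symm
        apply Finset.sum_eq_zero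
        intro c hc
        have hne : q ≠ c := fun h => hq (h ▸ hc)
        simp [hx, ee, hne]
    have hv'D : v' ∈ D := by
      rw [hv'sum]
      exact Submodule.sum_mem _ fun c hc => Submodule.smul_mem _ _ (hxD c (hC'K hc))
    have hv'T : v' ∈ T := by
      rw [hTeq]
      exact Submodule.mem_sup_left ⟨hv'D, Submodule.smul_mem _ _ hvUR⟩
    have hfq : f q₀ = y₀ := by
      apply IsFractionRing.injective O L
      rw [hf q₀ hq₀, hy₀]
    have hsplit : f q₀ • x q₀ = v' - ∑ c ∈ C'.erase q₀, f c • x c := by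
      rw [hv'sum, ← Finset.add_sum_erase C' (fun c => f c • x c) hq₀, add_sub_cancel_right]
    have hmem : f q₀ • x q₀ ∈ T ⊔ Submodule.span O (x '' ((C'.erase q₀ : Finset V) : Set V)) := by
      rw [hsplit]
      refine Submodule.sub_mem _ (Submodule.mem_sup_left hv'T) (Submodule.mem_sup_right ?_)
      exact Submodule.sum_mem _ fun c hc => Submodule.smul_mem _ _
        (Submodule.subset_span ⟨c, hc, rfl⟩)
    rw [hfq] at hmem
    obtain ⟨u, rfl⟩ := hy₀u
    apply hindep q₀ hq₀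
    have h15 := Submodule.smul_mem _ (↑u⁻¹ : O) hmem
    rwa [smul_smul, Units.inv_mul, one_smul] at h15

end SubPow
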