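import Pool.Agent.Helper15.Sub.ClaimW

/-!
Block CV: conversion of open and closed balls to the next level.

Write `R' = R a'`, `U' = US (C ∪ C')`. Exponents: `(2 * r + 1 - e : ℕ)` and
`(2 * r + 1 - (2 * e + 1) : ℕ)` are honest subtractions as `e ≤ r`.

(1) For `c ∈ C'`: `near (K b') c e`. Otherwise `e_c ∈ sh (e+1) (R b')` (`ee_mem_sh_iff`), so
`s^{-(e+1)} e_c ∈ US C' ⊓ (US C ⊔ R b') ≤ LT C' e`, i.e. `s⁻¹ ∈ O`, a contradiction.

(2) Closed: `q ∈ S a' ∪ K a'`; `R a ≤ LT (K a) 0 ⊔ sh (e+1) (R a)` (`RR_le`) and by F1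
`R a ≤ U' ⊔ sh (e+1) R'`; so `e_q ∈ U' ⊔ sh (i+1-(2r+1-e)+(e+1)) R'`, as required.

(3) Open via `o ∈ K a`: let `δ = dist(o, q)` (finite), `δ + e ≤ i ≤ r`, and `o = q_0, …, q_δ = q`
a geodesic; `edist (q_l) q ≤ δ - l`. The ball is dead at `n + 1 ≤ b'`, and
`q ∈ S (n+1) ∪ K (n+1)`, so `¬ near (K b') q i` by `near_anti`. Therefore
(3a) `¬ edist c (q_l) ≤ B c + l` for `c ∈ C` (else `near (K b') q (δ - l + B c + l + ε c)`);
(3b) `¬ edist c (q_l) ≤ l` for `c ∈ C'` (by (1)).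
Put `b_l c = B c + l` on `C`, `= l` on `C'`. Claim for `l ≤ e + 1`, `l ≤ δ`:
`e_{q_l} ∈ LT (C ∪ C') b_l ⊔ sh (e + 1 - l) R'` and `q_l ∈ S a' ∪ K a'`.
`l = 0`: F1 gives `e_o = u' + u + v`, `u' ∈ LT C' 0`, `u ∈ US C`, `v ∈ sh (e+1) R' ≤ R'`, and
`u = e_o - u' - v ∈ R'`, so `u ∈ US C ⊓ R b' ≤ LT C B`. Step `l → l + 1` (`l ≤ e`): by
`ee_not_mem` (`a = e - l`) `q_l ∉ K a'`, so `q_l ∈ S a'`, so `q_{l+1} ∈ S a' ∪ K a'` and
`step_mem` applies. Moreover `q_l ∈ S a'` for all `l ≤ e`, `l ≤ δ`.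
If `δ ≤ e + 1`: `e_q ∈ U' ⊔ sh (e + 1 - δ) R' ≤ U' ⊔ sh (i + 1 - (2r - 2e)) R'` as
`δ + i ≤ 2r - e`; so the ball is closed. If `δ ≥ e + 2` and `q ∈ S a' ∪ K a'`: `e_q ∈ R'`
and `i + 1 ≤ 2r - 2e` (`r ≥ i ≥ δ + e ≥ 2e + 2`), closed. If `δ ≥ e + 2` and
`q ∉ S a' ∪ K a'`: the geodesic leaves `S a'` through some `q_l ∈ K a'` with `l ≥ e + 1`, and
`edist q (q_l) + (2e+1) ≤ δ - l + 2e + 1 ≤ δ + e ≤ i`: open.

`hyps_union`: `B' c = B c + e`, `ε' c = ε c` for `c ∈ C`, and `B' c = ε' c = e` for `c ∈ C'`.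
If `v ∈ US (C ∪ C') ⊓ R b'`, write `v = v_C + v_{C'}`; `v_{C'} ∈ US C' ⊓ (US C ⊔ R b')` so
`v_{C'} ∈ LT C' e`, `s^e v_{C'} ∈ span (e_c : c ∈ C') ≤ R b'`, `s^e v_C ∈ US C ⊓ R b' ≤ LT C B`.
-/

namespace SubPow

open Finset

theorem exists_walk_of_edist_le {V : Type*} {G : SimpleGraph V} {u v : V} {k : ℕ}
    (h : G.edist u v ≤ (k : ℕ∞)) : ∃ p : G.Walk u v, p.length ≤ k := by
  have h1 : G.edist u v ≠ ⊤ := ne_top_of_le_ne_top (ENat.natCast_ne_top k) h
  obtain ⟨p, hp⟩ := SimpleGraph.exists_walk_of_edist_ne_top h1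
  refine ⟨p, ?_⟩
  rw [← hp] at h
  exact_mod_cast h

theorem edist_le_trans {V : Type*} {G : SimpleGraph V} {u v w : V} {k l m : ℕ}
    (h : G.edist u v ≤ (k : ℕ∞)) (h' : G.edist v w ≤ (l : ℕ∞)) (hm : k + l ≤ m) :
    G.edist u w ≤ (m : ℕ∞) := by
  refine (SimpleGraph.edist_triangle (v := v)).trans ((add_le_add h h').trans ?_)
  exact_mod_cast hm

variable {O V : Type*} [CommRing O] [IsDomain O] [IsDiscreteValuationRing O]
  (L : Type*) [Field L] [Algebra O L] [IsFractionRing O L] [Fintype V] [DecidableEq V]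
  {t : ℕ} (X : Sit V t) (W : WData V O)

omit [Fintype V] [DecidableEq V] [IsDiscreteValuationRing O] in
theorem not_inv_mem : ¬ ∃ x : O, algebraMap O L x = (W.s L)⁻¹ := by
  rintro ⟨x, hx⟩
  have hs : W.s L ≠ 0 := by
    unfold WData.s
    rw [Ne, IsFractionRing.to_map_eq_zero_iff]
    exact W.irr.ne_zero
  have h1 : algebraMap O L (x * W.ϖ) = 1 := by
    rw [map_mul, hx]
    exact inv_mul_cancel₀ hs
  have h2 : x * W.ϖ = 1 := by
    apply IsFractionRing.injective O L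
    rw [h1, map_one]
  exact W.irr.not_isUnit (IsUnit.of_mul_eq_one_right x h2)

theorem near_of_F2 {a b' e : ℕ} (hab : a ≤ b') (C C' : Finset V) (hC' : C' ⊆ X.K a)
    (F2 : US O L C' ⊓ (US O L C ⊔ X.R L W b') ≤ LT O (W.s L) C' (fun _ => e))
    {c : V} (hc : c ∈ C') : near X.G (X.K b') c e := by
  by_contra h
  have hs : W.s L ≠ 0 := WData.s_ne_zero L W
  have hcK : c ∈ X.S b' ∪ X.K b' := X.SK_mono hab (mem_union_right _ (hC' hc))
  have h1 := (ee_mem_sh_iff L X.G W (X.disj b') (X.nb b') hcK e).2 h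
  rw [mem_sh] at h1
  have h2 : (W.s L) ^ (-((e : ℤ) + 1)) • ee L c ∈ US O L C' ⊓ (US O L C ⊔ X.R L W b') := by
    refine ⟨?_, Submodule.mem_sup_right h1⟩
    intro q hq
    have hqc : q ≠ c := fun h => hq (h ▸ hc)
    simp [ee, hqc]
  obtain ⟨x, hx⟩ := (F2 h2).2 c hc
  apply not_inv_mem L W
  refine ⟨x, ?_⟩
  rw [hx]
  simp only [ee, Pi.smul_apply, Pi.single_eq_same, smul_eq_mul, mul_one]
  rw [← zpow_natCast, ← zpow_add₀ hs, ← zpow_neg_one]
  congr 1
  ring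

omit [IsDomain O] [IsDiscreteValuationRing O] [IsFractionRing O L] [Fintype V] in
theorem LT_zero_le {R : Submodule O (V → L)} {C : Finset V} (hs : W.s L ≠ 0)
    (h : ∀ c ∈ C, ee L c ∈ R) : LT O (W.s L) C (fun _ => 0) ≤ R := by
  rw [LT_eq_span hs, Submodule.span_le]
  rintro _ ⟨c, hc, rfl⟩
  simpa using h c (by simpa using hc)

omit [IsDomain O] [IsDiscreteValuationRing O] [IsFractionRing O L] [Fintype V]
  [DecidableEq V] in
theorem pow_smul_mem {R : Submodule O (V → L)} {v : V → L} (k : ℕ) (h : v ∈ R) :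
    (W.s L) ^ k • v ∈ R := by
  have h1 : (W.s L) ^ k • v = (W.ϖ ^ k) • v := by
    rw [← algebraMap_smul L (W.ϖ ^ k) v, map_pow]
    rfl
  rw [h1]
  exact R.smul_mem _ h

theorem ee_mem_R {a b : ℕ} (hab : a ≤ b) {q : V} (hq : q ∈ X.S a ∪ X.K a) :
    ee L q ∈ X.R L W b :=
  X.R_mono L W hab (ee_mem_RR L X.G W (X.nb a) hq)

/-- The old relation module after the new vectors are kept. -/
theorem R_le_of_F1 {a a' e : ℕ} (haa : a ≤ a') (C C' : Finset V)
    (F1 : ∀ o ∈ X.K a, ee L o ∈ LT O (W.s L) C' (fun _ => 0) ⊔ US O L C ⊔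
      sh (W.s L) ((e : ℤ) + 1) (X.R L W a')) :
    X.R L W a ≤ US O L (C ∪ C') ⊔ sh (W.s L) ((e : ℤ) + 1) (X.R L W a') := by
  have hs : W.s L ≠ 0 := WData.s_ne_zero L W
  have h1 : X.R L W a ≤ LT O (W.s L) (X.K a) (fun _ => 0) ⊔
      sh (W.s L) ((e + 1 : ℕ) : ℤ) (X.R L W a) := RR_le L X.G W (e + 1)
  refine h1.trans (sup_le ?_ ?_)
  · apply LT_zero_le L W hs
    intro o ho
    have h2 := F1 o ho
    refine (?_ : LT O (W.s L) C' (fun _ => 0) ⊔ US O L C ⊔
      sh (W.s L) ((e : ℤ) + 1) (X.R L W a') ≤ _) h2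
    rw [US_union]
    refine sup_le (sup_le ?_ ?_) le_sup_right
    · exact (LT_le_US _ _ _).trans (le_sup_right.trans le_sup_left)
    · exact le_sup_left.trans le_sup_left
  · refine le_sup_of_le_right ?_
    push_cast
    exact sh_mono _ (X.R_mono L W haa)

theorem closed_conv {a a' e r : ℕ} (haa : a ≤ a') (he : e ≤ r)
    (C C' : Finset V)
    (F1 : ∀ o ∈ X.K a, ee L o ∈ LT O (W.s L) C' (fun _ => 0) ⊔ US O L C ⊔
      sh (W.s L) ((e : ℤ) + 1) (X.R L W a'))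
    {q : V} {i : ℕ} 
    (h : X.Closed L W r a e C q i) : X.Closed L W r a' (2 * e + 1) (C ∪ C') q i := by
  have hs : W.s L ≠ 0 := WData.s_ne_zero L W
  refine ⟨X.SK_mono haa h.1, ?_⟩
  have h1 := R_le_of_F1 L X W haa C C' F1
  have h2 : sh (W.s L) ((i : ℤ) + 1 - ((2 * r + 1 - e : ℕ) : ℤ)) (X.R L W a) ≤
      US O L (C ∪ C') ⊔
        sh (W.s L) ((i : ℤ) + 1 - ((2 * r + 1 - (2 * e + 1) : ℕ) : ℤ)) (X.R L W a') := by
    refine (sh_mono _ h1).trans ?_
    rw [sh_sup hs, sh_US hs, sh_sh hs]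
    have h3 : (i : ℤ) + 1 - ((2 * r + 1 - e : ℕ) : ℤ) + ((e : ℤ) + 1) =
        (i : ℤ) + 1 - ((2 * r + 1 - (2 * e + 1) : ℕ) : ℤ) := by
      omega
    rw [h3]
  refine (sup_le ?_ h2) h.2
  rw [US_union]
  exact le_sup_left.trans le_sup_left

/-- The walk argument. -/
theorem walk_mem {a' e : ℕ} (C C' : Finset V) (B : V → ℕ)
    {o q : V} (p : X.G.Walk o q) (ho : o ∈ X.S a' ∪ X.K a')
    (h0 : ee L o ∈ LT O (W.s L) (C ∪ C') (fun c => if c ∈ C then B c else 0) ⊔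
      sh (W.s L) ((e : ℤ) + 1) (X.R L W a'))
    (hfar : ∀ l ≤ p.length, ∀ c ∈ C ∪ C',
      ¬ X.G.edist c (p.getVert l) ≤ (((if c ∈ C then B c else 0) + l : ℕ) : ℕ∞)) :
    ∀ l, l ≤ p.length → l ≤ e + 1 →
      (p.getVert l ∈ X.S a' ∪ X.K a' ∧
        ee L (p.getVert l) ∈ LT O (W.s L) (C ∪ C') (fun c => (if c ∈ C then B c else 0) + l) ⊔
          sh (W.s L) ((e : ℤ) + 1 - l) (X.R L W a')) ∧
      (l ≤ e → p.getVert l ∈ X.S a') := by
  have hK : ∀ l, l ≤ p.length → l ≤ e → p.getVert l ∈ X.S a' ∪ X.K a' →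
      ee L (p.getVert l) ∈ LT O (W.s L) (C ∪ C') (fun c => (if c ∈ C then B c else 0) + l) ⊔
          sh (W.s L) ((e : ℤ) + 1 - l) (X.R L W a') → p.getVert l ∈ X.S a' := by
    intro l hl hle h1 h2
    rcases mem_union.1 h1 with h | h
    · exact h
    · exfalso
      refine ee_not_mem L X.G W (X.disj a') (X.nb a') h (C ∪ C')
        (fun c => (if c ∈ C then B c else 0) + l) (e - l) (fun c hc => hfar l hl c hc) ?_
      have h3 : ((e - l : ℕ) : ℤ) + 1 = (e : ℤ) + 1 - l := by omega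
      rw [h3]
      exact h2
  intro l
  induction l with
  | zero =>
    intro hl hle
    have h1 : p.getVert 0 ∈ X.S a' ∪ X.K a' := by simpa using ho
    have h2 : ee L (p.getVert 0) ∈
        LT O (W.s L) (C ∪ C') (fun c => (if c ∈ C then B c else 0) + 0) ⊔
          sh (W.s L) ((e : ℤ) + 1 - (0 : ℕ)) (X.R L W a') := by
      simpa using h0
    exact ⟨⟨h1, h2⟩, fun h => hK 0 hl h h1 h2⟩
  | succ l ih =>
    intro hl hle
    obtain ⟨⟨h1, h2⟩, h3⟩ := ih (by omega) (by omega)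
    have hS : p.getVert l ∈ X.S a' := h3 (by omega)
    have hadj : X.G.Adj (p.getVert l) (p.getVert (l + 1)) := p.adj_getVert_succ (by omega)
    have h4 : p.getVert (l + 1) ∈ X.S a' ∪ X.K a' := X.nb a' _ hS _ hadj
    have h5 := step_mem L X.G W (X.disj a') (X.nb a') hS hadj (C ∪ C')
        (fun c => (if c ∈ C then B c else 0) + l) (e - l)
        (fun c hc => hfar l (by omega) c hc) (by
          have h3 : ((e - l : ℕ) : ℤ) + 1 = (e : ℤ) + 1 - l := by omega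
          rw [h3]
          exact h2)
    have h6 : ((e - l : ℕ) : ℤ) = (e : ℤ) + 1 - ((l + 1 : ℕ) : ℤ) := by omega
    rw [h6] at h5
    exact ⟨⟨h4, h5⟩, fun h => hK (l + 1) hl h h4 h5⟩

theorem open_conv {a a' b' n e r : ℕ} (haa : a ≤ a') (hn : a' ≤ n) (hnb : n < b') (he : e ≤ r)
    (C C' : Finset V) (ε B : V → ℕ) (hC : C ⊆ X.S a ∪ X.K a) (hC' : C' ⊆ X.K a)
    (hdisj : Disjoint C C')
    (H1 : US O L C ⊓ X.R L W b' ≤ LT O (W.s L) C B)
    (H2 : ∀ c ∈ C, near X.G (X.K b') c (ε c)) (H3 : ∀ c ∈ C, B c + ε c ≤ e)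
    (F1 : ∀ o ∈ X.K a, ee L o ∈ LT O (W.s L) C' (fun _ => 0) ⊔ US O L C ⊔
      sh (W.s L) ((e : ℤ) + 1) (X.R L W a'))
    (F2 : US O L C' ⊓ (US O L C ⊔ X.R L W b') ≤ LT O (W.s L) C' (fun _ => e))
    {q : V} {i : ℕ} (hi : i ≤ r) (hd : X.Dies n q i)
    (h : X.Open a e q i) :
    X.Open a' (2 * e + 1) q i ∨ X.Closed L W r a' (2 * e + 1) (C ∪ C') q i := by
  classical
  have hs : W.s L ≠ 0 := WData.s_ne_zero L W
  have hϖ : algebraMap O L W.ϖ = W.s L := rfl
  obtain ⟨o, hoK, ho⟩ := h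
  have ho1 : X.G.edist q o ≠ ⊤ := by
    intro h
    rw [h, top_add] at ho
    exact ENat.natCast_ne_top i (top_le_iff.1 ho)
  obtain ⟨p0, hp0⟩ := SimpleGraph.exists_walk_of_edist_ne_top ho1
  set p : X.G.Walk o q := p0.reverse with hp
  have hlen : p.length + e ≤ i := by
    rw [hp, SimpleGraph.Walk.length_reverse]
    rw [← hp0] at ho
    exact_mod_cast ho
  -- distances along the walk
  have hdist : ∀ l, l ≤ p.length → X.G.edist q (p.getVert l) ≤ ((p.length - l : ℕ) : ℕ∞) := by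
    intro l hl
    rw [SimpleGraph.edist_comm]
    refine (p.drop l).edist_le.trans ?_
    rw [SimpleGraph.Walk.drop_length]
  -- the ball is dead at b'
  have hqn : q ∈ X.S (n + 1) ∪ X.K (n + 1) := X.SK_mono (Nat.le_succ n) hd.1
  have hdead : ¬ near X.G (X.K b') q i := fun h =>
    hd.2.2 (X.near_anti L W (by omega : n + 1 ≤ b') hqn h)
  have hfar : ∀ l ≤ p.length, ∀ c ∈ C ∪ C',
      ¬ X.G.edist c (p.getVert l) ≤ (((if c ∈ C then B c else 0) + l : ℕ) : ℕ∞) := by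
    intro l hl c hc hle
    by_cases hcC : c ∈ C
    · rw [if_pos hcC] at hle
      obtain ⟨k, hk, hk'⟩ := H2 c hcC
      apply hdead
      refine ⟨k, hk, ?_⟩
      have h1 := H3 c hcC
      rw [SimpleGraph.edist_comm] at hle
      have h2 := edist_le_trans (hdist l hl) hle le_rfl
      exact edist_le_trans h2 hk' (by omega)
    · have hcC' : c ∈ C' := (mem_union.1 hc).resolve_left hcC
      rw [if_neg hcC] at hle
      obtain ⟨k, hk, hk'⟩ := near_of_F2 L X W (by omega : a ≤ b') C C' hC' F2 hcC'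
      apply hdead
      refine ⟨k, hk, ?_⟩
      rw [SimpleGraph.edist_comm] at hle
      have h2 := edist_le_trans (hdist l hl) hle le_rfl
      exact edist_le_trans h2 hk' (by omega)
  have hoS : o ∈ X.S a' ∪ X.K a' := X.SK_mono haa (mem_union_right _ hoK)
  -- the starting vector
  have h0 : ee L o ∈ LT O (W.s L) (C ∪ C') (fun c => if c ∈ C then B c else 0) ⊔
      sh (W.s L) ((e : ℤ) + 1) (X.R L W a') := by
    obtain ⟨y, hy, v, hv, hyv⟩ := Submodule.mem_sup.1 (F1 o hoK)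
    obtain ⟨u', hu', u, hu, huy⟩ := Submodule.mem_sup.1 hy
    have hvR : v ∈ X.R L W a' := by
      have h1 : sh (W.s L) ((e : ℤ) + 1) (X.R L W a') ≤ sh (W.s L) 0 (X.R L W a') :=
        sh_le_sh hs hϖ (by omega) _
      rw [sh_zero] at h1
      exact h1 hv
    have hu'R : u' ∈ X.R L W a' := by
      refine LT_zero_le L W hs (C := C') (fun c hc => ?_) hu'
      exact ee_mem_R L X W haa (mem_union_right _ (hC' hc))
    have huR : u ∈ X.R L W a' := by
      have h1 : u = ee L o - u' - v := by rw [← hyv, ← huy]; abel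
      rw [h1]
      exact Submodule.sub_mem _ (Submodule.sub_mem _
        (ee_mem_R L X W haa (mem_union_right _ hoK)) hu'R) hvR
    have huB : u ∈ LT O (W.s L) C B := H1 ⟨hu, X.R_mono L W (by omega : a' ≤ b') huR⟩
    rw [← hyv, ← huy]
    refine Submodule.add_mem _ (Submodule.mem_sup_left (Submodule.add_mem _ ?_ ?_))
      (Submodule.mem_sup_right hv)
    · exact LT_mono hs hϖ subset_union_right (fun c _ => Nat.zero_le _) hu'
    · exact LT_mono hs hϖ subset_union_left (fun c hc => by simp [hc]) huB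
  have hmain := walk_mem L X W C C' B p hoS h0 hfar
  have hsub : ((2 * r + 1 - (2 * e + 1) : ℕ) : ℤ) = 2 * r - 2 * e := by omega
  by_cases hlee : p.length ≤ e + 1
  · right
    obtain ⟨⟨h1, h2⟩, -⟩ := hmain p.length le_rfl hlee
    rw [SimpleGraph.Walk.getVert_length] at h1 h2
    refine ⟨h1, ?_⟩
    have h3 : sh (W.s L) ((e : ℤ) + 1 - (p.length : ℕ)) (X.R L W a') ≤
        sh (W.s L) ((i : ℤ) + 1 - ((2 * r + 1 - (2 * e + 1) : ℕ) : ℤ)) (X.R L W a') := by
      refine sh_le_sh hs hϖ ?_ _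
      rw [hsub]
      omega
    exact (sup_le_sup (LT_le_US _ _ _) h3 : _ ≤ US O L (C ∪ C') ⊔ _) h2
  · by_cases hqS : q ∈ X.S a' ∪ X.K a'
    · right
      refine ⟨hqS, Submodule.mem_sup_right ?_⟩
      have h1 : sh (W.s L) 0 (X.R L W a') ≤
          sh (W.s L) ((i : ℤ) + 1 - ((2 * r + 1 - (2 * e + 1) : ℕ) : ℤ)) (X.R L W a') :=
        sh_le_sh hs hϖ (by rw [hsub]; omega) _
      rw [sh_zero] at h1
      exact h1 (ee_mem_R L X W le_rfl hqS)
    · left
      -- the least index outside `S a'`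
      have hex : ∃ l, p.getVert l ∉ X.S a' := by
        refine ⟨p.length, ?_⟩
        rw [SimpleGraph.Walk.getVert_length]
        exact fun h => hqS (mem_union_left _ h)
      obtain ⟨l, hl1, hl2⟩ : ∃ l, p.getVert l ∉ X.S a' ∧ ∀ l' < l, p.getVert l' ∈ X.S a' :=
        ⟨Nat.find hex, Nat.find_spec hex, fun l' hl' => not_not.1 (Nat.find_min hex hl')⟩
      have hle : l ≤ p.length := by
        by_contra hcon
        have := hl2 p.length (by omega)
        rw [SimpleGraph.Walk.getVert_length] at this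
        exact hqS (mem_union_left _ this)
      have hle2 : e + 1 ≤ l := by
        by_contra hcon
        exact hl1 ((hmain l hle (by omega)).2 (by omega))
      have hK : p.getVert l ∈ X.K a' := by
        obtain ⟨l', rfl⟩ : ∃ l', l = l' + 1 := ⟨l - 1, by omega⟩
        have h1 := hl2 l' (by omega)
        have h2 := X.nb a' _ h1 _ (p.adj_getVert_succ (by omega : l' < p.length))
        exact (mem_union.1 h2).resolve_left hl1
      refine ⟨p.getVert l, hK, ?_⟩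
      refine (add_le_add_left (hdist l hle) _).trans ?_
      have : p.length - l + (2 * e + 1) ≤ i := by omega
      exact_mod_cast this

theorem conv {a a' b' n e r : ℕ} (haa : a ≤ a') (hn : a' ≤ n) (hnb : n < b') (he : e ≤ r)
    (C C' : Finset V) (ε B : V → ℕ) (hC : C ⊆ X.S a ∪ X.K a) (hC' : C' ⊆ X.K a)
    (hdisj : Disjoint C C')
    (H1 : US O L C ⊓ X.R L W b' ≤ LT O (W.s L) C B)
    (H2 : ∀ c ∈ C, near X.G (X.K b') c (ε c)) (H3 : ∀ c ∈ C, B c + ε c ≤ e)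
    (F1 : ∀ o ∈ X.K a, ee L o ∈ LT O (W.s L) C' (fun _ => 0) ⊔ US O L C ⊔
      sh (W.s L) ((e : ℤ) + 1) (X.R L W a'))
    (F2 : US O L C' ⊓ (US O L C ⊔ X.R L W b') ≤ LT O (W.s L) C' (fun _ => e))
    {q : V} {i : ℕ} (hi : i ≤ r) (hd : X.Dies n q i)
    (h : X.Open a e q i ∨ X.Closed L W r a e C q i) :
    X.Open a' (2 * e + 1) q i ∨ X.Closed L W r a' (2 * e + 1) (C ∪ C') q i := by
  rcases h with h | h
  · exact open_conv L X W haa hn hnb he C C' ε B hC hC' hdisj H1 H2 H3 F1 F2 hi hd h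
  · exact Or.inr (closed_conv L X W haa he C C' F1 h)

/-- The hypotheses H1, H2, H3 pass to the enlarged kept set. -/
theorem hyps_union {a a' b' e : ℕ} (haa : a ≤ a') (hab : a' ≤ b')
    (C C' : Finset V) (ε B : V → ℕ) (hC : C ⊆ X.S a ∪ X.K a) (hC' : C' ⊆ X.K a)
    (hdisj : Disjoint C C')
    (H1 : US O L C ⊓ X.R L W b' ≤ LT O (W.s L) C B)
    (H2 : ∀ c ∈ C, near X.G (X.K b') c (ε c)) (H3 : ∀ c ∈ C, B c + ε c ≤ e)
    (F2 : US O L C' ⊓ (US O L C ⊔ X.R L W b') ≤ LT O (W.s L) C' (fun _ => e)) :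
    ∃ ε' B' : V → ℕ, C ∪ C' ⊆ X.S a' ∪ X.K a' ∧
      US O L (C ∪ C') ⊓ X.R L W b' ≤ LT O (W.s L) (C ∪ C') B' ∧
      (∀ c ∈ C ∪ C', near X.G (X.K b') c (ε' c)) ∧
      (∀ c ∈ C ∪ C', B' c + ε' c ≤ 2 * e + 1) := by
  classical
  have hs : W.s L ≠ 0 := WData.s_ne_zero L W
  refine ⟨fun c => if c ∈ C then ε c else e, fun c => if c ∈ C then B c + e else e, ?_, ?_, ?_, ?_⟩
  · intro c hc
    rcases mem_union.1 hc with h | h
    · exact X.SK_mono haa (hC h)
    · exact X.SK_mono haa (mem_union_right _ (hC' h))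
  · rintro v ⟨hv1, hv2⟩
    set u : V → L := fun q => if q ∈ C then v q else 0 with hu
    set u' : V → L := fun q => if q ∈ C then 0 else v q with hu'
    have huv : u + u' = v := by
      funext q
      simp only [Pi.add_apply, hu, hu']
      split_ifs <;> simp
    have hu1 : u ∈ US O L C := by
      intro q hq
      simp [hu, hq]
    have hu'1 : u' ∈ US O L C' := by
      intro q hq
      simp only [hu']
      split_ifs with h
      · rfl
      · exact hv1 q (by simp [h, hq])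
    have hu'2 : u' ∈ US O L C ⊔ X.R L W b' := by
      refine Submodule.mem_sup.2 ⟨-u, Submodule.neg_mem _ hu1, v, hv2, ?_⟩
      rw [← huv]; abel
    have h3 := F2 ⟨hu'1, hu'2⟩
    have h4 : (W.s L) ^ e • u' ∈ X.R L W b' := by
      apply LT_zero_le L W hs (C := C')
      · intro c hc
        exact ee_mem_R L X W (haa.trans hab) (mem_union_right _ (hC' hc))
      · refine ⟨fun q hq => ?_, fun q hq => ?_⟩
        · rw [Pi.smul_apply, h3.1 q hq, smul_zero]
        · obtain ⟨x, hx⟩ := h3.2 q hq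
          exact ⟨x, by simpa using hx⟩
    have h5 : (W.s L) ^ e • u ∈ US O L C ⊓ X.R L W b' := by
      refine ⟨?_, ?_⟩
      · intro q hq
        rw [Pi.smul_apply, hu1 q hq, smul_zero]
      · have h6 : (W.s L) ^ e • u = (W.s L) ^ e • v - (W.s L) ^ e • u' := by
          rw [← huv, smul_add]; abel
        rw [h6]
        exact Submodule.sub_mem _ (pow_smul_mem L W e hv2) h4
    have h7 := H1 h5
    refine ⟨fun q hq => hv1 q hq, fun q hq => ?_⟩
    by_cases hqC : q ∈ C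
    · obtain ⟨x, hx⟩ := h7.2 q hqC
      refine ⟨x, ?_⟩
      rw [hx]
      simp only [Pi.smul_apply, smul_eq_mul, hu, hqC, if_true]
      rw [pow_add]; ring
    · have hqC' : q ∈ C' := (mem_union.1 hq).resolve_left hqC
      obtain ⟨x, hx⟩ := h3.2 q hqC'
      refine ⟨x, ?_⟩
      rw [hx]
      simp only [hu', hqC, if_false]
  · intro c hc
    by_cases hcC : c ∈ C
    · simpa [hcC] using H2 c hcC
    · have hcC' : c ∈ C' := (mem_union.1 hc).resolve_left hcC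
      simpa [hcC] using near_of_F2 L X W (haa.trans hab) C C' hC' F2 hcC'
  · intro c hc
    by_cases hcC : c ∈ C
    · have := H3 c hcC
      simp only [hcC, if_true]
      omega
    · simp only [hcC, if_false]
      omega

end SubPow
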