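import Pool.Agent.Helper15.Sub.ClaimM
import Pool.Agent.Helper15.Sub.ClaimS
import Pool.Agent.Helper15.Sub.ClaimV
import Pool.Agent.Helper15.Sub.ClaimL

/-!
Block CA: the counting claim, by strong induction on `2 * r + 2 - e`.

`r < e`: `claim_base`. `e ≤ r`: put `D = X.D L W a e`, `Q n = D ⊓ (US C ⊔ R n)`,
`T n = Q n ⊔ sh 1 D`, `m n = rl (T n) D`; `Q`, `T` are monotone, `m` is antitone,
`rl (Q a) D ≤ w (e+1)` and `m a ≤ w` (`rl_D_le`, `rl_T_le`). Show by strong induction on
`μ = m a'` that for `a ≤ a' ≤ b`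
`|Y ∩ [a', b)| ≤ rl (US C ⊓ R a') (US C ⊓ R b) + rl (Q a') D + ∑ l ∈ range (μ+1), AA r (w-l) (2e+1)`.
Let `b'` be the largest index in `[a', b]` with `m b' = μ` (`m = μ` on `[a', b']`). `select` gives
`C'`; `hyps_union`, `conv` and the claim at level `2e+1` (with `C ∪ C'`, `w - μ`, `a'`, `b'`) give
`|Y ∩ [a', b')| ≤ rl (US (C ∪ C') ⊓ R a') (US (C ∪ C') ⊓ R b') + AA r (w-μ) (2e+1)`, and the
first term is at most `rl (US C ⊓ R a') (US C ⊓ R b') + rl (Q a') (Q b')` (`rl_union_le`).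
If `b' = b`, done. If `b' < b`, put `a'' = b' + 1`: `m a'' < μ`, so `Q b' < Q a''` and the index
`b'` costs `1 ≤ rl (Q b') (Q a'')`; apply the induction hypothesis to `a''` and `rl_trans`.
At `a' = a`: `w (e+1) + ∑ l ∈ range (w+1), AA r (w-l) (2e+1) = AA r w e` (`AA_step`,
`Finset.sum_range_reflect`).
-/

namespace SubPow

open Finset

variable {O V : Type*} [CommRing O] [IsDomain O] [IsDiscreteValuationRing O]
  (L : Type*) [Field L] [Algebra O L] [IsFractionRing O L] [Fintype V] [DecidableEq V]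
  {t : ℕ} (X : Sit V t) (W : WData V O)

theorem claim (r : ℕ) : ∀ (e a b w : ℕ), a ≤ b → ∀ (C : Finset V) (ε B : V → ℕ),
    C ⊆ X.S a ∪ X.K a → C.card + w = t →
    US O L C ⊓ X.R L W b ≤ LT O (W.s L) C B →
    (∀ c ∈ C, near X.G (X.K b) c (ε c)) → (∀ c ∈ C, B c + ε c ≤ e) →
    ∀ (Y : Finset ℕ), (∀ n ∈ Y, a ≤ n ∧ n < b ∧ ∃ q i, i ≤ r ∧ X.Dies n q i ∧
      (X.Open a e q i ∨ X.Closed L W r a e C q i)) →
    (Y.card : ℕ∞) ≤ rl (US O L C ⊓ X.R L W a) (US O L C ⊓ X.R L W b) + (AA r w e : ℕ) := by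
  have hs : W.s L ≠ 0 := WData.s_ne_zero L W
  have hϖ : algebraMap O L W.ϖ = W.s L := rfl
  suffices H : ∀ (N e : ℕ), 2 * r + 2 - e ≤ N → ∀ (a b w : ℕ), a ≤ b →
      ∀ (C : Finset V) (ε B : V → ℕ),
      C ⊆ X.S a ∪ X.K a → C.card + w = t →
      US O L C ⊓ X.R L W b ≤ LT O (W.s L) C B →
      (∀ c ∈ C, near X.G (X.K b) c (ε c)) → (∀ c ∈ C, B c + ε c ≤ e) →
      ∀ (Y : Finset ℕ), (∀ n ∈ Y, a ≤ n ∧ n < b ∧ ∃ q i, i ≤ r ∧ X.Dies n q i ∧
        (X.Open a e q i ∨ X.Closed L W r a e C q i)) →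
      (Y.card : ℕ∞) ≤ rl (US O L C ⊓ X.R L W a) (US O L C ⊓ X.R L W b) + (AA r w e : ℕ) from
    fun e => H (2 * r + 2 - e) e le_rfl
  intro N
  induction N with
  | zero =>
    intro e hN a b w hab C ε B hC hw H1 H2 H3 Y hY
    exact claim_base L X W (by omega : r < e) hab C hC hw B H1 Y hY
  | succ N IH =>
  intro e hN a b w hab C ε B hC hw H1 H2 H3 Y hY
  rcases Nat.lt_or_ge r e with her | her
  · exact claim_base L X W her hab C hC hw B H1 Y hY
  -- the main case
  set D := X.D L W a e with hD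
  set R := X.R L W with hR
  have hRm : Monotone R := X.R_mono L W
  set Q : ℕ → Submodule O (V → L) := fun n => D ⊓ (US O L C ⊔ R n) with hQ
  set T : ℕ → Submodule O (V → L) := fun n => Q n ⊔ sh (W.s L) 1 D with hT
  have hQm : Monotone Q := fun m n h => inf_le_inf_left _ (sup_le_sup_left (hRm h) _)
  have hTm : Monotone T := fun m n h => sup_le_sup_right (hQm h) _
  have hsD : sh (W.s L) 1 D ≤ D := by
    have h1 : sh (W.s L) 1 D ≤ sh (W.s L) 0 D := sh_le_sh hs hϖ (by omega) _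
    rwa [sh_zero] at h1
  have hQD : ∀ n, Q n ≤ D := fun n => inf_le_left
  have hTD : ∀ n, T n ≤ D := fun n => sup_le (hQD n) hsD
  have H1a : US O L C ⊓ X.R L W a ≤ LT O (W.s L) C B :=
    (inf_le_inf_left _ (hRm hab)).trans H1
  have hQa : rl (Q a) D ≤ (w * (e + 1) : ℕ) := rl_D_le L X W a e C hC hw B H1a
  have hTa : rl (T a) D ≤ (w : ℕ∞) := rl_T_le L X W a e C hC hw B H1a
  -- the inner induction
  have key : ∀ (μ : ℕ), μ ≤ w → ∀ a', a ≤ a' → a' ≤ b → rl (T a') D = (μ : ℕ∞) →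
      (((Y.filter (fun n => a' ≤ n)).card : ℕ) : ℕ∞) ≤
        rl (US O L C ⊓ R a') (US O L C ⊓ R b) + rl (Q a') D +
          ((∑ l ∈ range (μ + 1), AA r (w - l) (2 * e + 1) : ℕ) : ℕ∞) := by
    intro μ
    induction μ using Nat.strong_induction_on with
    | _ μ ih =>
    intro hμw a' haa' ha'b hμ
    -- the largest index `b'` with the same value
    obtain ⟨b', hb'1, hb'2, hb'3, hb'4⟩ : ∃ b', a' ≤ b' ∧ b' ≤ b ∧ rl (T b') D = (μ : ℕ∞) ∧
        ∀ n, b' < n → n ≤ b → rl (T n) D ≠ (μ : ℕ∞) := by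
      classical
      let P : ℕ → Prop := fun n => a' ≤ n ∧ rl (T n) D = (μ : ℕ∞)
      have hP : P a' := ⟨le_rfl, hμ⟩
      refine ⟨Nat.findGreatest P b, ?_, Nat.findGreatest_le b, ?_, ?_⟩
      · exact (Nat.findGreatest_spec (P := P) ha'b hP).1
      · exact (Nat.findGreatest_spec (P := P) ha'b hP).2
      · intro n hn hnb h
        have h1 : a' ≤ n := (Nat.findGreatest_spec (P := P) ha'b hP).1.trans hn.le
        exact Nat.findGreatest_is_greatest (P := P) hn hnb ⟨h1, h⟩
    obtain ⟨C', hC'K, hdisj, hcard, F1, F2⟩ := select L W (K := X.K a) (C := C) e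
      (hRm hb'1) hμ hb'3
    have H1' : US O L C ⊓ X.R L W b' ≤ LT O (W.s L) C B :=
      (inf_le_inf_left _ (hRm hb'2)).trans H1
    have H2' : ∀ c ∈ C, near X.G (X.K b') c (ε c) := fun c hc =>
      X.near_anti L W hb'2 (X.SK_mono (haa'.trans hb'1) (hC hc)) (H2 c hc)
    obtain ⟨ε', B', G1, G2, G3, G4⟩ := hyps_union L X W haa' hb'1 C C' ε B hC hC'K hdisj H1' H2'
      H3 F2
    have hcardU : (C ∪ C').card = C.card + μ := by
      rw [card_union_of_disjoint hdisj, hcard]
    have hIH := IH (2 * e + 1) (by omega) a' b' (w - μ) hb'1 (C ∪ C') ε' B' G1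
      (by rw [hcardU]; omega) G2 G3 G4 (Y.filter (fun n => a' ≤ n ∧ n < b')) (by
        intro n hn
        rw [mem_filter] at hn
        obtain ⟨-, -, q, i, hi, hd, ho⟩ := hY n hn.1
        exact ⟨hn.2.1, hn.2.2, q, i, hi, hd, conv L X W haa' hn.2.1 hn.2.2 her C C' ε B hC hC'K
          hdisj H1' H2' H3 F1 F2 hi hd ho⟩)
    have hlen := rl_union_le L (W.s L) hs hϖ (K := X.K a) (C := C) (C' := C') e (hRm hb'1) hC'K F2
    have hIH' : (((Y.filter (fun n => a' ≤ n ∧ n < b')).card : ℕ) : ℕ∞) ≤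
        rl (US O L C ⊓ R a') (US O L C ⊓ R b') + rl (Q a') (Q b') +
          ((AA r (w - μ) (2 * e + 1) : ℕ) : ℕ∞) :=
      hIH.trans (add_le_add_left hlen _)
    rcases Nat.lt_or_ge b' b with hbb | hbb
    · -- an event at `b'`
      have hlt : rl (T (b' + 1)) D ≤ rl (T b') D := by
        rw [rl_trans (hTm (Nat.le_succ b')) (hTD (b' + 1))]
        exact le_add_self
      rw [hb'3] at hlt
      obtain ⟨μ', hμ'⟩ : ∃ μ' : ℕ, rl (T (b' + 1)) D = (μ' : ℕ∞) :=
        ⟨_, (ENat.natCast_toNat (ne_top_of_le_ne_top (ENat.natCast_ne_top μ) hlt)).symm⟩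
      have hμ'lt : μ' < μ := by
        have h1 := hb'4 (b' + 1) (by omega) (by omega)
        rw [hμ'] at hlt h1
        have h2 : μ' ≤ μ := by exact_mod_cast hlt
        rcases Nat.lt_or_ge μ' μ with h | h
        · exact h
        · exact absurd (by rw [Nat.le_antisymm h2 h]) h1
      have hQlt : 1 ≤ rl (Q b') (Q (b' + 1)) := by
        apply one_le_rl
        refine lt_of_le_of_ne (hQm (Nat.le_succ b')) ?_
        intro h
        have h1 : T b' = T (b' + 1) := by simp only [hT, h]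
        have h2 := hb'3
        rw [h1] at h2
        exact hb'4 (b' + 1) (by omega) (by omega) h2
      have h3 := ih μ' hμ'lt (by omega) (b' + 1) (by omega) (by omega) hμ'
      have hsplit : (Y.filter (fun n => a' ≤ n)).card ≤
          (Y.filter (fun n => a' ≤ n ∧ n < b')).card + 1 +
          (Y.filter (fun n => b' + 1 ≤ n)).card := by
        have h4 : Y.filter (fun n => a' ≤ n) ⊆
            (Y.filter (fun n => a' ≤ n ∧ n < b') ∪ {b'}) ∪ Y.filter (fun n => b' + 1 ≤ n) := by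
          intro n hn
          simp only [mem_filter, mem_union, mem_singleton] at hn ⊢
          rcases lt_trichotomy n b' with h | h | h
          · exact Or.inl (Or.inl ⟨hn.1, hn.2, h⟩)
          · exact Or.inl (Or.inr h)
          · exact Or.inr ⟨hn.1, h⟩
        refine (card_le_card h4).trans ((card_union_le _ _).trans ?_)
        refine Nat.add_le_add_right ((card_union_le _ _).trans ?_) _
        simp
      have e1 : rl (US O L C ⊓ R a') (US O L C ⊓ R b) =
          rl (US O L C ⊓ R a') (US O L C ⊓ R b') +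
          (rl (US O L C ⊓ R b') (US O L C ⊓ R (b' + 1)) +
            rl (US O L C ⊓ R (b' + 1)) (US O L C ⊓ R b)) := by
        rw [← rl_trans (inf_le_inf_left _ (hRm (Nat.le_succ b')))
          (inf_le_inf_left _ (hRm (by omega : b' + 1 ≤ b))),
          ← rl_trans (inf_le_inf_left _ (hRm hb'1)) (inf_le_inf_left _ (hRm hb'2))]
      have e2 : rl (Q a') D = rl (Q a') (Q b') + (rl (Q b') (Q (b' + 1)) + rl (Q (b' + 1)) D) := by
        rw [← rl_trans (hQm (Nat.le_succ b')) (hQD (b' + 1)), ← rl_trans (hQm hb'1) (hQD b')]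
      have e3 : (∑ l ∈ range (μ' + 1), AA r (w - l) (2 * e + 1)) + AA r (w - μ) (2 * e + 1) ≤
          ∑ l ∈ range (μ + 1), AA r (w - l) (2 * e + 1) := by
        rw [sum_range_succ _ μ]
        refine Nat.add_le_add_right ?_ _
        apply sum_le_sum_of_subset
        intro x hx
        rw [mem_range] at hx ⊢
        omega
      calc (((Y.filter (fun n => a' ≤ n)).card : ℕ) : ℕ∞)
          ≤ (((Y.filter (fun n => a' ≤ n ∧ n < b')).card + 1 +
            (Y.filter (fun n => b' + 1 ≤ n)).card : ℕ) : ℕ∞) := by exact_mod_cast hsplit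
        _ = (((Y.filter (fun n => a' ≤ n ∧ n < b')).card : ℕ) : ℕ∞) + 1 +
            (((Y.filter (fun n => b' + 1 ≤ n)).card : ℕ) : ℕ∞) := by push_cast; rfl
        _ ≤ (rl (US O L C ⊓ R a') (US O L C ⊓ R b') + rl (Q a') (Q b') +
              ((AA r (w - μ) (2 * e + 1) : ℕ) : ℕ∞)) + rl (Q b') (Q (b' + 1)) +
            (rl (US O L C ⊓ R (b' + 1)) (US O L C ⊓ R b) + rl (Q (b' + 1)) D +
              ((∑ l ∈ range (μ' + 1), AA r (w - l) (2 * e + 1) : ℕ) : ℕ∞)) :=
            add_le_add (add_le_add hIH' hQlt) h3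
        _ = rl (US O L C ⊓ R a') (US O L C ⊓ R b') +
              rl (US O L C ⊓ R (b' + 1)) (US O L C ⊓ R b) +
            (rl (Q a') (Q b') + (rl (Q b') (Q (b' + 1)) + rl (Q (b' + 1)) D)) +
            (((∑ l ∈ range (μ' + 1), AA r (w - l) (2 * e + 1)) +
              AA r (w - μ) (2 * e + 1) : ℕ) : ℕ∞) := by push_cast; ring
        _ ≤ _ := by
            rw [e1, e2]
            refine add_le_add (add_le_add ?_ le_rfl) (by exact_mod_cast e3)
            exact add_le_add le_rfl le_add_self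
    · have hb'b : b' = b := le_antisymm hb'2 hbb
      subst hb'b
      have h4 : Y.filter (fun n => a' ≤ n) = Y.filter (fun n => a' ≤ n ∧ n < b') := by
        apply filter_congr
        intro n hn
        have := (hY n hn).2.1
        simp [this]
      rw [h4]
      refine hIH'.trans ?_
      refine add_le_add (add_le_add le_rfl ?_) ?_
      · rw [rl_trans (hQm hb'1) (hQD b')]
        exact le_self_add
      · have e3 : AA r (w - μ) (2 * e + 1) ≤ ∑ l ∈ range (μ + 1), AA r (w - l) (2 * e + 1) := by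
          rw [sum_range_succ _ μ]
          exact Nat.le_add_left _ _
        exact_mod_cast e3
  obtain ⟨μ, hμ⟩ : ∃ μ : ℕ, rl (T a) D = (μ : ℕ∞) :=
    ⟨_, (ENat.natCast_toNat (ne_top_of_le_ne_top (ENat.natCast_ne_top w) hTa)).symm⟩
  have hμw : μ ≤ w := by
    rw [hμ] at hTa
    exact_mod_cast hTa
  have h1 := key μ hμw a le_rfl hab hμ
  have h2 : Y.filter (fun n => a ≤ n) = Y := by
    rw [filter_eq_self]
    exact fun n hn => (hY n hn).1
  rw [h2] at h1
  refine h1.trans ?_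
  rw [add_assoc]
  refine add_le_add le_rfl ?_
  have h3 : ∑ l ∈ range (μ + 1), AA r (w - l) (2 * e + 1) ≤
      ∑ l ∈ range (w + 1), AA r l (2 * e + 1) := by
    calc ∑ l ∈ range (μ + 1), AA r (w - l) (2 * e + 1)
        ≤ ∑ l ∈ range (w + 1), AA r (w - l) (2 * e + 1) := by
          apply sum_le_sum_of_subset
          intro x hx
          rw [mem_range] at hx ⊢
          omega
      _ = _ := by
          rw [← sum_range_reflect (fun l => AA r l (2 * e + 1)) (w + 1)]
          apply sum_congr rfl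
          intro l hl
          rw [mem_range] at hl
          congr 1
  rw [AA_step w her]
  calc rl (Q a) D + ((∑ l ∈ range (μ + 1), AA r (w - l) (2 * e + 1) : ℕ) : ℕ∞)
      ≤ ((w * (e + 1) : ℕ) : ℕ∞) + ((∑ l ∈ range (w + 1), AA r l (2 * e + 1) : ℕ) : ℕ∞) :=
        add_le_add hQa (by exact_mod_cast h3)
    _ = _ := by push_cast; rfl

end SubPow
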