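import Pool.Agent.Helper15.Sub.LenA

/-!
Block RLB: shifts `sh s k R = s ^ k • R` of submodules, the coordinate modules `US`, `LT`.
All statements are elementary (`v ∈ sh s k R ↔ s ^ (-k) • v ∈ R`).
-/

namespace SubPow

open Finset

section sh

variable {O L E : Type*} [CommRing O] [Field L] [Algebra O L]
  [AddCommGroup E] [Module L E] [Module O E] [IsScalarTower O L E] {s : L}

theorem sh_zero (R : Submodule O E) : sh s 0 R = R := by
  ext v
  simp [mem_sh]

theorem sh_sh (hs : s ≠ 0) (a b : ℤ) (R : Submodule O E) : sh s a (sh s b R) = sh s (a + b) R := by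
  ext v
  rw [mem_sh, mem_sh, mem_sh, smul_smul, ← zpow_add₀ hs]
  rw [show -b + -a = -(a + b) by ring]

theorem sh_mono (k : ℤ) {R R' : Submodule O E} (h : R ≤ R') : sh s k R ≤ sh s k R' :=
  fun _ hv => h hv

theorem sh_inf (k : ℤ) (R R' : Submodule O E) : sh s k (R ⊓ R') = sh s k R ⊓ sh s k R' := by
  ext v
  simp only [mem_sh, Submodule.mem_inf]

theorem mem_sh_zpow (hs : s ≠ 0) (k : ℤ) (R : Submodule O E) (v : E) :
    s ^ k • v ∈ sh s k R ↔ v ∈ R := by
  rw [mem_sh, smul_smul, ← zpow_add₀ hs, neg_add_cancel, zpow_zero, one_smul]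

theorem sh_sup (hs : s ≠ 0) (k : ℤ) (R R' : Submodule O E) :
    sh s k (R ⊔ R') = sh s k R ⊔ sh s k R' := by
  apply le_antisymm
  · intro v hv
    rw [mem_sh] at hv
    obtain ⟨x, hx, y, hy, hxy⟩ := Submodule.mem_sup.mp hv
    refine Submodule.mem_sup.mpr ⟨s ^ k • x, (mem_sh_zpow hs k R x).mpr hx, s ^ k • y,
      (mem_sh_zpow hs k R' y).mpr hy, ?_⟩
    rw [← smul_add, hxy, smul_smul, ← zpow_add₀ hs, add_neg_cancel, zpow_zero, one_smul]
  · exact sup_le (sh_mono k le_sup_left) (sh_mono k le_sup_right)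

theorem sh_le_sh (hs : s ≠ 0) {ϖ : O} (hϖ : algebraMap O L ϖ = s) {a b : ℤ} (hab : a ≤ b)
    (R : Submodule O E) : sh s b R ≤ sh s a R := by
  intro v hv
  rw [mem_sh] at hv ⊢
  obtain ⟨n, hn⟩ := Int.eq_ofNat_of_zero_le (sub_nonneg.mpr hab)
  have h1 : s ^ (-a) • v = (ϖ ^ n) • (s ^ (-b) • v) := by
    rw [← algebraMap_smul L (ϖ ^ n), map_pow, hϖ, smul_smul, ← zpow_natCast, ← zpow_add₀ hs]
    congr 2
    have : (n : ℤ) = b - a := hn.symm
    rw [this]
    ring
  rw [h1]
  exact R.smul_mem _ hv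

theorem rl_sh (hs : s ≠ 0) (k : ℤ) (A B : Submodule O E) :
    rl (sh s k A) (sh s k B) = rl A B := by
  let e : E ≃ₗ[O] E := (LinearEquiv.smulOfNeZero L E (s ^ (-k)) (zpow_ne_zero _ hs)).restrictScalars O
  let f : (sh s k B : Submodule O E) ≃ₗ[O] B := e.ofSubmodule' B
  have hf : ∀ x : (sh s k B : Submodule O E), ((f x : B) : E) = s ^ (-k) • (x : E) := fun x => rfl
  unfold rl
  refine LinearEquiv.length_eq (Submodule.Quotient.equiv _ _ f ?_)
  ext x
  constructor
  · rintro ⟨y, hy, rfl⟩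
    exact hy
  · intro hx
    refine ⟨f.symm x, ?_, f.apply_symm_apply x⟩
    have h2 : ((f (f.symm x) : B) : E) ∈ A := by rw [f.apply_symm_apply]; exact hx
    exact h2

variable {V : Type*}

theorem sh_US (hs : s ≠ 0) (k : ℤ) (C : Finset V) : sh s k (US O L C) = US O L C := by
  ext v
  rw [mem_sh]
  constructor
  · intro h q hq
    have h2 : s ^ (-k) * v q = 0 := h q hq
    exact (mul_eq_zero.mp h2).resolve_left (zpow_ne_zero _ hs)
  · intro h q hq
    have h2 : v q = 0 := h q hq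
    rw [Pi.smul_apply, h2, smul_zero]

theorem sh_LT (hs : s ≠ 0) (k : ℕ) (C : Finset V) (b : V → ℕ) :
    sh s (-(k : ℤ)) (LT O s C b) = LT O s C (fun q => b q + k) := by
  have hk : s ^ (-(-(k : ℤ))) = s ^ k := by rw [neg_neg, zpow_natCast]
  ext v
  rw [mem_sh, hk]
  constructor
  · intro h
    refine ⟨fun q hq => ?_, fun q hq => ?_⟩
    · have h2 : s ^ k * v q = 0 := h.1 q hq
      exact (mul_eq_zero.mp h2).resolve_left (pow_ne_zero _ hs)
    · obtain ⟨x, hx⟩ := h.2 q hq
      refine ⟨x, ?_⟩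
      rw [hx, Pi.smul_apply, smul_eq_mul, pow_add, mul_assoc]
  · intro h
    refine ⟨fun q hq => ?_, fun q hq => ?_⟩
    · have h2 : v q = 0 := h.1 q hq
      rw [Pi.smul_apply, h2, smul_zero]
    · obtain ⟨x, hx⟩ := h.2 q hq
      refine ⟨x, ?_⟩
      rw [hx, Pi.smul_apply, smul_eq_mul, pow_add, mul_assoc]

theorem LT_le_US (s : L) (C : Finset V) (b : V → ℕ) : LT O s C b ≤ US O L C :=
  fun _ hv => hv.1

theorem LT_mono (hs : s ≠ 0) {ϖ : O} (hϖ : algebraMap O L ϖ = s) {C C' : Finset V} (hC : C ⊆ C')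
    {b b' : V → ℕ} (hb : ∀ c ∈ C, b c ≤ b' c) : LT O s C b ≤ LT O s C' b' := by
  intro v hv
  refine ⟨fun q hq => hv.1 q (fun h => hq (hC h)), fun q _ => ?_⟩
  by_cases h : q ∈ C
  · obtain ⟨x, hx⟩ := hv.2 q h
    refine ⟨ϖ ^ (b' q - b q) * x, ?_⟩
    rw [map_mul, map_pow, hϖ, hx, ← mul_assoc, ← pow_add, Nat.sub_add_cancel (hb q h)]
  · exact ⟨0, by rw [hv.1 q h, map_zero, mul_zero]⟩

theorem LT_eq_span [DecidableEq V] (hs : s ≠ 0) (C : Finset V) (b : V → ℕ) :
    LT O s C b = Submodule.span O ((fun q => (s ^ (b q))⁻¹ • ee L q) '' (C : Set V)) := by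
  apply le_antisymm
  · intro v hv
    choose! x hx using hv.2
    have h1 : v = ∑ q ∈ C, x q • ((s ^ (b q))⁻¹ • ee L q) := by
      funext z
      rw [Finset.sum_apply]
      by_cases hz : z ∈ C
      · rw [Finset.sum_eq_single z]
        · have h2 := hx z hz
          have h3 : (x z • ((s ^ (b z))⁻¹ • ee L z)) z = x z • ((s ^ (b z))⁻¹ * (1 : L)) := by
            simp [ee]
          rw [h3, mul_one, Algebra.smul_def, h2, mul_comm (s ^ b z), mul_assoc,
            mul_inv_cancel₀ (pow_ne_zero _ hs), mul_one]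
        · intro q _ hq
          simp [ee, Pi.single_eq_of_ne hq.symm]
        · intro h
          exact absurd hz h
      · rw [hv.1 z hz, Finset.sum_eq_zero]
        intro q hq
        have hzq : z ≠ q := fun h => hz (h ▸ hq)
        simp [ee, Pi.single_eq_of_ne hzq]
    rw [h1]
    exact Submodule.sum_mem _ (fun q hq => Submodule.smul_mem _ _
      (Submodule.subset_span ⟨q, hq, rfl⟩))
  · rw [Submodule.span_le]
    rintro _ ⟨q, hq, rfl⟩
    refine ⟨fun z hz => ?_, fun z _ => ?_⟩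
    · have hzq : z ≠ q := fun h => hz (h ▸ hq)
      simp [ee, Pi.single_eq_of_ne hzq]
    · by_cases h : z = q
      · subst h
        refine ⟨1, ?_⟩
        simp only [Pi.smul_apply, ee, Pi.single_eq_same, smul_eq_mul, mul_one, map_one]
        rw [mul_inv_cancel₀ (pow_ne_zero _ hs)]
      · exact ⟨0, by simp [ee, Pi.single_eq_of_ne h]⟩

theorem US_union [DecidableEq V] (C C' : Finset V) :
    US O L (C ∪ C') = US O L C ⊔ US O L C' := by
  apply le_antisymm
  · intro v hv
    refine Submodule.mem_sup.mpr ⟨fun q => if q ∈ C then v q else 0, fun q hq => if_neg hq,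
      fun q => if q ∈ C then 0 else v q, fun q hq => ?_, ?_⟩
    · by_cases h : q ∈ C
      · exact if_pos h
      · have h2 : v q = 0 := hv q (by simp [h, hq])
        exact (if_neg h).trans h2
    · funext q
      by_cases h : q ∈ C <;> simp [h]
  · refine sup_le (fun v hv q hq => hv q ?_) (fun v hv q hq => hv q ?_)
    · exact fun h => hq (Finset.mem_union_left _ h)
    · exact fun h => hq (Finset.mem_union_right _ h)

end sh

end SubPow
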