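import Pool.Agent.Helper15.Sub.Rel
import Pool.Agent.Helper15.Sub.LenB

/-! Definitions for the counting claim. -/

namespace SubPow

open Finset

variable {O V : Type*} [CommRing O] [DecidableEq V] {t : ℕ}

/-- The relation module at `n`. -/
noncomputable def Sit.R (L : Type*) [Field L] [Algebra O L] (X : Sit V t) (W : WData V O)
    (n : ℕ) : Submodule O (V → L) :=
  RR L X.G W (X.S n) (X.K n)

/-- The ball `(q, i)` is open at level `e` with respect to the index `a`. -/
def Sit.Open (X : Sit V t) (a e : ℕ) (q : V) (i : ℕ) : Prop :=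
  ∃ o ∈ X.K a, X.G.edist q o + (e : ℕ∞) ≤ (i : ℕ∞)

/-- The ball `(q, i)` is closed at level `e` with respect to the index `a` and the set `C`. -/
def Sit.Closed (L : Type*) [Field L] [Algebra O L] (X : Sit V t) (W : WData V O)
    (r a e : ℕ) (C : Finset V) (q : V) (i : ℕ) : Prop :=
  q ∈ X.S a ∪ X.K a ∧
    ee L q ∈ US O L C ⊔ sh (W.s L) ((i : ℤ) + 1 - ((2 * r + 1 - e : ℕ) : ℤ)) (X.R L W a)

/-- The lattice `D = ∑_{o ∈ K_a} s^{-(e+1)} O e_o`. -/
def Sit.D (L : Type*) [Field L] [Algebra O L] (X : Sit V t) (W : WData V O) (a e : ℕ) :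
    Submodule O (V → L) :=
  LT O (W.s L) (X.K a) (fun _ => e + 1)

end SubPow
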