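import Pool.Agent.Helper15.Sub.ClaimW

/-!
Block CM: length and number of generators of `D / (D ⊓ (U ⊔ R))`.

Put `R = R a`, `U = US C`, `D = X.D L W a e = LT (K a) (e+1)`, `Q = D ⊓ (U ⊔ R)`. Note
`e_o ∈ R` for `o ∈ K a` (`ee_mem_RR`), so `D = sh (-(e+1)) (LT (K a) 0) ≤ sh (-(e+1)) R`.

* `rl_D_le`: `rl Q D = rl (U ⊔ R) (D ⊔ (U ⊔ R)) ≤ rl (R ⊔ U) (sh (-(e+1)) R ⊔ U) ≤ w (e+1)`.
* `rl_T_le`: `rl Q D` is finite. Write `sD` for `sh 1 D ≤ D`.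
  `rl Q D = rl Q (Q ⊔ sD) + rl (Q ⊔ sD) D`, and `rl Q (Q ⊔ sD) = rl (Q ⊓ sD) sD
  = rl (sh (-1) Q ⊓ D) D` (apply `rl_sh (-1)`). On the other hand
  `rl Q D = rl Q (sh (-1) Q ⊓ D) + rl (sh (-1) Q ⊓ D) D`. So
  `rl (Q ⊔ sD) D = rl Q (sh (-1) Q ⊓ D) ≤ rl (D ⊓ (U ⊔ R)) (D ⊓ (U ⊔ sh (-1) R))
  ≤ rl (U ⊔ R) (U ⊔ sh (-1) R) ≤ w` by `rl_inf_le` and `rl_sup_US_le` with `g = 1`.
-/

namespace SubPow

open Finset

variable {O V : Type*} [CommRing O] [IsDomain O] [IsDiscreteValuationRing O]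
  (L : Type*) [Field L] [Algebra O L] [IsFractionRing O L] [Fintype V] [DecidableEq V]
  {t : ℕ} (X : Sit V t) (W : WData V O)

theorem Sit.D_le (a e : ℕ) :
    X.D L W a e ≤ sh (W.s L) (-((e + 1 : ℕ) : ℤ)) (X.R L W a) := by
  have hs : W.s L ≠ 0 := WData.s_ne_zero L W
  have h0 : LT O (W.s L) (X.K a) (fun _ => 0) ≤ X.R L W a := by
    rw [LT_eq_span hs, Submodule.span_le]
    rintro _ ⟨q, hq, rfl⟩
    simp only [pow_zero, inv_one, one_smul, SetLike.mem_coe]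
    exact ee_mem_RR L X.G W (X.nb a) (Finset.mem_union_right _ hq)
  have h1 : X.D L W a e = sh (W.s L) (-((e + 1 : ℕ) : ℤ)) (LT O (W.s L) (X.K a) (fun _ => 0)) := by
    rw [sh_LT hs]
    simp [Sit.D]
  rw [h1]
  exact sh_mono _ h0

theorem rl_D_le (a e : ℕ) (C : Finset V) (hC : C ⊆ X.S a ∪ X.K a) {w : ℕ}
    (hw : C.card + w = t) (B : V → ℕ)
    (H1 : US O L C ⊓ X.R L W a ≤ LT O (W.s L) C B) :
    rl (X.D L W a e ⊓ (US O L C ⊔ X.R L W a)) (X.D L W a e) ≤ (w * (e + 1) : ℕ) := by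
  have hs : W.s L ≠ 0 := WData.s_ne_zero L W
  have hϖ : algebraMap O L W.ϖ = W.s L := rfl
  rw [inf_comm, ← rl_sup_right]
  have h1 : X.R L W a ≤ sh (W.s L) (-((e + 1 : ℕ) : ℤ)) (X.R L W a) := by
    have := sh_le_sh hs hϖ (a := -((e + 1 : ℕ) : ℤ)) (b := 0) (by omega) (X.R L W a)
    rwa [sh_zero] at this
  refine le_trans ?_ (rl_sup_US_le L X W a C hC hw B H1 (e + 1))
  rw [sup_comm (US O L C) (X.R L W a)]
  refine rl_mono_right le_sup_left ?_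
  refine sup_le (sup_le (h1.trans le_sup_left) le_sup_right) ?_
  exact (X.D_le L W a e).trans le_sup_left

theorem rl_T_le (a e : ℕ) (C : Finset V) (hC : C ⊆ X.S a ∪ X.K a) {w : ℕ}
    (hw : C.card + w = t) (B : V → ℕ)
    (H1 : US O L C ⊓ X.R L W a ≤ LT O (W.s L) C B) :
    rl ((X.D L W a e ⊓ (US O L C ⊔ X.R L W a)) ⊔ sh (W.s L) 1 (X.D L W a e)) (X.D L W a e) ≤
      (w : ℕ∞) := by
  have hs : W.s L ≠ 0 := WData.s_ne_zero L W
  have hϖ : algebraMap O L W.ϖ = W.s L := rfl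
  set D := X.D L W a e with hD
  set U := US O L C with hU
  set R := X.R L W a with hR
  set Q := D ⊓ (U ⊔ R) with hQ
  have hfin : rl Q D ≤ (w * (e + 1) : ℕ) := rl_D_le L X W a e C hC hw B H1
  have hsD : sh (W.s L) 1 D ≤ D := by
    have := sh_le_sh hs hϖ (a := 0) (b := 1) (by omega) D
    rwa [sh_zero] at this
  have hup : ∀ P : Submodule O (V → L), P ≤ sh (W.s L) (-1) P := by
    intro P
    have := sh_le_sh hs hϖ (a := -1) (b := 0) (by omega) P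
    rwa [sh_zero] at this
  have hQD : Q ≤ D := inf_le_left
  -- first decomposition
  have e1 : rl Q D = rl Q (Q ⊔ sh (W.s L) 1 D) + rl (Q ⊔ sh (W.s L) 1 D) D :=
    rl_trans le_sup_left (sup_le hQD hsD)
  have e2 : rl Q (Q ⊔ sh (W.s L) 1 D) = rl (sh (W.s L) (-1) Q ⊓ D) D := by
    rw [rl_sup_right, ← rl_sh hs (-1), sh_inf, sh_sh hs]
    norm_num
    rw [sh_zero]
  have e3 : rl Q D = rl Q (sh (W.s L) (-1) Q ⊓ D) + rl (sh (W.s L) (-1) Q ⊓ D) D :=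
    rl_trans (le_inf (hup Q) hQD) inf_le_right
  have hne : rl (sh (W.s L) (-1) Q ⊓ D) D ≠ ⊤ := by
    intro h
    rw [h, add_top] at e3
    rw [e3] at hfin
    exact absurd (top_le_iff.mp hfin) (ENat.natCast_ne_top _)
  have e4 : rl (Q ⊔ sh (W.s L) 1 D) D = rl Q (sh (W.s L) (-1) Q ⊓ D) := by
    rw [e3, e2, add_comm] at e1
    exact (WithTop.add_left_cancel hne e1).symm
  rw [e4]
  have h5 : sh (W.s L) (-1) Q ⊓ D ≤ (U ⊔ sh (W.s L) (-1) R) ⊓ D := by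
    refine inf_le_inf_right D ?_
    rw [hQ, sh_inf, sh_sup hs, hU, sh_US hs]
    exact inf_le_right
  have h6 : U ⊔ R ≤ U ⊔ sh (W.s L) (-1) R := sup_le_sup_left (hup R) U
  calc rl Q (sh (W.s L) (-1) Q ⊓ D)
      ≤ rl Q ((U ⊔ sh (W.s L) (-1) R) ⊓ D) := rl_mono_right (le_inf (hup Q) hQD) h5
    _ = rl ((U ⊔ R) ⊓ D) ((U ⊔ sh (W.s L) (-1) R) ⊓ D) := by rw [hQ, inf_comm D]
    _ ≤ rl (U ⊔ R) (U ⊔ sh (W.s L) (-1) R) := rl_inf_le h6 D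
    _ ≤ (w : ℕ∞) := by
      have := rl_sup_US_le L X W a C hC hw B H1 1
      rw [mul_one] at this
      rw [sup_comm U R, sup_comm U (sh (W.s L) (-1) R)]
      exact_mod_cast this

end SubPow
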