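import Pool.Agent.Helper15.Sub.ClaimDefs

/-!
Block CW: monotonicity, death of balls, and the rank bound.

* `Sit.R_mono`: from `RR_mono` (`monotone_nat_of_le_succ`).
* `Sit.Dies.mem`: from `ee_mem_sh_iff` at `n` and `n + 1` (`q ∈ S (n+1) ∪ K (n+1)` by `S_sub`, `K_sub`).
* `near_anti`: for `q ∈ S n ∪ K n` and `n ≤ m`: `near (K m) q i → near (K n) q i`
  (by `ee_mem_sh_iff` and `R_mono`).
* `rl_sup_US_le`. Put `R = R a`, `U = US C`. First `g = 1`:
  `rl R (sh (-1) R) ≤ |K a| ≤ t`: by `RR_le` with `k = 1`, `sh (-1) R = R ⊔ span {s⁻¹ e_o : o ∈ K a}`,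
  use `rl_le_card`. By `rl_split` with `U`:
  `rl R (sh (-1) R) = rl (R ⊓ U) (sh (-1) R ⊓ U) + rl (R ⊔ U) (sh (-1) R ⊔ U)`. Now
  `sh (-1) R ⊓ U = sh (-1) (R ⊓ U)`. Put `Λ = LT C 0 ≤ R ⊓ U =: M ≤ LT C B`. By `rl_trans`
  `rl Λ M + rl M (sh (-1) M) = rl Λ (sh (-1) Λ) + rl (sh (-1) Λ) (sh (-1) M)`, the last term is
  `rl Λ M` by `rl_sh`, and it is finite since `rl Λ (LT C B) < ⊤` (add the vectors
  `s^{-j} e_c` one by one, `rl_le_card`), so `rl M (sh (-1) M) = rl Λ (sh (-1) Λ) ≥ |C|`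
  (`card_le_rl_of_indep`). Hence `|C| + rl (R ⊔ U) (sh (-1) R ⊔ U) ≤ t`, which gives the claim
  for `g = 1`. General `g`: induction, `rl_trans` and `rl_sh`
  (`sh (-g) (R ⊔ U) = sh (-g) R ⊔ U`).
-/

namespace SubPow

open Finset

variable {O V : Type*} [CommRing O] [IsDomain O] [IsDiscreteValuationRing O]
  (L : Type*) [Field L] [Algebra O L] [IsFractionRing O L] [Fintype V] [DecidableEq V]
  {t : ℕ} (X : Sit V t) (W : WData V O)

theorem Sit.R_mono : Monotone (X.R L W) :=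
  monotone_nat_of_le_succ fun n => RR_mono L X.G W (X.S_sub n) (X.K_sub n) (X.nb (n + 1))

omit [Fintype V] in
theorem Sit.SK_succ (n : ℕ) : X.S n ∪ X.K n ⊆ X.S (n + 1) ∪ X.K (n + 1) :=
  Finset.union_subset ((X.S_sub n).trans Finset.subset_union_left) (X.K_sub n)

theorem Sit.SK_mono {n m : ℕ} (h : n ≤ m) : X.S n ∪ X.K n ⊆ X.S m ∪ X.K m := by
  induction m, h using Nat.le_induction with
  | base => exact subset_rfl
  | succ m _ ih => exact ih.trans (X.SK_succ m)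

/-- A ball that dies at `n` has its vector in `s^{i+1} R (n+1)` and not in `s^{i+1} R n`. -/
theorem Sit.Dies.mem {n : ℕ} {q : V} {i : ℕ} (h : X.Dies n q i) :
    ee L q ∈ sh (W.s L) ((i : ℤ) + 1) (X.R L W (n + 1)) ∧
      ee L q ∉ sh (W.s L) ((i : ℤ) + 1) (X.R L W n) := by
  obtain ⟨hq, h1, h2⟩ := h
  refine ⟨(ee_mem_sh_iff L X.G W (X.disj (n + 1)) (X.nb (n + 1)) (X.SK_succ n hq) i).2 h2, ?_⟩
  intro h3
  exact (ee_mem_sh_iff L X.G W (X.disj n) (X.nb n) hq i).1 h3 h1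

include L W in
theorem Sit.near_anti {n m : ℕ} (h : n ≤ m) {q : V} (hq : q ∈ X.S n ∪ X.K n) {i : ℕ}
    (hm : near X.G (X.K m) q i) : near X.G (X.K n) q i := by
  by_contra hn
  have h1 := (ee_mem_sh_iff L X.G W (X.disj n) (X.nb n) hq i).2 hn
  have h2 : ee L q ∈ sh (W.s L) ((i : ℤ) + 1) (X.R L W m) :=
    sh_mono _ (X.R_mono L W h) h1
  exact (ee_mem_sh_iff L X.G W (X.disj m) (X.nb m) (X.SK_mono h hq) i).1 h2 hm

omit [IsDomain O] [IsDiscreteValuationRing O] [IsFractionRing O L] [Fintype V] in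
theorem cw_ee_smul_mem {C : Finset V} {b : V → ℕ} {q : V} (hq : q ∈ C) (s : L) (hs : s ≠ 0) :
    (s ^ (b q))⁻¹ • ee L q ∈ LT O s C b := by
  refine ⟨fun p hp => ?_, fun p _ => ?_⟩
  · have : p ≠ q := fun h => hp (h ▸ hq)
    simp [ee, this]
  · by_cases hpq : p = q
    · subst hpq
      refine ⟨1, ?_⟩
      simp [ee, hs]
    · exact ⟨0, by simp [ee, hpq]⟩

omit [Fintype V] [DecidableEq V] in
include W in
theorem cw_max : (Ideal.span {W.ϖ}).IsMaximal := by
  have h1 := (IsDiscreteValuationRing.irreducible_iff_uniformizer W.ϖ).1 W.irr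
  rw [← h1]
  infer_instance

omit [Fintype V] in
/-- finiteness -/
theorem cw_rl_LT_fin [Fintype V] (C : Finset V) (n N : ℕ) :
    rl (LT O (W.s L) C (fun _ => n)) (LT O (W.s L) C (fun _ => n + N)) ≤
      ((N * C.card : ℕ) : ℕ∞) := by
  have hs : W.s L ≠ 0 := W.s_ne_zero L
  induction N with
  | zero => simp [rl_self]
  | succ N ih =>
    have hA : LT O (W.s L) C (fun _ => n) ≤ LT O (W.s L) C (fun _ => n + N) :=
      LT_mono hs (ϖ := W.ϖ) rfl subset_rfl (fun _ _ => by omega)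
    have hB : LT O (W.s L) C (fun _ => n + N) ≤ LT O (W.s L) C (fun _ => n + (N + 1)) :=
      LT_mono hs (ϖ := W.ϖ) rfl subset_rfl (fun _ _ => by omega)
    rw [rl_trans hA hB]
    have hstep : rl (LT O (W.s L) C (fun _ => n + N)) (LT O (W.s L) C (fun _ => n + (N + 1))) ≤
        (C.card : ℕ∞) := by
      have e : LT O (W.s L) C (fun _ => n + (N + 1)) =
          LT O (W.s L) C (fun _ => n + N) ⊔ Submodule.span O
            ((fun q => ((W.s L) ^ (n + (N + 1)))⁻¹ • ee L q) '' (C : Set V)) := by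
        rw [← LT_eq_span hs C (fun _ => n + (N + 1))]
        exact (sup_eq_right.2 hB).symm
      rw [e]
      refine rl_le_card C _ W.ϖ (cw_max W) _ ?_
      intro q hq
      have h2 : W.ϖ • ((W.s L ^ (n + (N + 1)))⁻¹ • ee L q) =
          ((W.s L ^ (n + N))⁻¹ • ee L q : V → L) := by
        funext z
        change W.ϖ • ((W.s L ^ (n + (N + 1)))⁻¹ * ee L q z) = (W.s L ^ (n + N))⁻¹ * ee L q z
        rw [Algebra.smul_def]
        change W.s L * _ = _
        rw [← add_assoc, pow_succ]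
        field_simp
      rw [h2]
      exact cw_ee_smul_mem (O := O) (b := fun _ => n + N) L hq _ hs
    calc _ ≤ ((N * C.card : ℕ) : ℕ∞) + (C.card : ℕ∞) := add_le_add ih hstep
      _ = (((N + 1) * C.card : ℕ) : ℕ∞) := by push_cast; ring

/-- the case `g = 1` of the rank bound. -/
theorem cw_one (a : ℕ) (C : Finset V) (hC : C ⊆ X.S a ∪ X.K a) {w : ℕ}
    (hw : C.card + w = t) (B : V → ℕ)
    (H1 : US O L C ⊓ X.R L W a ≤ LT O (W.s L) C B) :
    rl (X.R L W a ⊔ US O L C) (sh (W.s L) (-1) (X.R L W a) ⊔ US O L C) ≤ (w : ℕ∞) := by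
  have hs : W.s L ≠ 0 := W.s_ne_zero L
  set R := X.R L W a with hR
  set U := US O L C with hU
  have hϖ : algebraMap O L W.ϖ = W.s L := rfl
  have hRm : R ≤ sh (W.s L) (-1) R := by
    have := sh_le_sh hs hϖ (show (-1 : ℤ) ≤ 0 by norm_num) R
    rwa [sh_zero] at this
  -- step A
  have hA : rl R (sh (W.s L) (-1) R) ≤ (t : ℕ∞) := by
    have h1 : sh (W.s L) (-1) R ≤ R ⊔ Submodule.span O
        ((fun q => ((W.s L) ^ 1)⁻¹ • ee L q) '' (X.K a : Set V)) := by
      have h2 : R ≤ LT O (W.s L) (X.K a) (fun _ => 0) ⊔ sh (W.s L) ((1 : ℕ) : ℤ) R :=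
        RR_le L X.G W 1
      have h3 := sh_mono (s := W.s L) (-1) h2
      rw [sh_sup hs, sh_sh hs] at h3
      have h4 : sh (W.s L) (-1) (LT O (W.s L) (X.K a) (fun _ => 0)) =
          LT O (W.s L) (X.K a) (fun _ => 1) := by
        have := sh_LT (O := O) hs 1 (X.K a) (fun _ => 0)
        simpa using this
      rw [h4] at h3
      simp only [Nat.cast_one, neg_add_cancel, sh_zero] at h3
      rw [sup_comm, ← LT_eq_span hs (X.K a) (fun _ => 1)]
      exact h3
    refine (rl_mono_right hRm h1).trans ?_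
    refine (rl_le_card (X.K a) _ W.ϖ (cw_max W) _ ?_).trans (by exact_mod_cast X.card_le a)
    intro q hq
    have h2 : W.ϖ • ((W.s L ^ 1)⁻¹ • ee L q) = (ee L q : V → L) := by
      funext z
      change W.ϖ • ((W.s L ^ 1)⁻¹ * ee L q z) = ee L q z
      rw [Algebra.smul_def]
      change W.s L * _ = _
      rw [pow_one]
      field_simp
    rw [h2]
    exact ee_mem_RR L X.G W (X.nb a) (Finset.mem_union_right _ hq)
  -- step B
  rw [rl_split hRm U] at hA
  set M := R ⊓ U with hM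
  have hMsh : sh (W.s L) (-1) R ⊓ U = sh (W.s L) (-1) M := by
    rw [hM, sh_inf, hU, sh_US hs]
  rw [hMsh] at hA
  set Λ := LT O (W.s L) C (fun _ => 0) with hΛ
  have hΛM : Λ ≤ M := by
    refine le_inf ?_ (LT_le_US _ _ _)
    rw [hΛ, LT_eq_span hs, Submodule.span_le]
    rintro _ ⟨q, hq, rfl⟩
    simp only [pow_zero, inv_one, one_smul]
    exact ee_mem_RR L X.G W (X.nb a) (hC hq)
  have hMB : M ≤ LT O (W.s L) C B := by
    rw [hM, inf_comm]; exact H1
  obtain ⟨N, hN⟩ : ∃ N, ∀ c ∈ C, B c ≤ N := ⟨∑ c ∈ C, B c, fun c hc =>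
    Finset.single_le_sum (f := B) (fun _ _ => Nat.zero_le _) hc⟩
  have hMN : M ≤ LT O (W.s L) C (fun _ => 0 + N) :=
    hMB.trans (LT_mono hs hϖ subset_rfl (fun c hc => by simpa using hN c hc))
  have hfin : rl Λ M ≠ ⊤ := by
    have h1 : rl Λ M ≤ ((N * C.card : ℕ) : ℕ∞) :=
      (rl_mono_right hΛM hMN).trans (cw_rl_LT_fin L W C 0 N)
    exact ne_top_of_le_ne_top (ENat.natCast_ne_top _) h1
  have hMm : M ≤ sh (W.s L) (-1) M := by
    have := sh_le_sh hs hϖ (show (-1 : ℤ) ≤ 0 by norm_num) M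
    rwa [sh_zero] at this
  have hΛm : Λ ≤ sh (W.s L) (-1) Λ := by
    have := sh_le_sh hs hϖ (show (-1 : ℤ) ≤ 0 by norm_num) Λ
    rwa [sh_zero] at this
  have e1 : rl Λ M + rl M (sh (W.s L) (-1) M) =
      rl Λ (sh (W.s L) (-1) Λ) + rl Λ M := by
    rw [← rl_trans hΛM hMm, rl_trans hΛm (sh_mono (-1) hΛM), rl_sh hs]
  have e2 : rl M (sh (W.s L) (-1) M) = rl Λ (sh (W.s L) (-1) Λ) := by
    rw [add_comm] at e1
    exact ENat.add_left_injective_of_ne_top hfin e1
  have e3 : (C.card : ℕ∞) ≤ rl Λ (sh (W.s L) (-1) Λ) := by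
    have h4 : sh (W.s L) (-1) Λ = Λ ⊔ Submodule.span O
        ((fun q => ((W.s L) ^ 1)⁻¹ • ee L q) '' (C : Set V)) := by
      have := sh_LT (O := O) hs 1 C (fun _ => 0)
      have h5 : sh (W.s L) (-1) Λ = LT O (W.s L) C (fun _ => 1) := by simpa using this
      rw [← LT_eq_span hs C (fun _ => 1), ← h5]
      exact (sup_eq_right.2 hΛm).symm
    rw [h4]
    refine card_le_rl_of_indep C _ Λ ?_
    intro q hq hmem
    -- a submodule containing all
    let Q : Submodule O (V → L) :=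
      (Submodule.span O {(1 : L)}).comap (LinearMap.proj q : (V → L) →ₗ[O] L)
    have hQ : Λ ⊔ Submodule.span O
        ((fun q => ((W.s L) ^ 1)⁻¹ • ee L q) '' ((C.erase q : Finset V) : Set V)) ≤ Q := by
      refine sup_le ?_ (Submodule.span_le.2 ?_)
      · intro v hv
        obtain ⟨x, hx⟩ := hv.2 q hq
        change v q ∈ Submodule.span O {(1 : L)}
        rw [pow_zero, one_mul] at hx
        rw [← hx, Submodule.mem_span_singleton]
        exact ⟨x, by rw [Algebra.smul_def, mul_one]⟩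
      · rintro _ ⟨p, hp, rfl⟩
        have hpq : q ≠ p := by
          rintro rfl
          simp at hp
        change ((W.s L ^ 1)⁻¹ • ee L p) q ∈ Submodule.span O {(1 : L)}
        simp [ee, hpq]
    have h6 := hQ hmem
    change ((W.s L ^ 1)⁻¹ • ee L q) q ∈ Submodule.span O {(1 : L)} at h6
    rw [Submodule.mem_span_singleton] at h6
    obtain ⟨x, hx⟩ := h6
    rw [Algebra.smul_def, mul_one] at hx
    simp only [ee, pow_one, Pi.smul_apply, Pi.single_eq_same, smul_eq_mul, mul_one] at hx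
    have h7 : algebraMap O L (x * W.ϖ) = algebraMap O L 1 := by
      rw [map_mul, hx, map_one]
      change (W.s L)⁻¹ * W.s L = 1
      exact inv_mul_cancel₀ hs
    have h8 : x * W.ϖ = 1 := IsFractionRing.injective O L h7
    exact W.irr.not_isUnit (IsUnit.of_mul_eq_one_right x h8)
  rw [e2] at hA
  have h9 : (C.card : ℕ∞) + rl (R ⊔ U) (sh (W.s L) (-1) R ⊔ U) ≤ (C.card : ℕ∞) + (w : ℕ∞) := by
    refine (add_le_add_left e3 _).trans (hA.trans ?_)
    rw [← hw]
    push_cast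
    exact le_rfl
  exact (ENat.add_le_add_iff_left (ENat.natCast_ne_top _)).1 h9

/-- The rank bound. -/
theorem rl_sup_US_le (a : ℕ) (C : Finset V) (hC : C ⊆ X.S a ∪ X.K a) {w : ℕ}
    (hw : C.card + w = t) (B : V → ℕ)
    (H1 : US O L C ⊓ X.R L W a ≤ LT O (W.s L) C B) (g : ℕ) :
    rl (X.R L W a ⊔ US O L C) (sh (W.s L) (-(g : ℤ)) (X.R L W a) ⊔ US O L C) ≤ (w * g : ℕ) := by
  have hs : W.s L ≠ 0 := W.s_ne_zero L
  have hϖ : algebraMap O L W.ϖ = W.s L := rfl
  have hone := cw_one L X W a C hC hw B H1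
  have key : ∀ k : ℤ, sh (W.s L) k (X.R L W a) ⊔ US O L C =
      sh (W.s L) k (X.R L W a ⊔ US O L C) := by
    intro k
    rw [sh_sup hs, sh_US hs]
  rw [key] at hone ⊢
  set Q := X.R L W a ⊔ US O L C with hQ
  induction g with
  | zero => simp [sh_zero, rl_self]
  | succ g ih =>
    have h1 : Q ≤ sh (W.s L) (-1) Q := by
      have := sh_le_sh hs hϖ (show (-1 : ℤ) ≤ 0 by norm_num) Q
      rwa [sh_zero] at this
    have h2 : sh (W.s L) (-1) Q ≤ sh (W.s L) (-((g + 1 : ℕ) : ℤ)) Q :=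
      sh_le_sh hs hϖ (by push_cast; omega) Q
    rw [rl_trans h1 h2]
    have h3 : sh (W.s L) (-((g + 1 : ℕ) : ℤ)) Q = sh (W.s L) (-1) (sh (W.s L) (-(g : ℤ)) Q) := by
      rw [sh_sh hs]
      congr 1
      push_cast
      ring
    rw [h3, rl_sh hs]
    calc _ ≤ (w : ℕ∞) + ((w * g : ℕ) : ℕ∞) := add_le_add hone ih
      _ = ((w * (g + 1) : ℕ) : ℕ∞) := by push_cast; ring

end SubPow
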