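import Pool.Agent.Helper15.Sub.LowDefs

/-!
Block SD: from a weighted core graph with virtual centres to a design.

General construction: a finite index set `J` of paths; path `j` has a start `u j : C`, an end
`w j : Option C` (if `w j = some c` then `c ∈ P (u j)`) and `n j` interior points. Vertices:
`C ⊕ Σ j, Fin (n j)`; edges: `u j — (j, 0)`, `(j, i) — (j, i+1)`, `(j, n j - 1) — c` if `w j = some c`,
and `u j — c` if `n j = 0`, `w j = some c`. Elimination structure of width `t ≥ 2`: the interior
points are younger than all core vertices, `(j, 0) < (j, 1) < …`,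
`P (j, i) = {u j} ∪ {(j, i+1)}` resp. `{u j} ∪ {c}` for the last one (`{u j}` if `w j = none`);
`P` on `C` is the old one.
Use `J =` {pairs `(u, v)` with `wt u v ≠ 0`, `n = wt u v - 1`, end `v`} ∪ `I`, where for `i : I`:
if `cen i` is of the first kind (`u = w`, `l = m`): no end, `n = l`, and the centre is `u` if `l = 0`
and the point with index `l - 1` otherwise; if it is of the second kind: start `u`, end `w`
(`w ∈ P u` by `wt_mem`), `n = l + m - 1`, the centre is the point with index `l - 1`.
Distances: `WR` gives walks; `edist (centre) (u) ≤ l`, `edist (centre) (w) ≤ m`. Lower bounds: a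
function `h : vertices → ℕ` with `h x ≤ h y + 1` for adjacent `x, y` satisfies
`h x ≤ h y + k` if `edist x y ≤ k`. Extend the certificate `g` to the interior points by
`h (j, i) = min (g (u j) + i + 1) (g c + n j - i)` (`g (u j) + i + 1` if there is no end); it is
Lipschitz since `|g (u j) - g c| ≤ wt (u j) c ≤ n j + 1`. Then `h (centre) ≥ r + 1` and `h = 0` on all
vertices older than `top i`.
-/

namespace SubPow

open Finset

/-- A system of paths attached to a core graph. -/
structure PathSys {C : Type} {s : ℕ} (X : Core C s) where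
  J : Type
  fin : Fintype J
  u : J → C
  w : J → Option C
  n : J → ℕ
  mem : ∀ j c, w j = some c → c ∈ X.P (u j)

namespace PathSys

attribute [instance] PathSys.fin

variable {C : Type} {s : ℕ} {X : Core C s} (S : PathSys X)

/-- The vertices: core vertices and interior points of the paths. -/
abbrev V : Type := C ⊕ (Σ j : S.J, Fin (S.n j))

/-- The end of a path (its start if there is none). -/
def endv (j : S.J) : C := (S.w j).getD (S.u j)

/-- The vertex of the path `j` at a given position. -/
def pos (j : S.J) : ℕ → S.V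
  | 0 => .inl (S.u j)
  | i + 1 => if h : i < S.n j then .inr ⟨j, ⟨i, h⟩⟩ else .inl (S.endv j)

/-- The length of a path. -/
def len (j : S.J) : ℕ := S.n j + (if (S.w j).isSome then 1 else 0)

@[simp] theorem pos_zero (j : S.J) : S.pos j 0 = .inl (S.u j) := rfl

theorem pos_succ_of_lt {j : S.J} {i : ℕ} (h : i < S.n j) :
    S.pos j (i + 1) = .inr ⟨j, ⟨i, h⟩⟩ := by
  simp [pos, h]

theorem pos_succ_of_ge {j : S.J} {i : ℕ} (h : S.n j ≤ i) :
    S.pos j (i + 1) = .inl (S.endv j) := by
  simp [pos, Nat.not_lt.mpr h]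

/-- The graph. -/
def graph : SimpleGraph S.V :=
  SimpleGraph.fromRel fun x y => ∃ j i, i < S.len j ∧ x = S.pos j i ∧ y = S.pos j (i + 1)

theorem edist_step {j : S.J} {i : ℕ} (h : i < S.len j) :
    S.graph.edist (S.pos j i) (S.pos j (i + 1)) ≤ 1 := by
  by_cases he : S.pos j i = S.pos j (i + 1)
  · rw [he]
    simp
  · have : S.graph.Adj (S.pos j i) (S.pos j (i + 1)) := by
      rw [graph, SimpleGraph.fromRel_adj]
      exact ⟨he, Or.inl ⟨j, i, h, rfl, rfl⟩⟩
    exact (SimpleGraph.edist_eq_one_iff_adj.mpr this).le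

theorem edist_pos {j : S.J} {a k : ℕ} (h : a + k ≤ S.len j) :
    S.graph.edist (S.pos j a) (S.pos j (a + k)) ≤ (k : ℕ∞) := by
  induction k with
  | zero => simp
  | succ k ih =>
    calc S.graph.edist (S.pos j a) (S.pos j (a + (k + 1)))
        ≤ S.graph.edist (S.pos j a) (S.pos j (a + k)) +
          S.graph.edist (S.pos j (a + k)) (S.pos j (a + k + 1)) := by
          exact SimpleGraph.edist_triangle
      _ ≤ (k : ℕ∞) + 1 := add_le_add (ih (by omega)) (S.edist_step (by omega))
      _ = ((k + 1 : ℕ) : ℕ∞) := by push_cast; rfl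

/-- The older neighbours in the chordal completion. -/
noncomputable def P : S.V → Finset S.V := by
  classical
  exact fun x => match x with
    | .inl c => (X.P c).image Sum.inl
    | .inr ⟨j, i⟩ => {.inl (S.u j), S.pos j (i + 2)}

theorem mem_P_inl {c : C} {x : S.V} : x ∈ S.P (.inl c) ↔ ∃ a ∈ X.P c, x = .inl a := by
  classical
  simp only [P, Finset.mem_image]
  constructor
  · rintro ⟨a, ha, rfl⟩; exact ⟨a, ha, rfl⟩
  · rintro ⟨a, ha, rfl⟩; exact ⟨a, ha, rfl⟩

theorem mem_P_inr {j : S.J} {i : Fin (S.n j)} {x : S.V} :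
    x ∈ S.P (.inr ⟨j, i⟩) ↔ x = .inl (S.u j) ∨ x = S.pos j (i + 2) := by
  classical
  simp [P]

theorem card_P (hs : 2 ≤ s) (x : S.V) : (S.P x).card ≤ s := by
  classical
  rcases x with c | ⟨j, i⟩
  · exact Finset.card_image_le.trans (X.card_le c)
  · exact Finset.card_le_two.trans hs

/-- Upper bound for the numbers of interior points. -/
noncomputable def M : ℕ := Finset.univ.sup S.n + 1

theorem n_lt_M (j : S.J) : S.n j < S.M :=
  Nat.lt_succ_of_le (Finset.le_sup (f := S.n) (Finset.mem_univ j))

/-- The rank function. -/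
noncomputable def rank : S.V → ℕ
  | .inl c => Fintype.card S.J * S.M + X.rank c
  | .inr ⟨j, i⟩ => (Fintype.equivFin S.J j : ℕ) * S.M + i

theorem rank_inr_lt (j : S.J) (i : Fin (S.n j)) :
    S.rank (.inr ⟨j, i⟩) < Fintype.card S.J * S.M := by
  have h1 : ((Fintype.equivFin S.J j : ℕ)) + 1 ≤ Fintype.card S.J := (Fintype.equivFin S.J j).2
  have h2 : (i : ℕ) < S.M := i.2.trans (S.n_lt_M j)
  calc S.rank (.inr ⟨j, i⟩) = (Fintype.equivFin S.J j : ℕ) * S.M + i := rfl
    _ < (Fintype.equivFin S.J j : ℕ) * S.M + S.M := by omega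
    _ = ((Fintype.equivFin S.J j : ℕ) + 1) * S.M := by ring
    _ ≤ Fintype.card S.J * S.M := Nat.mul_le_mul_right _ h1

theorem rank_inl (c : C) : S.rank (.inl c) = Fintype.card S.J * S.M + X.rank c := rfl

theorem rank_inj : Function.Injective S.rank := by
  intro x y h
  rcases x with c | ⟨j, i⟩ <;> rcases y with c' | ⟨j', i'⟩
  · rw [rank_inl, rank_inl] at h
    rw [X.rank_inj (by omega : X.rank c = X.rank c')]
  · have := S.rank_inr_lt j' i'
    rw [rank_inl] at h
    omega
  · have := S.rank_inr_lt j i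
    rw [rank_inl] at h
    omega
  · have h1 : (Fintype.equivFin S.J j : ℕ) * S.M + i = (Fintype.equivFin S.J j' : ℕ) * S.M + i' := h
    have h2 : (i : ℕ) < S.M := i.2.trans (S.n_lt_M j)
    have h2' : (i' : ℕ) < S.M := i'.2.trans (S.n_lt_M j')
    have hM : 0 < S.M := by omega
    have h3 : (Fintype.equivFin S.J j : ℕ) = Fintype.equivFin S.J j' := by
      have e1 : ((Fintype.equivFin S.J j : ℕ) * S.M + i) / S.M = Fintype.equivFin S.J j := by
        rw [mul_comm, Nat.mul_add_div hM, Nat.div_eq_of_lt h2, add_zero]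
      have e2 : ((Fintype.equivFin S.J j' : ℕ) * S.M + i') / S.M = Fintype.equivFin S.J j' := by
        rw [mul_comm, Nat.mul_add_div hM, Nat.div_eq_of_lt h2', add_zero]
      rw [← e1, ← e2, h1]
    have h4 : j = j' := (Fintype.equivFin S.J).injective (Fin.ext h3)
    subst h4
    have h5 : (i : ℕ) = i' := by omega
    rw [Fin.ext h5]

theorem rank_lt_pos (j : S.J) (i : Fin (S.n j)) :
    S.rank (.inr ⟨j, i⟩) < S.rank (S.pos j (i + 2)) := by
  by_cases h : (i : ℕ) + 1 < S.n j
  · rw [show (i : ℕ) + 2 = (i + 1) + 1 from rfl, S.pos_succ_of_lt h]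
    simp only [rank]
    omega
  · rw [show (i : ℕ) + 2 = (i + 1) + 1 from rfl, S.pos_succ_of_ge (by omega)]
    have := S.rank_inr_lt j i
    rw [rank_inl]
    omega

theorem rank_lt_u (j : S.J) (i : Fin (S.n j)) (c : C) :
    S.rank (.inr ⟨j, i⟩) < S.rank (.inl c) := by
  have := S.rank_inr_lt j i
  rw [rank_inl]
  omega

theorem older (x y : S.V) (h : y ∈ S.P x) : S.rank x < S.rank y := by
  rcases x with c | ⟨j, i⟩
  · obtain ⟨a, ha, rfl⟩ := S.mem_P_inl.mp h
    have := X.older _ _ ha
    rw [rank_inl, rank_inl]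
    omega
  · rcases S.mem_P_inr.mp h with rfl | rfl
    · exact S.rank_lt_u j i _
    · exact S.rank_lt_pos j i

theorem endv_cases (j : S.J) : S.endv j = S.u j ∨ S.endv j ∈ X.P (S.u j) := by
  unfold endv
  cases h : S.w j with
  | none => exact Or.inl rfl
  | some c => exact Or.inr (S.mem j c h)

theorem clique (x a b : S.V) (ha : a ∈ S.P x) (hb : b ∈ S.P x) (hr : S.rank a < S.rank b) :
    b ∈ S.P a := by
  rcases x with c | ⟨j, i⟩
  · obtain ⟨a', ha', rfl⟩ := S.mem_P_inl.mp ha
    obtain ⟨b', hb', rfl⟩ := S.mem_P_inl.mp hb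
    rw [rank_inl, rank_inl] at hr
    exact S.mem_P_inl.mpr ⟨b', X.clique _ _ _ ha' hb' (by omega), rfl⟩
  · have key : ∀ y : S.V, y = S.pos j (i + 2) → (∃ h : (i : ℕ) + 1 < S.n j,
        y = .inr ⟨j, ⟨i + 1, h⟩⟩) ∨ y = .inl (S.u j) ∨ ∃ c ∈ X.P (S.u j), y = .inl c := by
      rintro y rfl
      by_cases h : (i : ℕ) + 1 < S.n j
      · exact Or.inl ⟨h, by rw [show (i : ℕ) + 2 = (i + 1) + 1 from rfl, S.pos_succ_of_lt h]⟩
      · right
        rw [show (i : ℕ) + 2 = (i + 1) + 1 from rfl, S.pos_succ_of_ge (by omega)]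
        rcases S.endv_cases j with h' | h'
        · exact Or.inl (by rw [h'])
        · exact Or.inr ⟨_, h', rfl⟩
    rcases S.mem_P_inr.mp ha with rfl | ha' <;> rcases S.mem_P_inr.mp hb with rfl | hb'
    · exact absurd hr (lt_irrefl _)
    · rcases key b hb' with ⟨h, rfl⟩ | rfl | ⟨c, hc, rfl⟩
      · exact absurd hr (not_lt.mpr (S.rank_lt_u j _ _).le)
      · exact absurd hr (lt_irrefl _)
      · exact S.mem_P_inl.mpr ⟨c, hc, rfl⟩
    · rcases key a ha' with ⟨h, rfl⟩ | rfl | ⟨c, hc, rfl⟩
      · exact S.mem_P_inr.mpr (Or.inl rfl)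
      · exact absurd hr (lt_irrefl _)
      · have := X.older _ _ hc
        rw [rank_inl, rank_inl] at hr
        omega
    · rw [ha', hb'] at hr
      exact absurd hr (lt_irrefl _)

theorem step_mem {j : S.J} {i : ℕ} (h : i < S.len j) :
    S.pos j (i + 1) ∈ S.P (S.pos j i) ∨ S.pos j i ∈ S.P (S.pos j (i + 1)) := by
  cases i with
  | zero =>
    by_cases h0 : 0 < S.n j
    · right
      rw [S.pos_succ_of_lt h0]
      exact S.mem_P_inr.mpr (Or.inl rfl)
    · left
      have hn : S.n j = 0 := by omega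
      unfold len at h
      rw [S.pos_succ_of_ge (by omega)]
      cases hw : S.w j with
      | none => rw [hw] at h; simp at h; omega
      | some c =>
        have he : S.endv j = c := by unfold endv; rw [hw]; rfl
        rw [he]
        exact S.mem_P_inl.mpr ⟨c, S.mem j c hw, rfl⟩
  | succ i =>
    left
    have hi : i < S.n j := by
      unfold len at h
      split at h <;> omega
    rw [S.pos_succ_of_lt hi]
    exact S.mem_P_inr.mpr (Or.inr rfl)

/-- The elimination structure. -/
noncomputable def elim (hs : 2 ≤ s) : Elim S.graph s where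
  rank := S.rank
  rank_inj := S.rank_inj
  P := S.P
  older := S.older
  card_le := S.card_P hs
  clique := S.clique
  cover := by
    intro x y hxy hr
    rw [graph, SimpleGraph.fromRel_adj] at hxy
    rcases hxy.2 with ⟨j, i, hi, rfl, rfl⟩ | ⟨j, i, hi, rfl, rfl⟩
    · rcases S.step_mem hi with h | h
      · exact h
      · exact absurd (S.older _ _ h) (not_lt.mpr hr.le)
    · rcases S.step_mem hi with h | h
      · exact absurd (S.older _ _ h) (not_lt.mpr hr.le)
      · exact h

/-- Extension of a function on the core to the interior points. -/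
def extend (g : C → ℕ) : S.V → ℕ
  | .inl c => g c
  | .inr ⟨j, i⟩ => match S.w j with
    | none => g (S.u j) + (i + 1)
    | some c => min (g (S.u j) + (i + 1)) (g c + (S.n j - i))

/-- The Lipschitz condition along the paths. -/
def LipP (g : C → ℕ) : Prop :=
  ∀ j c, S.w j = some c → g (S.u j) ≤ g c + S.len j ∧ g c ≤ g (S.u j) + S.len j

theorem extend_pos_none {g : C → ℕ} {j : S.J} (hw : S.w j = none) {a : ℕ} (ha : a ≤ S.len j) :
    S.extend g (S.pos j a) = g (S.u j) + a := by
  have hl : S.len j = S.n j := by unfold len; rw [hw]; simp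
  cases a with
  | zero => rfl
  | succ a =>
    rw [S.pos_succ_of_lt (by omega : a < S.n j)]
    simp only [extend, hw]

theorem extend_pos_some {g : C → ℕ} (hg : S.LipP g) {j : S.J} {c : C} (hw : S.w j = some c)
    {a : ℕ} (ha : a ≤ S.len j) :
    S.extend g (S.pos j a) = min (g (S.u j) + a) (g c + (S.len j - a)) := by
  have hl : S.len j = S.n j + 1 := by unfold len; rw [hw]; simp
  have hL := hg j c hw
  cases a with
  | zero =>
    rw [pos_zero]
    simp only [extend]
    omega
  | succ a =>
    by_cases h : a < S.n j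
    · rw [S.pos_succ_of_lt h]
      simp only [extend, hw]
      congr 2
      omega
    · rw [S.pos_succ_of_ge (by omega)]
      have he : S.endv j = c := by unfold endv; rw [hw]; rfl
      rw [he]
      simp only [extend]
      omega

theorem extend_adj {g : C → ℕ} (hg : S.LipP g) {x y : S.V} (h : S.graph.Adj x y) :
    S.extend g x ≤ S.extend g y + 1 := by
  have key : ∀ j i, i < S.len j →
      S.extend g (S.pos j i) ≤ S.extend g (S.pos j (i + 1)) + 1 ∧
      S.extend g (S.pos j (i + 1)) ≤ S.extend g (S.pos j i) + 1 := by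
    intro j i hi
    cases hw : S.w j with
    | none =>
      rw [S.extend_pos_none hw hi.le, S.extend_pos_none hw (by omega)]
      omega
    | some c =>
      rw [S.extend_pos_some hg hw hi.le, S.extend_pos_some hg hw (by omega)]
      omega
  rw [graph, SimpleGraph.fromRel_adj] at h
  rcases h.2 with ⟨j, i, hi, rfl, rfl⟩ | ⟨j, i, hi, rfl, rfl⟩
  · exact (key j i hi).1
  · exact (key j i hi).2

theorem extend_le {g : C → ℕ} (hg : S.LipP g) {x y : S.V} {k : ℕ}
    (h : S.graph.edist x y ≤ (k : ℕ∞)) : S.extend g x ≤ S.extend g y + k := by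
  have hne : S.graph.edist x y ≠ ⊤ := by
    intro h'
    rw [h'] at h
    exact absurd (top_le_iff.mp h) (ENat.natCast_ne_top k)
  obtain ⟨p, hp⟩ := SimpleGraph.exists_walk_of_edist_ne_top hne
  have hlen : p.length ≤ k := by
    rw [← hp] at h
    exact_mod_cast h
  have : ∀ {x y : S.V} (p : S.graph.Walk x y), S.extend g x ≤ S.extend g y + p.length := by
    intro x y p
    induction p with
    | nil => simp
    | cons hadj p ih =>
      have := S.extend_adj hg hadj
      rw [SimpleGraph.Walk.length_cons]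
      omega
  have := this p
  omega

end PathSys

open Classical in
/-- The path system of a core graph with virtual centres. -/
noncomputable def coreSys {C I : Type} [Fintype C] [Fintype I] {t : ℕ} (X : Core C t)
    (cen : I → Cen C) (hval : ∀ i, (cen i).Valid X) : PathSys X where
  J := {p : C × C // X.wt p.1 p.2 ≠ 0} ⊕ I
  fin := inferInstance
  u := Sum.elim (fun p => p.1.1) (fun i => (cen i).u)
  w := Sum.elim (fun p => some p.1.2)
    (fun i => if (cen i).u = (cen i).w ∧ (cen i).l = (cen i).m then none else some (cen i).w)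
  n := Sum.elim (fun p => X.wt p.1.1 p.1.2 - 1)
    (fun i => if (cen i).u = (cen i).w ∧ (cen i).l = (cen i).m then (cen i).l
      else (cen i).l + (cen i).m - 1)
  mem := by
    rintro (p | i) c h
    · simp only [Sum.elim_inl, Option.some.injEq] at h ⊢
      subst h
      exact X.wt_mem _ _ p.2
    · simp only [Sum.elim_inr] at h ⊢
      split at h
      · cases h
      · rename_i h'
        rcases hval i with h1 | h1
        · exact absurd h1 h'
        · simp only [Option.some.injEq] at h
          subst h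
          exact X.wt_mem _ _ h1.2.2.1

theorem exists_coreSys {C I : Type} [Fintype C] [Fintype I] {t : ℕ} (X : Core C t)
    (cen : I → Cen C) (hval : ∀ i, (cen i).Valid X) :
    ∃ (S : PathSys X) (jp : {p : C × C // X.wt p.1 p.2 ≠ 0} → S.J) (jc : I → S.J),
      (∀ p, S.u (jp p) = p.1.1) ∧ (∀ p, S.w (jp p) = some p.1.2) ∧
      (∀ p, S.n (jp p) = X.wt p.1.1 p.1.2 - 1) ∧
      (∀ i, S.u (jc i) = (cen i).u) ∧
      (∀ i, (cen i).u = (cen i).w ∧ (cen i).l = (cen i).m → S.w (jc i) = none) ∧
      (∀ i, ¬ ((cen i).u = (cen i).w ∧ (cen i).l = (cen i).m) → S.w (jc i) = some (cen i).w) ∧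
      (∀ i, (cen i).u = (cen i).w ∧ (cen i).l = (cen i).m → S.n (jc i) = (cen i).l) ∧
      (∀ i, ¬ ((cen i).u = (cen i).w ∧ (cen i).l = (cen i).m) →
        S.n (jc i) = (cen i).l + (cen i).m - 1) ∧
      (∀ j, (∃ p, j = jp p) ∨ ∃ i, j = jc i) := by
  refine ⟨coreSys X cen hval, Sum.inl, Sum.inr, fun p => rfl, fun p => rfl, fun p => rfl,
    fun i => rfl, ?_, ?_, ?_, ?_, ?_⟩
  · intro i h
    exact if_pos h
  · intro i h
    exact if_neg h
  · intro i h
    exact if_pos h
  · intro i h
    exact if_neg h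
  · rintro (p | i)
    · exact Or.inl ⟨p, rfl⟩
    · exact Or.inr ⟨i, rfl⟩

theorem design_of_core {C I : Type} [Fintype C] [Fintype I] {d t r : ℕ} (ht : 2 ≤ t)
    (hr : 2 * r ≤ d) (hr' : d ≤ 2 * r + 1) (X : Core C t) (top : I → C)
    (htop : Function.Injective top) (cen : I → Cen C) (hval : ∀ i, (cen i).Valid X)
    (h1 : ∀ i, (cen i).Reach X (top i) r)
    (h2 : ∀ i j, ∃ x y n₁ n₂ n₃, (cen i).Reach X x n₁ ∧ WR X.wt x y n₂ ∧
      (cen j).Reach X y n₃ ∧ n₁ + n₂ + n₃ ≤ d)
    (h3 : ∀ i, ∃ g : C → ℕ, X.Lip g ∧ (cen i).Far g (r + 1) ∧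
      ∀ x, X.rank (top i) < X.rank x → g x = 0) :
    HasDesign d t (Fintype.card I) := by
  classical
  obtain ⟨S, jp, jc, hup, hwp, hnp, hu, hw1, hw2, hn1, hn2, hJ⟩ := exists_coreSys X cen hval
  -- lengths
  have hlen1 : ∀ p : {p : C × C // X.wt p.1 p.2 ≠ 0}, S.len (jp p) = X.wt p.1.1 p.1.2 := by
    intro p
    have : X.wt p.1.1 p.1.2 ≠ 0 := p.2
    unfold PathSys.len
    rw [hwp, hnp]
    simp only [Option.isSome_some, if_true]
    omega
  have hlen2 : ∀ i, (cen i).u = (cen i).w ∧ (cen i).l = (cen i).m → S.len (jc i) = (cen i).l := by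
    intro i h
    unfold PathSys.len
    rw [hw1 i h, hn1 i h]
    simp
  have hlen3 : ∀ i, ¬ ((cen i).u = (cen i).w ∧ (cen i).l = (cen i).m) →
      S.len (jc i) = (cen i).l + (cen i).m ∧ 0 < (cen i).l ∧ 0 < (cen i).m ∧
        X.wt (cen i).u (cen i).w ≠ 0 ∧ X.wt (cen i).u (cen i).w ≤ (cen i).l + (cen i).m := by
    intro i h
    have h1 := (hval i).resolve_left h
    refine ⟨?_, h1⟩
    unfold PathSys.len
    rw [hw2 i h, hn2 i h]
    simp only [Option.isSome_some, if_true]
    omega
  -- centres
  let v : I → S.V := fun i => S.pos (jc i) (cen i).l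
  have hvu : ∀ i, S.graph.edist (v i) (.inl (cen i).u) ≤ ((cen i).l : ℕ∞) := by
    intro i
    rw [SimpleGraph.edist_comm]
    have h0 : (.inl (cen i).u : S.V) = S.pos (jc i) 0 := by rw [PathSys.pos_zero, hu]
    have h1 : v i = S.pos (jc i) (0 + (cen i).l) := by simp only [v, zero_add]
    rw [h0, h1]
    apply S.edist_pos
    by_cases h : (cen i).u = (cen i).w ∧ (cen i).l = (cen i).m
    · rw [hlen2 i h]; omega
    · rw [(hlen3 i h).1]; omega
  have hvw : ∀ i, S.graph.edist (v i) (.inl (cen i).w) ≤ ((cen i).m : ℕ∞) := by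
    intro i
    by_cases h : (cen i).u = (cen i).w ∧ (cen i).l = (cen i).m
    · have := hvu i
      rw [h.1, h.2] at this
      exact this
    · obtain ⟨hl, hl0, hm0, -, -⟩ := hlen3 i h
      have h0 : (.inl (cen i).w : S.V) = S.pos (jc i) ((cen i).l + (cen i).m) := by
        rw [show (cen i).l + (cen i).m = ((cen i).l + (cen i).m - 1) + 1 by omega,
          S.pos_succ_of_ge (by rw [hn2 i h])]
        unfold PathSys.endv
        rw [hw2 i h]
        rfl
      rw [h0]
      exact S.edist_pos hl.ge
  have hwt : ∀ a b, X.wt a b ≠ 0 → S.graph.edist (.inl a) (.inl b) ≤ (X.wt a b : ℕ∞) := by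
    intro a b hab
    have h1 := S.edist_pos (j := jp ⟨(a, b), hab⟩) (a := 0) (k := X.wt a b)
      (by rw [hlen1]; simp)
    have h0 : S.pos (jp ⟨(a, b), hab⟩) 0 = .inl a := by rw [PathSys.pos_zero, hup]
    have h2 : S.pos (jp ⟨(a, b), hab⟩) (0 + X.wt a b) = .inl b := by
      rw [show 0 + X.wt a b = (X.wt a b - 1) + 1 by omega]
      rw [S.pos_succ_of_ge (by rw [hnp])]
      unfold PathSys.endv
      rw [hwp]
      rfl
    rw [h0, h2] at h1
    exact h1
  have hWR : ∀ a b k, WR X.wt a b k → S.graph.edist (.inl a) (.inl b) ≤ (k : ℕ∞) := by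
    intro a b k h
    induction h with
    | refl u n => simp
    | @fwd u v w n huv _ ih =>
      calc S.graph.edist (.inl u) (.inl w)
          ≤ S.graph.edist (.inl u) (.inl v) + S.graph.edist (.inl v) (.inl w) :=
            SimpleGraph.edist_triangle
        _ ≤ (X.wt u v : ℕ∞) + (n : ℕ∞) := add_le_add (hwt u v huv) ih
        _ = ((X.wt u v + n : ℕ) : ℕ∞) := by push_cast; rfl
    | @bwd u v w n huv _ ih =>
      calc S.graph.edist (.inl u) (.inl w)
          ≤ S.graph.edist (.inl u) (.inl v) + S.graph.edist (.inl v) (.inl w) :=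
            SimpleGraph.edist_triangle
        _ ≤ (X.wt v u : ℕ∞) + (n : ℕ∞) := by
            refine add_le_add ?_ ih
            rw [SimpleGraph.edist_comm]
            exact hwt v u huv
        _ = ((X.wt v u + n : ℕ) : ℕ∞) := by push_cast; rfl
  have hreach : ∀ i x k, (cen i).Reach X x k → S.graph.edist (v i) (.inl x) ≤ (k : ℕ∞) := by
    intro i x k h
    rcases h with ⟨l, hl, hk⟩ | ⟨l, hl, hk⟩
    · calc S.graph.edist (v i) (.inl x)
          ≤ S.graph.edist (v i) (.inl (cen i).u) + S.graph.edist (.inl (cen i).u) (.inl x) :=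
            SimpleGraph.edist_triangle
        _ ≤ ((cen i).l : ℕ∞) + (l : ℕ∞) := add_le_add (hvu i) (hWR _ _ _ hl)
        _ = (((cen i).l + l : ℕ) : ℕ∞) := by push_cast; rfl
        _ ≤ (k : ℕ∞) := by exact_mod_cast hk
    · calc S.graph.edist (v i) (.inl x)
          ≤ S.graph.edist (v i) (.inl (cen i).w) + S.graph.edist (.inl (cen i).w) (.inl x) :=
            SimpleGraph.edist_triangle
        _ ≤ ((cen i).m : ℕ∞) + (l : ℕ∞) := add_le_add (hvw i) (hWR _ _ _ hl)
        _ = (((cen i).m + l : ℕ) : ℕ∞) := by push_cast; rfl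
        _ ≤ (k : ℕ∞) := by exact_mod_cast hk
  let e := (Fintype.equivFin I).symm
  refine ⟨S.V, inferInstance, S.graph, S.elim ht, r, fun a => v (e a), fun a => .inl (top (e a)),
    hr, hr', ?_, ?_, ?_, ?_⟩
  · intro a b hab
    exact e.injective (htop (Sum.inl_injective hab))
  · intro a
    exact hreach _ _ _ (h1 (e a))
  · intro a u hu' hd
    set i := e a with hi
    obtain ⟨g, hL, hF, h0⟩ := h3 i
    have hLP : S.LipP g := by
      intro j c hc
      rcases hJ j with ⟨p, rfl⟩ | ⟨i', rfl⟩
      · have h4 : p.1.2 = c := by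
          rw [hwp] at hc
          exact Option.some.inj hc
        rw [hlen1, hup, ← h4]
        exact hL _ _ p.2
      · by_cases h : (cen i').u = (cen i').w ∧ (cen i').l = (cen i').m
        · rw [hw1 i' h] at hc
          cases hc
        · rw [hw2 i' h] at hc
          obtain ⟨hl, -, -, hw0, hwle⟩ := hlen3 i' h
          have h4 := Option.some.inj hc
          subst h4
          have := hL _ _ hw0
          rw [hl, hu]
          omega
    have h5 : S.extend g (v i) ≤ S.extend g u + r := S.extend_le hLP hd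
    have h6 : S.extend g u = 0 := by
      rcases u with c | ⟨j, k⟩
      · apply h0
        have : S.rank (.inl (top i)) < S.rank (.inl c) := hu'
        rw [PathSys.rank_inl, PathSys.rank_inl] at this
        omega
      · exact absurd hu' (not_lt.mpr (S.rank_lt_u j k _).le)
    have h7 : r + 1 ≤ S.extend g (v i) := by
      by_cases h : (cen i).u = (cen i).w ∧ (cen i).l = (cen i).m
      · change r + 1 ≤ S.extend g (S.pos (jc i) (cen i).l)
        rw [S.extend_pos_none (hw1 i h) (by rw [hlen2 i h]), hu]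
        exact hF.1
      · obtain ⟨hl, -, -, -, -⟩ := hlen3 i h
        change r + 1 ≤ S.extend g (S.pos (jc i) (cen i).l)
        rw [S.extend_pos_some hLP (hw2 i h) (by rw [hl]; omega), hu, hl]
        have h8 := hF.1
        have h9 := hF.2
        rw [show (cen i).l + (cen i).m - (cen i).l = (cen i).m by omega]
        exact le_min h8 h9
    omega
  · intro a b
    obtain ⟨x, y, n₁, n₂, n₃, hx, hxy, hy, hle⟩ := h2 (e a) (e b)
    calc S.graph.edist (v (e a)) (v (e b))
        ≤ S.graph.edist (v (e a)) (.inl x) + S.graph.edist (.inl x) (v (e b)) :=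
          SimpleGraph.edist_triangle
      _ ≤ S.graph.edist (v (e a)) (.inl x) + (S.graph.edist (.inl x) (.inl y) +
          S.graph.edist (.inl y) (v (e b))) := by
          gcongr
          exact SimpleGraph.edist_triangle
      _ ≤ (n₁ : ℕ∞) + ((n₂ : ℕ∞) + (n₃ : ℕ∞)) := by
          refine add_le_add (hreach _ _ _ hx) (add_le_add (hWR _ _ _ hxy) ?_)
          rw [SimpleGraph.edist_comm]
          exact hreach _ _ _ hy
      _ = ((n₁ + n₂ + n₃ : ℕ) : ℕ∞) := by push_cast; ring
      _ ≤ (d : ℕ∞) := by exact_mod_cast hle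

end SubPow
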