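import Pool.Agent.Helper15.Sub.CompNode
import Pool.Agent.Helper15.Sub.Arith
import Pool.Agent.Helper15.Sub.Subdiv

/-!
Block CE: leaf blocks, recursion, and the final designs.

* `block_leaf`: `C = Fin (2r+2-ε)` (`min ε (2r+2-ε) = 2r+2-ε`), `I = Empty`, `P k = {k+1}` (`∅` for the
  last), length 1, `rank k = k`, token certificate `m ↦ k + 1 - m`.
* `hasBlock`: if `ε = r + 1`: leaf, and `AA r s (2r+1) = 0`. If `ε ≤ r`: `block_node` with
  `N a = 2ε + AA r a (4ε-1)` by induction if `2ε ≤ r+1`, with the leaf number `2r+2-2ε` otherwise;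
  `AA_step` resp. `AA_base` for `e = 2ε - 1`.
* `design_even`: block `B` with `s = t`, `ε = 1`; `design_of_core` with index type `Option I`,
  `none ↦` top `tok 0`, centre `(tok 0, r, tok 0, r)`. All centres reach `tok 0` within `r`.
* `design_odd`: blocks `B_a`, `a : Fin t`, capacity `a+1`, scale 1, with `1 + AA r (a+1) 1` nodes.
  Core `Option (Σ a, C_a)`, `y = none` is the youngest, then `C_0, C_1, …`; `P y = {root_a : all a}`,
  `P (a, x) = P_a x ∪ {root_b : b > a}`; lengths: old ones, `y → root_a`: 1, `root_a → root_b`: 1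
  for `b > a`. Index type `Option (Σ a, Option I_a)`: `none ↦` top `y`, centre `(y, r, y, r)`;
  `(a, none) ↦` top `root_a`, centre `(root_a, r, root_a, r)`; `(a, some i) ↦` old. Every centre is
  within `r` of `y` or of some `root_a`, and these are pairwise at distance `≤ 1`. Certificates:
  `none`: `y ↦ 1`, rest `0`; `(a, _)`: the old one on `C_a` (value 1 at `root_a`), `y ↦ 1`,
  `C_b ↦ 1` for `b < a`, `C_b ↦ 0` for `b > a`. Count with `AA_step` for `e = 0`.
-/

namespace SubPow

open Finset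

section leaf

/-- The weights of the path `0 → 1 → ⋯`. -/
def leafWt (T : ℕ) (u v : Fin T) : ℕ := if v.val = u.val + 1 then 1 else 0

theorem leafWt_ne {T : ℕ} {u v : Fin T} (h : leafWt T u v ≠ 0) : v.val = u.val + 1 := by
  by_contra h'
  exact h (if_neg h')

theorem leafWt_eq {T : ℕ} {u v : Fin T} (h : v.val = u.val + 1) : leafWt T u v = 1 := if_pos h

/-- The path. -/
def leafCore (T s : ℕ) (hs : 1 ≤ s) : Core (Fin T) s where
  rank := fun k => k.val
  rank_inj := Fin.val_injective
  P := fun k => univ.filter (fun v => v.val = k.val + 1)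
  older := by
    intro v u hu
    simp only [mem_filter, mem_univ, true_and] at hu
    omega
  card_le := by
    intro v
    refine le_trans ?_ hs
    rw [card_le_one]
    intro a ha b hb
    simp only [mem_filter, mem_univ, true_and] at ha hb
    exact Fin.ext (by omega)
  clique := by
    intro v u w hu hw huw
    simp only [mem_filter, mem_univ, true_and] at hu hw
    omega
  wt := leafWt T
  wt_mem := by
    intro u v h
    simp only [mem_filter, mem_univ, true_and]
    exact leafWt_ne h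

theorem leaf_reach {T : ℕ} : ∀ (k : ℕ) (a b : Fin T), b.val = a.val + k → WR (leafWt T) a b k := by
  intro k
  induction k with
  | zero =>
    intro a b h
    have : a = b := Fin.ext (by omega)
    subst this
    exact WR.refl _ _
  | succ k ih =>
    intro a b h
    have hb := b.isLt
    have hlt : a.val + 1 < T := by omega
    have h1 : leafWt T a ⟨a.val + 1, hlt⟩ = 1 := leafWt_eq rfl
    have h2 := ih ⟨a.val + 1, hlt⟩ b (by simp only; omega)
    have h3 := WR.fwd (wt := leafWt T) (u := a) (v := ⟨a.val + 1, hlt⟩) (w := b) (n := k)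
      (by rw [h1]; exact one_ne_zero) h2
    rw [h1, add_comm] at h3
    exact h3

end leaf

theorem block_leaf {r s ε : ℕ} (hs : 1 ≤ s) (h1 : r + 1 ≤ ε) (h2 : ε ≤ 2 * r + 1) :
    HasBlock r s ε (2 * r + 2 - ε) := by
  have hmin : min ε (2 * r + 2 - ε) = 2 * r + 2 - ε := by omega
  have hpos : 0 < 2 * r + 2 - ε := by omega
  refine ⟨Fin (2 * r + 2 - ε), Empty, inferInstance, inferInstance,
    { toCore := leafCore (2 * r + 2 - ε) s hs
      tok := fun k => if h : k < 2 * r + 2 - ε then ⟨k, h⟩ else ⟨0, hpos⟩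
      top := fun i => i.elim
      top_inj := fun i => i.elim
      tok_inj := ?_
      top_ne_tok := fun i => i.elim
      cen := fun i => i.elim
      valid := fun i => i.elim
      tok_reach := ?_
      tok_cert := ?_
      reach_top := fun i => i.elim
      reach_root := fun i => i.elim
      cert := fun i => i.elim
      idx_le := fun i => i.elim }, ?_⟩
  · intro k l hk hl h
    rw [hmin] at hk hl
    rw [dif_pos hk, dif_pos hl] at h
    exact congrArg Fin.val h
  · intro k hk
    rw [hmin] at hk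
    rw [dif_pos hk, dif_pos hpos]
    exact leaf_reach k _ _ (by simp)
  · intro k hk
    rw [hmin] at hk
    refine ⟨fun x => k + 1 - x.val, ?_, ?_, ?_⟩
    · intro u v h
      have h3 : v.val = u.val + 1 := leafWt_ne h
      have h4 : (leafCore (2 * r + 2 - ε) s hs).wt u v = 1 := leafWt_eq h3
      rw [h4]
      simp only
      omega
    · rw [dif_pos hpos]
      rfl
    · intro x hx
      rw [dif_pos hk] at hx
      have h3 : k < x.val := hx
      simp only
      omega
  · rw [hmin]
    simp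

theorem hasBlock (r : ℕ) : ∀ (ε s : ℕ), 1 ≤ s → 1 ≤ ε → ε ≤ r + 1 →
    HasBlock r s ε (ε + AA r s (2 * ε - 1)) := by
  have key : ∀ (n ε s : ℕ), r + 1 - ε = n → 1 ≤ s → 1 ≤ ε → ε ≤ r + 1 →
      HasBlock r s ε (ε + AA r s (2 * ε - 1)) := by
    intro n
    induction n using Nat.strong_induction_on with
    | _ n ih =>
      intro ε s hn hs hε hεr
      rcases Nat.lt_or_ge r ε with hlt | hle
      · have h1 : ε = r + 1 := by omega
        have h2 : AA r s (2 * ε - 1) = 0 := by
          unfold AA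
          rw [Finset.Icc_eq_empty (by omega), Finset.sum_empty]
        rw [h2]
        have h3 := block_leaf (r := r) (s := s) (ε := ε) hs (by omega) (by omega)
        have h4 : 2 * r + 2 - ε = ε + 0 := by omega
        rwa [h4] at h3
      · rcases Nat.lt_or_ge (r + 1) (2 * ε) with hbig | hsmall
        · have h1 := block_node (r := r) (s := s) (ε := ε) hs hε hle (fun _ => 2 * r + 2 - 2 * ε)
            (fun a ha _ => block_leaf ha (by omega) (by omega))
          rw [Finset.sum_const, Nat.card_Icc, smul_eq_mul] at h1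
          rw [AA_base s (by omega : r < 2 * ε - 1)]
          have h2 : 2 * r + 1 - (2 * ε - 1) = 2 * r + 2 - 2 * ε := by omega
          rw [h2]
          simpa using h1
        · have h1 := block_node (r := r) (s := s) (ε := ε) hs hε hle
            (fun a => 2 * ε + AA r a (2 * (2 * ε) - 1))
            (fun a ha _ => ih (r + 1 - 2 * ε) (by omega) (2 * ε) a rfl ha (by omega) hsmall)
          rw [AA_step s (by omega : 2 * ε - 1 ≤ r)]
          have h2 : 2 * ε - 1 + 1 = 2 * ε := by omega
          have h3 : 2 * (2 * ε - 1) + 1 = 2 * (2 * ε) - 1 := by omega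
          rw [h2, h3]
          have h4 : ∑ a ∈ Icc 1 s, (2 * ε + AA r a (2 * (2 * ε) - 1)) =
              s * (2 * ε) + ∑ l ∈ range (s + 1), AA r l (2 * (2 * ε) - 1) := by
            rw [Finset.sum_add_distrib, Finset.sum_const, Nat.card_Icc, smul_eq_mul,
              Nat.add_sub_cancel, Finset.sum_range_succ', AA_zero, add_zero]
            congr 1
            rw [Finset.range_eq_Ico, Finset.sum_Ico_add' (fun l => AA r l (2 * (2 * ε) - 1)) 0 s 1]
            rfl
          rw [h4] at h1
          exact h1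
  intro ε s
  exact key _ ε s rfl

theorem design_even {r t : ℕ} (hr : 1 ≤ r) (ht : 2 ≤ t) : HasDesign (2 * r) t (1 + AA r t 1) := by
  obtain ⟨C, I, fC, fI, B, hB⟩ := hasBlock r 1 t (by omega) le_rfl (by omega)
  have hmin : min 1 (2 * r + 2 - 1) = 1 := by omega
  have h01 : 0 < min 1 (2 * r + 2 - 1) := by omega
  have hcard : 1 + AA r t 1 = Fintype.card (Option I) := by
    rw [Fintype.card_option]
    rw [hmin] at hB
    exact hB
  rw [hcard]
  refine design_of_core ht le_rfl (by omega) B.toCore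
    (fun i => match i with
      | none => B.tok 0
      | some i => B.top i) ?_
    (fun i => match i with
      | none => ⟨B.tok 0, r, B.tok 0, r⟩
      | some i => B.cen i) ?_ ?_ ?_ ?_
  · intro i j hij
    rcases i with _ | i <;> rcases j with _ | j
    · rfl
    · exact absurd hij.symm (B.top_ne_tok j 0 h01)
    · exact absurd hij (B.top_ne_tok i 0 h01)
    · exact congrArg some (B.top_inj hij)
  · intro i
    rcases i with _ | i
    · exact Or.inl ⟨rfl, rfl⟩
    · exact B.valid i
  · intro i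
    rcases i with _ | i
    · exact Or.inl ⟨0, WR.refl _ _, le_rfl⟩
    · exact B.reach_top i
  · have h : ∀ i : Option I, Cen.Reach (match i with
      | none => (⟨B.tok 0, r, B.tok 0, r⟩ : Cen C)
      | some i => B.cen i) B.toCore (B.tok 0) r := by
      intro i
      rcases i with _ | i
      · exact Or.inl ⟨0, WR.refl _ _, le_rfl⟩
      · exact B.reach_root i
    intro i j
    exact ⟨B.tok 0, B.tok 0, r, 0, r, h i, WR.refl _ _, h j, by omega⟩
  · intro i
    rcases i with _ | i
    · obtain ⟨g, h1, h2, h3⟩ := B.tok_cert 0 h01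
      refine ⟨g, h1, ⟨?_, ?_⟩, h3⟩ <;> simp only [h2] <;> omega
    · obtain ⟨g, h1, _, h3, h4⟩ := B.cert i
      exact ⟨g, h1, h3, h4⟩

section odd

set_option linter.unusedSectionVars false

variable {r t : ℕ} {C I : Fin t → Type} [∀ a, Fintype (C a)]
  (B : ∀ a : Fin t, Block r (a.val + 1) 1 (C a) (I a))

/-- The root of the block `a`. -/
def oRoot (a : Fin t) : C a := (B a).tok 0

/-- A bound for the ranks. -/
def oM : ℕ := ∑ a, ∑ x, ((B a).rank x + 1)

theorem lt_oM (a : Fin t) (x : C a) : (B a).rank x < oM B := by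
  have h1 : (B a).rank x + 1 ≤ ∑ x, ((B a).rank x + 1) :=
    Finset.single_le_sum (f := fun x => (B a).rank x + 1) (fun _ _ => Nat.zero_le _) (mem_univ x)
  have h2 : ∑ x, ((B a).rank x + 1) ≤ oM B :=
    Finset.single_le_sum (f := fun a => ∑ x, ((B a).rank x + 1)) (fun _ _ => Nat.zero_le _)
      (mem_univ a)
  omega

/-- The rank. -/
def oRank : Option (Σ a, C a) → ℕ
  | none => 0
  | some ⟨a, x⟩ => 1 + (a.val * oM B + (B a).rank x)

theorem lex_lt {M a b p q : ℕ} (hp : p < M) (hab : a < b) : a * M + p < b * M + q := by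
  have h1 : (a + 1) * M ≤ b * M := Nat.mul_le_mul_right M hab
  have h2 : (a + 1) * M = a * M + M := by ring
  omega

theorem oRank_lt_of_lt {a b : Fin t} (h : a < b) (x : C a) (y : C b) :
    oRank B (some ⟨a, x⟩) < oRank B (some ⟨b, y⟩) := by
  have := lex_lt (q := (B b).rank y) (lt_oM B a x) (show a.val < b.val from h)
  simp only [oRank]
  omega

theorem oRank_lt_same {a : Fin t} {x y : C a} :
    oRank B (some ⟨a, x⟩) < oRank B (some ⟨a, y⟩) ↔ (B a).rank x < (B a).rank y := by
  simp only [oRank]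
  omega

theorem oRank_inj : Function.Injective (oRank B) := by
  rintro (_ | ⟨a, x⟩) (_ | ⟨b, y⟩) h
  · rfl
  · simp only [oRank] at h
    omega
  · simp only [oRank] at h
    omega
  · rcases lt_trichotomy a b with h1 | h1 | h1
    · exact absurd h (oRank_lt_of_lt B h1 x y).ne
    · subst h1
      have h2 : (B a).rank x = (B a).rank y := by
        simp only [oRank] at h
        omega
      rw [(B a).rank_inj h2]
    · exact absurd h (oRank_lt_of_lt B h1 y x).ne'

open Classical in
/-- Older neighbours. -/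
noncomputable def oP : Option (Σ a, C a) → Finset (Option (Σ a, C a))
  | none => univ.image (fun b => some ⟨b, oRoot B b⟩)
  | some ⟨a, x⟩ => ((B a).P x).image (fun x' => some ⟨a, x'⟩) ∪
      (Finset.Ioi a).image (fun b => some ⟨b, oRoot B b⟩)

theorem mem_oP_none {u : Option (Σ a, C a)} :
    u ∈ oP B none ↔ ∃ b, u = some ⟨b, oRoot B b⟩ := by
  simp only [oP, mem_image, mem_univ, true_and]
  exact exists_congr fun b => eq_comm

theorem mem_oP_some {a : Fin t} {x : C a} {u : Option (Σ a, C a)} :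
    u ∈ oP B (some ⟨a, x⟩) ↔ (∃ x' ∈ (B a).P x, u = some ⟨a, x'⟩) ∨
      ∃ b, a < b ∧ u = some ⟨b, oRoot B b⟩ := by
  simp only [oP, mem_union, mem_image, mem_Ioi]
  constructor
  · rintro (⟨x', h1, h2⟩ | ⟨b, h1, h2⟩)
    · exact Or.inl ⟨x', h1, h2.symm⟩
    · exact Or.inr ⟨b, h1, h2.symm⟩
  · rintro (⟨x', h1, h2⟩ | ⟨b, h1, h2⟩)
    · exact Or.inl ⟨x', h1, h2.symm⟩
    · exact Or.inr ⟨b, h1, h2.symm⟩

open Classical in
/-- The weights. -/
noncomputable def oWt : Option (Σ a, C a) → Option (Σ a, C a) → ℕ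
  | none, none => 0
  | none, some ⟨b, y⟩ => if y = oRoot B b then 1 else 0
  | some _, none => 0
  | some ⟨a, x⟩, some ⟨b, y⟩ =>
      if h : a = b then (B b).wt (h ▸ x) y
      else if a < b ∧ x = oRoot B a ∧ y = oRoot B b then 1 else 0

theorem oWt_same (a : Fin t) (x y : C a) :
    oWt B (some ⟨a, x⟩) (some ⟨a, y⟩) = (B a).wt x y := by
  simp [oWt]

theorem oWt_none_root (b : Fin t) : oWt B none (some ⟨b, oRoot B b⟩) = 1 := by
  simp [oWt]

theorem oWt_root_root {a b : Fin t} (h : a < b) :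
    oWt B (some ⟨a, oRoot B a⟩) (some ⟨b, oRoot B b⟩) = 1 := by
  simp [oWt, h.ne, h]

/-- The edges. -/
theorem oWt_cases {u v : Option (Σ a, C a)} (h : oWt B u v ≠ 0) :
    (∃ b, u = none ∧ v = some ⟨b, oRoot B b⟩) ∨
    (∃ a x y, u = some ⟨a, x⟩ ∧ v = some ⟨a, y⟩ ∧ (B a).wt x y ≠ 0) ∨
    (∃ a b, a < b ∧ u = some ⟨a, oRoot B a⟩ ∧ v = some ⟨b, oRoot B b⟩) := by
  rcases u with _ | ⟨a, x⟩ <;> rcases v with _ | ⟨b, y⟩
  · exact absurd rfl h
  · left
    by_cases hy : y = oRoot B b
    · exact ⟨b, rfl, by rw [hy]⟩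
    · simp [oWt, hy] at h
  · exact absurd rfl h
  · right
    by_cases hab : a = b
    · subst hab
      left
      refine ⟨a, x, y, rfl, rfl, ?_⟩
      rwa [oWt_same] at h
    · right
      by_cases hc : a < b ∧ x = oRoot B a ∧ y = oRoot B b
      · exact ⟨a, b, hc.1, by rw [hc.2.1], by rw [hc.2.2]⟩
      · exfalso
        apply h
        simp only [oWt]
        rw [dif_neg hab, if_neg hc]

/-- The core of the odd design. -/
noncomputable def oCore : Core (Option (Σ a, C a)) t where
  rank := oRank B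
  rank_inj := oRank_inj B
  P := oP B
  older := by
    intro v u hu
    rcases v with _ | ⟨a, x⟩
    · obtain ⟨b, rfl⟩ := (mem_oP_none B).mp hu
      simp only [oRank]
      omega
    · rcases (mem_oP_some B).mp hu with ⟨x', h1, rfl⟩ | ⟨b, h1, rfl⟩
      · exact (oRank_lt_same B).mpr ((B a).older _ _ h1)
      · exact oRank_lt_of_lt B h1 _ _
  card_le := by
    classical
    intro v
    rcases v with _ | ⟨a, x⟩
    · simp only [oP]
      exact card_image_le.trans (by simp)
    · simp only [oP]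
      refine (card_union_le _ _).trans ?_
      refine (add_le_add card_image_le card_image_le).trans ?_
      have h1 := (B a).card_le x
      have h2 : (Finset.Ioi a).card = t - 1 - a.val := Fin.card_Ioi a
      have h3 := a.isLt
      omega
  clique := by
    intro v u w hu hw huw
    have hroot : ∀ b c : Fin t, oRank B (some ⟨b, oRoot B b⟩) < oRank B (some ⟨c, oRoot B c⟩) →
        some ⟨c, oRoot B c⟩ ∈ oP B (some ⟨b, oRoot B b⟩) := by
      intro b c h
      rcases lt_trichotomy b c with h1 | h1 | h1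
      · exact (mem_oP_some B).mpr (Or.inr ⟨c, h1, rfl⟩)
      · subst h1
        exact absurd h (lt_irrefl _)
      · exact absurd h (oRank_lt_of_lt B h1 _ _).not_gt
    rcases v with _ | ⟨a, x⟩
    · obtain ⟨b, rfl⟩ := (mem_oP_none B).mp hu
      obtain ⟨c, rfl⟩ := (mem_oP_none B).mp hw
      exact hroot b c huw
    · rcases (mem_oP_some B).mp hu with ⟨x', h1, rfl⟩ | ⟨b, h1, rfl⟩
      · rcases (mem_oP_some B).mp hw with ⟨y', h2, rfl⟩ | ⟨c, h2, rfl⟩
        · exact (mem_oP_some B).mpr (Or.inl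
            ⟨y', (B a).clique x x' y' h1 h2 ((oRank_lt_same B).mp huw), rfl⟩)
        · exact (mem_oP_some B).mpr (Or.inr ⟨c, h2, rfl⟩)
      · rcases (mem_oP_some B).mp hw with ⟨y', h2, rfl⟩ | ⟨c, h2, rfl⟩
        · exact absurd huw (oRank_lt_of_lt B h1 _ _).not_gt
        · exact hroot b c huw
  wt := oWt B
  wt_mem := by
    intro u v h
    rcases oWt_cases B h with ⟨b, rfl, rfl⟩ | ⟨a, x, y, rfl, rfl, h1⟩ | ⟨a, b, h1, rfl, rfl⟩
    · exact (mem_oP_none B).mpr ⟨b, rfl⟩
    · exact (mem_oP_some B).mpr (Or.inl ⟨y, (B a).wt_mem x y h1, rfl⟩)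
    · exact (mem_oP_some B).mpr (Or.inr ⟨b, h1, rfl⟩)

theorem oWR (a : Fin t) {x y : C a} {n : ℕ} (h : WR (B a).wt x y n) :
    WR (oWt B) (some ⟨a, x⟩) (some ⟨a, y⟩) n := by
  induction h with
  | refl u n => exact WR.refl _ _
  | @fwd u v w n h1 _ ih =>
    have h2 := WR.fwd (wt := oWt B) (u := some ⟨a, u⟩) (v := some ⟨a, v⟩)
      (by rw [oWt_same]; exact h1) ih
    rwa [oWt_same] at h2
  | @bwd u v w n h1 _ ih =>
    have h2 := WR.bwd (wt := oWt B) (u := some ⟨a, u⟩) (v := some ⟨a, v⟩)
      (by rw [oWt_same]; exact h1) ih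
    rwa [oWt_same] at h2

/-- The image of a centre. -/
def oCen (a : Fin t) (c : Cen (C a)) : Cen (Option (Σ a, C a)) :=
  ⟨some ⟨a, c.u⟩, c.l, some ⟨a, c.w⟩, c.m⟩

theorem oCen_valid (a : Fin t) {c : Cen (C a)} (h : c.Valid (B a).toCore) :
    (oCen a c).Valid (oCore B) := by
  rcases h with ⟨h1, h2⟩ | ⟨h1, h2, h3, h4⟩
  · exact Or.inl ⟨by simp [oCen, h1], h2⟩
  · refine Or.inr ⟨h1, h2, ?_, ?_⟩
    · change oWt B (some ⟨a, c.u⟩) (some ⟨a, c.w⟩) ≠ 0
      rwa [oWt_same]
    · change oWt B (some ⟨a, c.u⟩) (some ⟨a, c.w⟩) ≤ c.l + c.m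
      rwa [oWt_same]

theorem oCen_reach (a : Fin t) {c : Cen (C a)} {x : C a} {n : ℕ}
    (h : c.Reach (B a).toCore x n) : (oCen a c).Reach (oCore B) (some ⟨a, x⟩) n := by
  rcases h with ⟨k, h1, h2⟩ | ⟨k, h1, h2⟩
  · exact Or.inl ⟨k, oWR B a h1, h2⟩
  · exact Or.inr ⟨k, oWR B a h1, h2⟩

/-- The certificate. -/
def oCert (a : Fin t) (g : C a → ℕ) : Option (Σ a, C a) → ℕ
  | none => 1
  | some ⟨b, x⟩ => if h : b = a then g (h ▸ x) else if b < a then 1 else 0

theorem oCert_same (a : Fin t) (g : C a → ℕ) (x : C a) : oCert a g (some ⟨a, x⟩) = g x := by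
  simp [oCert]

theorem oCert_other {a b : Fin t} (g : C a → ℕ) (x : C b) (h : b ≠ a) :
    oCert a g (some ⟨b, x⟩) = if b < a then 1 else 0 := by
  simp only [oCert]
  rw [dif_neg h]

theorem oCert_root_le (a b : Fin t) (g : C a → ℕ) (hg : g (oRoot B a) = 1) :
    oCert a g (some ⟨b, oRoot B b⟩) ≤ 1 := by
  by_cases h : b = a
  · subst h
    rw [oCert_same, hg]
  · rw [oCert_other g _ h]
    split_ifs <;> omega

theorem oCert_lip (a : Fin t) (g : C a → ℕ) (hg : g (oRoot B a) = 1)
    (hl : (B a).toCore.Lip g) : (oCore B).Lip (oCert a g) := by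
  intro u v h
  change oWt B u v ≠ 0 at h
  change oCert a g u ≤ oCert a g v + oWt B u v ∧ oCert a g v ≤ oCert a g u + oWt B u v
  rcases oWt_cases B h with ⟨b, rfl, rfl⟩ | ⟨c, x, y, rfl, rfl, h1⟩ | ⟨c, b, h1, rfl, rfl⟩
  · rw [oWt_none_root]
    have h1 := oCert_root_le B a b g hg
    have h2 : oCert a g none = 1 := rfl
    omega
  · rw [oWt_same]
    by_cases hc : c = a
    · subst hc
      rw [oCert_same, oCert_same]
      exact hl x y h1
    · rw [oCert_other g _ hc, oCert_other g _ hc]
      omega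
  · rw [oWt_root_root B h1]
    have h2 := oCert_root_le B a c g hg
    have h3 := oCert_root_le B a b g hg
    omega

theorem oCert_zero (a : Fin t) (g : C a → ℕ) (x₀ : C a)
    (h0 : ∀ x, (B a).rank x₀ < (B a).rank x → g x = 0) (u : Option (Σ a, C a))
    (hu : oRank B (some ⟨a, x₀⟩) < oRank B u) : oCert a g u = 0 := by
  rcases u with _ | ⟨b, y⟩
  · simp only [oRank] at hu
    omega
  · rcases lt_trichotomy a b with h | h | h
    · rw [oCert_other g _ h.ne', if_neg h.not_gt]
    · subst h
      rw [oCert_same]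
      exact h0 y ((oRank_lt_same B).mp hu)
    · exact absurd hu (oRank_lt_of_lt B h _ _).not_gt

theorem oWR_root (p q : Option (Σ a, C a)) (hp : p = none ∨ ∃ a, p = some ⟨a, oRoot B a⟩)
    (hq : q = none ∨ ∃ a, q = some ⟨a, oRoot B a⟩) : WR (oWt B) p q 1 := by
  rcases hp with rfl | ⟨a, rfl⟩ <;> rcases hq with rfl | ⟨b, rfl⟩
  · exact WR.refl _ _
  · have h := WR.fwd (wt := oWt B) (u := none) (v := some ⟨b, oRoot B b⟩)
      (by rw [oWt_none_root]; exact one_ne_zero) (WR.refl _ 0)
    rwa [oWt_none_root] at h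
  · have h := WR.bwd (wt := oWt B) (u := some ⟨a, oRoot B a⟩) (v := none)
      (by rw [oWt_none_root]; exact one_ne_zero) (WR.refl _ 0)
    rwa [oWt_none_root] at h
  · rcases lt_trichotomy a b with h1 | h1 | h1
    · have h := WR.fwd (wt := oWt B) (u := some ⟨a, oRoot B a⟩) (v := some ⟨b, oRoot B b⟩)
        (by rw [oWt_root_root B h1]; exact one_ne_zero) (WR.refl _ 0)
      rwa [oWt_root_root B h1] at h
    · subst h1
      exact WR.refl _ _
    · have h := WR.bwd (wt := oWt B) (u := some ⟨a, oRoot B a⟩) (v := some ⟨b, oRoot B b⟩)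
        (by rw [oWt_root_root B h1]; exact one_ne_zero) (WR.refl _ 0)
      rwa [oWt_root_root B h1] at h

/-- The oldest vertices. -/
def oTop : Option (Σ a, Option (I a)) → Option (Σ a, C a)
  | none => none
  | some ⟨a, none⟩ => some ⟨a, oRoot B a⟩
  | some ⟨a, some i⟩ => some ⟨a, (B a).top i⟩

/-- The centres. -/
def oCens : Option (Σ a, Option (I a)) → Cen (Option (Σ a, C a))
  | none => ⟨none, r, none, r⟩
  | some ⟨a, none⟩ => ⟨some ⟨a, oRoot B a⟩, r, some ⟨a, oRoot B a⟩, r⟩
  | some ⟨a, some i⟩ => oCen a ((B a).cen i)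

theorem oTop_inj : Function.Injective (oTop B) := by
  have h01 : 0 < min 1 (2 * r + 2 - 1) := by omega
  rintro (_ | ⟨a, _ | i⟩) (_ | ⟨b, _ | j⟩) h
  · rfl
  · simp [oTop] at h
  · simp [oTop] at h
  · simp [oTop] at h
  · simp only [oTop, Option.some.injEq, Sigma.mk.injEq] at h
    obtain ⟨rfl, -⟩ := h
    rfl
  · simp only [oTop, Option.some.injEq, Sigma.mk.injEq] at h
    obtain ⟨rfl, h⟩ := h
    exact absurd (eq_of_heq h).symm ((B a).top_ne_tok j 0 h01)
  · simp [oTop] at h
  · simp only [oTop, Option.some.injEq, Sigma.mk.injEq] at h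
    obtain ⟨rfl, h⟩ := h
    exact absurd (eq_of_heq h) ((B a).top_ne_tok i 0 h01)
  · simp only [oTop, Option.some.injEq, Sigma.mk.injEq] at h
    obtain ⟨rfl, h⟩ := h
    rw [(B a).top_inj (eq_of_heq h)]

end odd

theorem design_odd {r t : ℕ} (hr : 1 ≤ r) (ht : 2 ≤ t) :
    HasDesign (2 * r + 1) t (1 + AA r t 0) := by
  have hmin : min 1 (2 * r + 2 - 1) = 1 := by omega
  have h01 : 0 < min 1 (2 * r + 2 - 1) := by omega
  choose C I fC fI B hB using fun a : Fin t => hasBlock r 1 (a.val + 1) (by omega) le_rfl (by omega)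
  have hcard : 1 + AA r t 0 = Fintype.card (Option (Σ a, Option (I a))) := by
    rw [Fintype.card_option, Fintype.card_sigma, AA_step t (Nat.zero_le r)]
    have h1 : ∀ a : Fin t, Fintype.card (Option (I a)) = 1 + AA r (a.val + 1) 1 := by
      intro a
      rw [Fintype.card_option]
      have := hB a
      rw [hmin] at this
      exact this.symm
    rw [Finset.sum_congr rfl (fun a _ => h1 a), Finset.sum_add_distrib,
      Finset.sum_range_succ', AA_zero, Fin.sum_univ_eq_sum_range (fun l => AA r (l + 1) 1) t]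
    simp only [Finset.sum_const, Finset.card_univ, Fintype.card_fin, smul_eq_mul, mul_one,
      Nat.mul_zero, Nat.zero_add, add_zero]
    ring
  rw [hcard]
  have hroot : ∀ j : Option (Σ a, Option (I a)), ∃ p : Option (Σ a, C a),
      (p = none ∨ ∃ a, p = some ⟨a, oRoot B a⟩) ∧ (oCens B j).Reach (oCore B) p r := by
    rintro (_ | ⟨a, _ | i⟩)
    · exact ⟨none, Or.inl rfl, Or.inl ⟨0, WR.refl _ _, le_rfl⟩⟩
    · exact ⟨_, Or.inr ⟨a, rfl⟩, Or.inl ⟨0, WR.refl _ _, le_rfl⟩⟩
    · exact ⟨_, Or.inr ⟨a, rfl⟩, oCen_reach B a ((B a).reach_root i)⟩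
  refine design_of_core ht (by omega) le_rfl (oCore B) (oTop B) (oTop_inj B) (oCens B)
    ?_ ?_ ?_ ?_
  · rintro (_ | ⟨a, _ | i⟩)
    · exact Or.inl ⟨rfl, rfl⟩
    · exact Or.inl ⟨rfl, rfl⟩
    · exact oCen_valid B a ((B a).valid i)
  · rintro (_ | ⟨a, _ | i⟩)
    · exact Or.inl ⟨0, WR.refl _ _, le_rfl⟩
    · exact Or.inl ⟨0, WR.refl _ _, le_rfl⟩
    · exact oCen_reach B a ((B a).reach_top i)
  · intro i j
    obtain ⟨p, hp, hp'⟩ := hroot i
    obtain ⟨q, hq, hq'⟩ := hroot j
    exact ⟨p, q, r, 1, r, hp', oWR_root B p q hp hq, hq', by omega⟩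
  · rintro (_ | ⟨a, _ | i⟩)
    · refine ⟨fun u => if u = none then 1 else 0, ?_, ⟨?_, ?_⟩, ?_⟩
      · intro u v h
        change oWt B u v ≠ 0 at h
        change (if u = none then 1 else 0) ≤ (if v = none then 1 else 0) + oWt B u v ∧
          (if v = none then 1 else 0) ≤ (if u = none then 1 else 0) + oWt B u v
        have h1 : 1 ≤ oWt B u v := Nat.one_le_iff_ne_zero.mpr h
        split_ifs <;> omega
      · simp only [oCens, if_true]
        omega
      · simp only [oCens, if_true]
        omega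
      · intro x hx
        rcases x with _ | x
        · exact absurd hx (lt_irrefl _)
        · simp
    · obtain ⟨g, h1, h2, h3⟩ := (B a).tok_cert 0 h01
      have h4 : oCert a g (some ⟨a, oRoot B a⟩) = 1 := by
        rw [oCert_same]
        exact h2
      refine ⟨oCert a g, oCert_lip B a g h2 h1, ⟨?_, ?_⟩, ?_⟩
      · simp only [oCens, h4]
        omega
      · simp only [oCens, h4]
        omega
      · exact fun x hx => oCert_zero B a g _ h3 x hx
    · obtain ⟨g, h1, h2, h3, h4⟩ := (B a).cert i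
      refine ⟨oCert a g, oCert_lip B a g h2 h1, ⟨?_, ?_⟩, ?_⟩
      · simp only [oCens, oCen, oCert_same]
        exact h3.1
      · simp only [oCens, oCen, oCert_same]
        exact h3.2
      · exact fun x hx => oCert_zero B a g _ h4 x hx

end SubPow
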