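import Pool.Agent.Helper15.Sub.LowDefs

/-!
Block CN: composition of blocks.

Given blocks `B_a` (`a : Fin s`, capacity `a + 1`, scale `2ε`, `tk' = min (2ε) (2r+2-2ε)` tokens),
core `C = Fin ε ⊕ Σ a, C_a`. Rank: tokens first (`0 < 1 < … < ε-1`), then `C_0`, `C_1`, …
`P (tok k) = {p (k+1)} ∪ {root_b : b ≥ 1}`, where `p m = tok m` for `m < ε`, `p ε = root_0`;
`P (a, x) = P_a x ∪ {root_b : b > a}`; here `root_b = (b, tok_b 0)`.
Lengths: `p k → p (k+1)`: 1; `tok 0 → root_b`: `ε` for `b ≥ 1`; inside `C_a` the old ones.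
Index type `Σ a, (I_a ⊕ Fin tk')`: `(a, inl i)`: top `(a, top_a i)`, centre the image of `cen_a i`;
`(a, inr k)`: top `(a, tok_a k)`, and the centre is
 * `a ≥ 1`, `k < r`: `(tok 0, r+1-ε, root_a, r-k)`;
 * `a ≥ 1`, `k = r` (then `2ε = r+1`): `(root_a, 0, root_a, 0)`;
 * `a = 0`, `k = 2j`: `(p_j, r+1-ε-j, p_{j+1}, r+1-ε-j)`;
 * `a = 0`, `k = 2j+1`: `(p_{j+1}, r-ε-j, p_{j+1}, r-ε-j)`.
-/

namespace SubPow

open Finset

theorem WR.mono {C : Type*} {wt : C → C → ℕ} {u v : C} {n m : ℕ} (h : WR wt u v n)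
    (hnm : n ≤ m) : WR wt u v m := by
  induction h generalizing m with
  | refl u n => exact WR.refl u m
  | @fwd u v w n huv hvw ih =>
    have h1 : m = wt u v + (m - wt u v) := by omega
    rw [h1]
    exact WR.fwd huv (ih (by omega))
  | @bwd u v w n huv hvw ih =>
    have h1 : m = wt v u + (m - wt v u) := by omega
    rw [h1]
    exact WR.bwd huv (ih (by omega))

theorem WR.trans {C : Type*} {wt : C → C → ℕ} {u v w : C} {n m : ℕ} (h : WR wt u v n)
    (h' : WR wt v w m) : WR wt u w (n + m) := by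
  induction h with
  | refl u n => exact h'.mono (by omega)
  | @fwd u v w' n huv hvw ih =>
    rw [add_assoc]
    exact WR.fwd huv (ih h')
  | @bwd u v w' n huv hvw ih =>
    rw [add_assoc]
    exact WR.bwd huv (ih h')

theorem WR.symm {C : Type*} {wt : C → C → ℕ} {u v : C} {n : ℕ} (h : WR wt u v n) :
    WR wt v u n := by
  induction h with
  | refl u n => exact WR.refl u n
  | @fwd u v w' n huv hvw ih =>
    have h2 : WR wt v u (wt u v + 0) := WR.bwd huv (WR.refl u 0)
    exact (ih.trans h2).mono (by omega)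
  | @bwd u v w' n huv hvw ih =>
    have h2 : WR wt v u (wt v u + 0) := WR.fwd huv (WR.refl u 0)
    exact (ih.trans h2).mono (by omega)

namespace Node

variable {r s ε : ℕ} {D I : Fin s → Type}

/-- vertices of the composed core -/
abbrev NC (ε : ℕ) {s : ℕ} (D : Fin s → Type) : Type := Fin ε ⊕ (Σ a : Fin s, D a)

section

variable (B : ∀ a : Fin s, Block r ((a : ℕ) + 1) (2 * ε) (D a) (I a)) (z : Fin s) (M : ℕ)

/-- the root of the `b`-th block -/
def root (b : Fin s) : NC ε D := Sum.inr ⟨b, (B b).tok 0⟩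

/-- the path of the tokens, ended by the root of the first block -/
def p (m : ℕ) : NC ε D := if h : m < ε then Sum.inl ⟨m, h⟩ else root B z

/-- rank -/
def rk : NC ε D → ℕ
  | Sum.inl k => k
  | Sum.inr x => ε + (x.1 : ℕ) * M + (B x.1).rank x.2

open Classical in
/-- the older neighbours -/
noncomputable def nP : NC ε D → Finset (NC ε D)
  | Sum.inl k => insert (p B z (k + 1)) ((univ.filter (fun b : Fin s => b ≠ z)).image (root B))
  | Sum.inr x => ((B x.1).P x.2).image (fun y => (Sum.inr ⟨x.1, y⟩ : NC ε D)) ∪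
      (univ.filter (fun b : Fin s => x.1 < b)).image (root B)

open Classical in
/-- lengths -/
noncomputable def nW : NC ε D → NC ε D → ℕ
  | Sum.inl k, v => if v = p B z (k + 1) then 1 else
      if (k : ℕ) = 0 ∧ ∃ b : Fin s, b ≠ z ∧ v = root B b then ε else 0
  | Sum.inr _, Sum.inl _ => 0
  | Sum.inr x, Sum.inr y => if h : y.1 = x.1 then (B x.1).wt x.2 (h ▸ y.2) else 0

theorem nW_inr (a : Fin s) (x y : D a) :
    nW B z (Sum.inr ⟨a, x⟩) (Sum.inr ⟨a, y⟩) = (B a).wt x y := by
  simp [nW]

theorem rk_lt_inr (hM : ∀ a x, (B a).rank x < M) {a b : Fin s} (hab : a < b) (x : D a) (y : D b) :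
    rk B M (Sum.inr ⟨a, x⟩) < rk B M (Sum.inr ⟨b, y⟩) := by
  have h1 := hM a x
  have h2 : ((a : ℕ) + 1) * M ≤ (b : ℕ) * M := Nat.mul_le_mul_right _ hab
  have h3 : ((a : ℕ) + 1) * M = (a : ℕ) * M + M := by ring
  simp only [rk]
  omega

theorem rk_inl_lt (k : Fin ε) (y : Σ a : Fin s, D a) :
    rk B M (Sum.inl k) < rk B M (Sum.inr y) := by
  simp only [rk]
  have := k.2
  omega

theorem le_of_rk_le (hM : ∀ a x, (B a).rank x < M) {a b : Fin s} {x : D a} {y : D b}
    (h : rk B M (Sum.inr ⟨a, x⟩) ≤ rk B M (Sum.inr ⟨b, y⟩)) : a ≤ b := by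
  by_contra hc
  have := rk_lt_inr B M hM (not_le.mp hc) y x
  omega

theorem rk_inj (hM : ∀ a x, (B a).rank x < M) : Function.Injective (rk B M) := by
  intro u v huv
  rcases u with k | ⟨a, x⟩ <;> rcases v with l | ⟨b, y⟩
  · simp only [rk] at huv
    rw [Fin.ext huv]
  · have := rk_inl_lt B M k ⟨b, y⟩
    omega
  · have := rk_inl_lt B M l ⟨a, x⟩
    omega
  · have h1 := le_of_rk_le B M hM huv.le
    have h2 := le_of_rk_le B M hM huv.ge
    have hab : a = b := le_antisymm h1 h2
    subst hab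
    simp only [rk] at huv
    have h3 : (B a).rank x = (B a).rank y := by omega
    rw [(B a).rank_inj h3]

theorem rk_p_succ (k : Fin ε) : rk B M (Sum.inl k) < rk B M (p B z (k + 1)) := by
  unfold p
  split_ifs with h
  · simp [rk]
  · exact rk_inl_lt B M k _

theorem nW_mem (u v : NC ε D) (h : nW B z u v ≠ 0) : v ∈ nP B z u := by
  classical
  rcases u with k | x
  · simp only [nW] at h
    simp only [nP, mem_insert, mem_image, mem_filter, mem_univ, true_and]
    split_ifs at h with h1 h2
    · exact Or.inl h1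
    · obtain ⟨-, b, hb, hv⟩ := h2
      exact Or.inr ⟨b, hb, hv.symm⟩
    · exact absurd rfl h
  · rcases v with l | y
    · simp [nW] at h
    · obtain ⟨a, x⟩ := x
      obtain ⟨b, y⟩ := y
      simp only [nW] at h
      split_ifs at h with h1
      · subst h1
        simp only [nP, mem_union, mem_image]
        exact Or.inl ⟨y, (B b).wt_mem _ _ h, rfl⟩
      · exact absurd rfl h

theorem nP_older (hM : ∀ a x, (B a).rank x < M) (v u : NC ε D) (h : u ∈ nP B z v) :
    rk B M v < rk B M u := by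
  classical
  rcases v with k | ⟨a, x⟩
  · simp only [nP, mem_insert, mem_image, mem_filter, mem_univ, true_and] at h
    rcases h with h | ⟨b, hb, rfl⟩
    · rw [h]
      exact rk_p_succ B z M k
    · exact rk_inl_lt B M k _
  · simp only [nP, mem_union, mem_image, mem_filter, mem_univ, true_and] at h
    rcases h with ⟨y, hy, rfl⟩ | ⟨b, hb, rfl⟩
    · have := (B a).older _ _ hy
      simp only [rk]
      omega
    · exact rk_lt_inr B M hM hb _ _

theorem nP_card (hz : (z : ℕ) = 0) (v : NC ε D) : (nP B z v).card ≤ s := by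
  classical
  have hs := z.2
  rcases v with k | ⟨a, x⟩
  · simp only [nP]
    refine (card_insert_le _ _).trans ?_
    have h1 : ((univ.filter (fun b : Fin s => b ≠ z)).image (root B)).card ≤ s - 1 := by
      refine card_image_le.trans ?_
      rw [filter_ne' univ z, card_erase_of_mem (mem_univ _), card_univ, Fintype.card_fin]
    omega
  · simp only [nP]
    refine (card_union_le _ _).trans ?_
    have h1 : (((B a).P x).image (fun y => (Sum.inr ⟨a, y⟩ : NC ε D))).card ≤ (a : ℕ) + 1 :=
      card_image_le.trans ((B a).card_le x)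
    have h2 : ((univ.filter (fun b : Fin s => a < b)).image (root B)).card ≤ s - 1 - a := by
      refine card_image_le.trans ?_
      have h3 : (univ.filter (fun b : Fin s => a < b)) = Ioi a := by ext; simp
      rw [h3, Fin.card_Ioi]
    have := a.2
    omega

theorem nP_clique (hz : (z : ℕ) = 0) (hM : ∀ a x, (B a).rank x < M) (v u w : NC ε D)
    (hu : u ∈ nP B z v) (hw : w ∈ nP B z v) (huw : rk B M u < rk B M w) : w ∈ nP B z u := by
  classical
  have hroot : ∀ b c : Fin s, rk B M (root B b) < rk B M (root B c) →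
      root B c ∈ nP B z (root B b) := by
    intro b c hbc
    have h1 : b ≤ c := le_of_rk_le B M hM hbc.le
    have h2 : b ≠ c := by
      rintro rfl
      omega
    show root B c ∈ nP B z (Sum.inr ⟨b, _⟩)
    simp only [nP, mem_union, mem_image, mem_filter, mem_univ, true_and]
    exact Or.inr ⟨c, lt_of_le_of_ne h1 h2, rfl⟩
  rcases v with k | ⟨a, x⟩
  · simp only [nP, mem_insert, mem_image, mem_filter, mem_univ, true_and] at hu hw
    rcases hu with hu | ⟨b, hb, rfl⟩
    · rcases hw with hw | ⟨c, hc, rfl⟩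
      · rw [hu, hw] at huw
        exact absurd huw (lt_irrefl _)
      · rw [hu] at huw ⊢
        unfold p at huw ⊢
        split_ifs with h
        · simp only [nP, mem_insert, mem_image, mem_filter, mem_univ, true_and]
          exact Or.inr ⟨c, hc, rfl⟩
        · rw [dif_neg h] at huw
          exact hroot _ _ huw
    · rcases hw with hw | ⟨c, hc, rfl⟩
      · exfalso
        rw [hw] at huw
        unfold p at huw
        split_ifs at huw with h
        · have := rk_inl_lt B M ⟨k + 1, h⟩ (⟨b, (B b).tok 0⟩ : Σ a : Fin s, D a)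
          exact absurd huw (not_lt.mpr this.le)
        · have h2 : z < b := by
            rw [Fin.lt_def]
            have : (b : ℕ) ≠ z := fun h' => hb (Fin.ext h')
            omega
          exact absurd huw (not_lt.mpr (rk_lt_inr B M hM h2 _ _).le)
      · exact hroot _ _ huw
  · simp only [nP, mem_union, mem_image, mem_filter, mem_univ, true_and] at hu hw
    rcases hu with ⟨y, hy, rfl⟩ | ⟨b, hb, rfl⟩
    · rcases hw with ⟨y', hy', rfl⟩ | ⟨c, hc, rfl⟩
      · have h3 : (B a).rank y < (B a).rank y' := by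
          simp only [rk] at huw
          omega
        simp only [nP, mem_union, mem_image]
        exact Or.inl ⟨y', (B a).clique x y y' hy hy' h3, rfl⟩
      · simp only [nP, mem_union, mem_image, mem_filter, mem_univ, true_and]
        exact Or.inr ⟨c, hc, rfl⟩
    · rcases hw with ⟨y', hy', rfl⟩ | ⟨c, hc, rfl⟩
      · exact absurd huw (not_lt.mpr (rk_lt_inr B M hM hb _ _).le)
      · exact hroot _ _ huw

/-- the composed core -/
noncomputable def core (hz : (z : ℕ) = 0) (hM : ∀ a x, (B a).rank x < M) : Core (NC ε D) s where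
  rank := rk B M
  rank_inj := rk_inj B M hM
  P := nP B z
  older := nP_older B z M hM
  card_le := nP_card B z hz
  clique := nP_clique B z M hz hM
  wt := nW B z
  wt_mem := nW_mem B z

theorem wr_inr (a : Fin s) {x y : D a} {n : ℕ} (h : WR (B a).wt x y n) :
    WR (nW B z) (Sum.inr ⟨a, x⟩) (Sum.inr ⟨a, y⟩) n := by
  induction h with
  | refl u n => exact WR.refl _ n
  | @fwd u v w n huv hvw ih =>
    rw [← nW_inr B z a u v] at huv ⊢
    exact WR.fwd huv ih
  | @bwd u v w n huv hvw ih =>
    rw [← nW_inr B z a v u] at huv ⊢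
    exact WR.bwd huv ih

theorem nW_p {m : ℕ} (hm : m < ε) : nW B z (p B z m) (p B z (m + 1)) = 1 := by
  have h1 : p B z m = Sum.inl ⟨m, hm⟩ := by simp [p, hm]
  rw [h1]
  simp [nW]

theorem wr_p {m n : ℕ} (h : m + n ≤ ε) : WR (nW B z) (p B z m) (p B z (m + n)) n := by
  induction n generalizing m with
  | zero => exact WR.refl _ 0
  | succ n ih =>
    have h1 := ih (m := m + 1) (by omega)
    have h2 := nW_p B z (m := m) (by omega)
    have h3 : WR (nW B z) (p B z m) (p B z (m + 1 + n)) (nW B z (p B z m) (p B z (m + 1)) + n) :=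
      WR.fwd (by omega) h1
    rw [h2] at h3
    have h4 : m + 1 + n = m + (n + 1) := by omega
    rw [h4] at h3
    exact h3.mono (by omega)

theorem p_eps : p B z ε = root B z := by simp [p]

theorem nW_root (hε : 1 ≤ ε) {b : Fin s} (hb : b ≠ z) : nW B z (p B z 0) (root B b) = ε := by
  have h1 : p B z 0 = Sum.inl ⟨0, hε⟩ := by
    have : 0 < ε := hε
    simp [p, this]
  rw [h1]
  simp only [nW]
  have h2 : root B b ≠ p B z (0 + 1) := by
    intro h
    unfold p at h
    split_ifs at h with h3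
    · simp [root] at h
    · simp only [root, Sum.inr.injEq, Sigma.mk.injEq] at h
      exact hb h.1
  rw [if_neg h2, if_pos ⟨rfl, b, hb, rfl⟩]

theorem wr_root (hε : 1 ≤ ε) (b : Fin s) : WR (nW B z) (p B z 0) (root B b) ε := by
  by_cases hb : b = z
  · subst hb
    have := wr_p B b (m := 0) (n := ε) (by omega)
    rwa [zero_add, p_eps] at this
  · have h1 := nW_root B z hε hb
    have h2 : WR (nW B z) (p B z 0) (root B b) (nW B z (p B z 0) (root B b) + 0) :=
      WR.fwd (by omega) (WR.refl _ 0)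
    rw [h1] at h2
    exact h2

theorem lip (hz : (z : ℕ) = 0) (hM : ∀ a x, (B a).rank x < M) (g : NC ε D → ℕ)
    (h1 : ∀ m, m < ε → g (p B z m) ≤ g (p B z (m + 1)) + 1 ∧ g (p B z (m + 1)) ≤ g (p B z m) + 1)
    (h2 : ∀ b, b ≠ z → g (p B z 0) ≤ g (root B b) + ε ∧ g (root B b) ≤ g (p B z 0) + ε)
    (h3 : ∀ a, (B a).Lip (fun x => g (Sum.inr ⟨a, x⟩))) : (core B z M hz hM).Lip g := by
  intro u v huv
  change nW B z u v ≠ 0 at huv
  change g u ≤ g v + nW B z u v ∧ g v ≤ g u + nW B z u v
  rcases u with k | ⟨a, x⟩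
  · have hk : (Sum.inl k : NC ε D) = p B z k := by simp [p]
    simp only [nW] at huv ⊢
    split_ifs at huv ⊢ with h4 h5
    · rw [h4, hk]
      exact h1 k k.2
    · obtain ⟨hk0, b, hb, rfl⟩ := h5
      rw [hk, hk0]
      exact h2 b hb
    · exact absurd rfl huv
  · rcases v with l | ⟨b, y⟩
    · simp [nW] at huv
    · have hab : b = a := by
        by_contra hne
        simp [nW, hne] at huv
      subst hab
      rw [nW_inr] at huv ⊢
      exact h3 b x y huv

/-- the certificate -/
def G (a : Fin s) (g : D a → ℕ) (τ : ℕ → ℕ) : NC ε D → ℕ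
  | Sum.inl m => τ m
  | Sum.inr x => if h : x.1 = a then g (h ▸ x.2) else if a < x.1 then 0 else ε

theorem G_same (a : Fin s) (g : D a → ℕ) (τ : ℕ → ℕ) (x : D a) :
    G (ε := ε) a g τ (Sum.inr ⟨a, x⟩) = g x := by
  simp [G]

theorem G_gt {a b : Fin s} (g : D a → ℕ) (τ : ℕ → ℕ) (x : D b) (h : a < b) :
    G (ε := ε) a g τ (Sum.inr ⟨b, x⟩) = 0 := by
  have h1 : b ≠ a := h.ne'
  simp [G, h, h1]

theorem G_lt {a b : Fin s} (g : D a → ℕ) (τ : ℕ → ℕ) (x : D b) (h : b < a) :
    G (ε := ε) a g τ (Sum.inr ⟨b, x⟩) = ε := by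
  have h1 : b ≠ a := h.ne
  have h2 : ¬ a < b := not_lt.mpr h.le
  simp [G, h2, h1]

theorem G_p_lt (a : Fin s) (g : D a → ℕ) (τ : ℕ → ℕ) {m : ℕ} (hm : m < ε) :
    G a g τ (p B z m) = τ m := by
  simp [p, hm, G]

theorem G_zero (hM : ∀ a x, (B a).rank x < M) (a : Fin s) (g : D a → ℕ) (τ : ℕ → ℕ) (t : D a)
    (hg : ∀ x, (B a).rank t < (B a).rank x → g x = 0) (x : NC ε D)
    (hx : rk B M (Sum.inr ⟨a, t⟩) < rk B M x) : G a g τ x = 0 := by
  rcases x with k | ⟨b, y⟩
  · have := rk_inl_lt B M k ⟨a, t⟩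
    omega
  · have h1 := le_of_rk_le B M hM hx.le
    rcases h1.lt_or_eq with h | h
    · exact G_gt g τ y h
    · subst h
      rw [G_same]
      apply hg
      simp only [rk] at hx
      omega

theorem G_lip (hz : (z : ℕ) = 0) (hε : 1 ≤ ε) (hM : ∀ a x, (B a).rank x < M) (a : Fin s)
    (g : D a → ℕ) (τ : ℕ → ℕ) (hg : (B a).Lip g) (hg2 : g ((B a).tok 0) ≤ 2 * ε)
    (hτ0 : τ 0 = ε)
    (hτ : ∀ m, τ m ≤ τ (m + 1) + 1 ∧ τ (m + 1) ≤ τ m + 1)
    (hz1 : a = z → τ (ε - 1) ≤ g ((B a).tok 0) + 1 ∧ g ((B a).tok 0) ≤ τ (ε - 1) + 1)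
    (hz2 : a ≠ z → τ (ε - 1) ≤ ε + 1 ∧ ε ≤ τ (ε - 1) + 1) :
    (core B z M hz hM).Lip (G a g τ) := by
  have hza : a ≠ z → z < a := by
    intro h
    rw [Fin.lt_def]
    have : (a : ℕ) ≠ z := fun h' => h (Fin.ext h')
    omega
  apply lip
  · intro m hm
    rw [G_p_lt B z a g τ hm]
    by_cases h : m + 1 < ε
    · rw [G_p_lt B z a g τ h]
      exact hτ m
    · have h4 : m + 1 = ε := by omega
      have h5 : m = ε - 1 := by omega
      rw [h4, p_eps, h5]
      unfold root
      by_cases haz : a = z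
      · subst haz
        rw [G_same]
        exact hz1 rfl
      · rw [G_lt _ _ _ (hza haz)]
        exact hz2 haz
  · intro b hb
    rw [G_p_lt B z a g τ hε, hτ0]
    unfold root
    rcases lt_trichotomy b a with h | h | h
    · rw [G_lt _ _ _ h]
      omega
    · subst h
      rw [G_same]
      omega
    · rw [G_gt _ _ _ h]
      omega
  · intro b
    rcases lt_trichotomy b a with h | h | h
    · intro x y _
      simp only [G_lt _ _ _ h]
      omega
    · subst h
      simp only [G_same]
      exact hg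
    · intro x y _
      simp only [G_gt _ _ _ h]
      omega

/-- number of tokens of the parts -/
def tk (r ε : ℕ) : ℕ := min (2 * ε) (2 * r + 2 - 2 * ε)

/-- tops -/
def ntop : (Σ a : Fin s, (I a ⊕ Fin (tk r ε))) → NC ε D
  | ⟨a, Sum.inl i⟩ => Sum.inr ⟨a, (B a).top i⟩
  | ⟨a, Sum.inr k⟩ => Sum.inr ⟨a, (B a).tok k⟩

/-- centres of the new indices -/
def kcen (a : Fin s) (k : ℕ) : Cen (NC ε D) :=
  if a = z then
    if k % 2 = 0 then ⟨p B z (k / 2), r + 1 - ε - k / 2, p B z (k / 2 + 1), r + 1 - ε - k / 2⟩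
    else ⟨p B z (k / 2 + 1), r - ε - k / 2, p B z (k / 2 + 1), r - ε - k / 2⟩
  else if k < r then ⟨p B z 0, r + 1 - ε, root B a, r - k⟩
  else ⟨root B a, 0, root B a, 0⟩

/-- centres -/
def ncen : (Σ a : Fin s, (I a ⊕ Fin (tk r ε))) → Cen (NC ε D)
  | ⟨a, Sum.inl i⟩ => ⟨Sum.inr ⟨a, ((B a).cen i).u⟩, ((B a).cen i).l,
      Sum.inr ⟨a, ((B a).cen i).w⟩, ((B a).cen i).m⟩
  | ⟨a, Sum.inr k⟩ => kcen B z a k

theorem ntop_inj : Function.Injective (ntop B) := by
  rintro ⟨a, i | k⟩ ⟨b, j | l⟩ h
  · simp only [ntop, Sum.inr.injEq, Sigma.mk.injEq] at h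
    obtain ⟨rfl, h⟩ := h
    rw [(B a).top_inj (eq_of_heq h)]
  · simp only [ntop, Sum.inr.injEq, Sigma.mk.injEq] at h
    obtain ⟨rfl, h⟩ := h
    exact absurd (eq_of_heq h) ((B a).top_ne_tok i l l.2)
  · simp only [ntop, Sum.inr.injEq, Sigma.mk.injEq] at h
    obtain ⟨rfl, h⟩ := h
    exact absurd (eq_of_heq h).symm ((B a).top_ne_tok j k k.2)
  · simp only [ntop, Sum.inr.injEq, Sigma.mk.injEq] at h
    obtain ⟨rfl, h⟩ := h
    have := (B a).tok_inj k l k.2 l.2 (eq_of_heq h)
    rw [Fin.ext this]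

theorem kcen_valid (hz : (z : ℕ) = 0) (hε : 1 ≤ ε) (h1 : ε ≤ r) (hM : ∀ a x, (B a).rank x < M)
    (a : Fin s) (k : ℕ) (hk : k < tk r ε) : (kcen B z a k).Valid (core B z M hz hM) := by
  unfold tk at hk
  unfold kcen Cen.Valid
  split_ifs with h2 h3 h4
  · right
    refine ⟨by simp only; omega, by simp only; omega, ?_, ?_⟩
    · change nW B z (p B z (k / 2)) (p B z (k / 2 + 1)) ≠ 0
      rw [nW_p B z (by omega)]
      omega
    · change nW B z (p B z (k / 2)) (p B z (k / 2 + 1)) ≤ _
      rw [nW_p B z (by omega)]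
      simp only
      omega
  · left
    exact ⟨rfl, rfl⟩
  · right
    refine ⟨by simp only; omega, by simp only; omega, ?_, ?_⟩
    · change nW B z (p B z 0) (root B a) ≠ 0
      rw [nW_root B z hε h2]
      omega
    · change nW B z (p B z 0) (root B a) ≤ _
      rw [nW_root B z hε h2]
      simp only
      omega
  · left
    exact ⟨rfl, rfl⟩

theorem kcen_top (hz : (z : ℕ) = 0) (h1 : ε ≤ r) (hM : ∀ a x, (B a).rank x < M)
    (a : Fin s) (k : ℕ) (hk : k < tk r ε) :
    (kcen B z a k).Reach (core B z M hz hM) (Sum.inr ⟨a, (B a).tok k⟩) r := by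
  have hroot : WR (nW B z) (root B a) (Sum.inr ⟨a, (B a).tok k⟩) k :=
    wr_inr B z a ((B a).tok_reach k hk)
  unfold tk at hk
  unfold kcen Cen.Reach
  split_ifs with h2 h3 h4
  · right
    subst h2
    have h5 := wr_p B a (m := k / 2 + 1) (n := ε - (k / 2 + 1)) (by omega)
    have h6 : k / 2 + 1 + (ε - (k / 2 + 1)) = ε := by omega
    rw [h6, p_eps] at h5
    exact ⟨_, h5.trans hroot, by simp only; omega⟩
  · right
    subst h2
    have h5 := wr_p B a (m := k / 2 + 1) (n := ε - (k / 2 + 1)) (by omega)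
    have h6 : k / 2 + 1 + (ε - (k / 2 + 1)) = ε := by omega
    rw [h6, p_eps] at h5
    exact ⟨_, h5.trans hroot, by simp only; omega⟩
  · right
    exact ⟨_, hroot, by simp only; omega⟩
  · right
    exact ⟨_, hroot, by simp only; omega⟩

theorem kcen_root (hz : (z : ℕ) = 0) (hε : 1 ≤ ε) (h1 : ε ≤ r) (hM : ∀ a x, (B a).rank x < M)
    (a : Fin s) (k : ℕ) (hk : k < tk r ε) :
    (kcen B z a k).Reach (core B z M hz hM) (p B z 0) (r + 1 - ε) := by
  unfold tk at hk
  unfold kcen Cen.Reach
  split_ifs with h2 h3 h4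
  · left
    have h5 := wr_p B z (m := 0) (n := k / 2) (by omega)
    rw [zero_add] at h5
    exact ⟨_, h5.symm, by simp only; omega⟩
  · left
    have h5 := wr_p B z (m := 0) (n := k / 2 + 1) (by omega)
    rw [zero_add] at h5
    exact ⟨_, h5.symm, by simp only; omega⟩
  · left
    exact ⟨0, WR.refl _ 0, by simp only; omega⟩
  · left
    exact ⟨_, (wr_root B z hε a).symm, by simp only; omega⟩

theorem far_old (a : Fin s) (g : D a → ℕ) (τ : ℕ → ℕ) (i : I a)
    (h : ((B a).cen i).Far g (r + 1)) : (ncen B z ⟨a, Sum.inl i⟩).Far (G a g τ) (r + 1) := by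
  unfold Cen.Far at h ⊢
  simp only [ncen, G_same]
  exact h

/-- the token certificate on the tokens -/
def tauz (ε k m : ℕ) : ℕ := min (ε + m) (k + 1 + ε - m)

theorem far_new (hz : (z : ℕ) = 0) (hε : 1 ≤ ε) (h1 : ε ≤ r)
    (a : Fin s) (k : ℕ) (hk : k < tk r ε) (g : D a → ℕ) (hg : g ((B a).tok 0) = k + 1) :
    (kcen B z a k).Far (G a g (if a = z then tauz ε k else fun _ => ε)) (r + 1) := by
  have hp : a = z → ∀ m, G a g (tauz ε k) (p B z m) = if m < ε then tauz ε k m else k + 1 := by
    intro haz m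
    subst haz
    split_ifs with h
    · rw [G_p_lt B a a g _ h]
    · simp only [p, h, dite_false, root, G_same, hg]
  unfold tk at hk
  unfold kcen Cen.Far
  split_ifs with h2 h3 h4
  · simp only [hp h2]
    unfold tauz
    constructor
    · split_ifs <;> omega
    · split_ifs <;> omega
  · simp only [hp h2]
    unfold tauz
    constructor
    · split_ifs <;> omega
    · split_ifs <;> omega
  · simp only [G_p_lt B z a g _ (show 0 < ε from hε)]
    unfold root
    rw [G_same, hg]
    omega
  · simp only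
    unfold root
    rw [G_same, hg]
    omega

/-- the composed block -/
noncomputable def block (hz : (z : ℕ) = 0) (hε : 1 ≤ ε) (h1 : ε ≤ r)
    (hM : ∀ a x, (B a).rank x < M) :
    Block r s ε (NC ε D) (Σ a : Fin s, (I a ⊕ Fin (tk r ε))) where
  toCore := core B z M hz hM
  tok := p B z
  top := ntop B
  top_inj := ntop_inj B
  tok_inj := by
    intro k l hk hl hkl
    have hk' : k < ε := by omega
    have hl' : l < ε := by omega
    simpa [p, hk', hl'] using hkl
  top_ne_tok := by
    rintro ⟨a, i | k⟩ l hl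
    · have hl' : l < ε := by omega
      simp [p, hl', ntop]
    · have hl' : l < ε := by omega
      simp [p, hl', ntop]
  cen := ncen B z
  valid := by
    rintro ⟨a, i | k⟩
    · have h2 := (B a).valid i
      unfold Cen.Valid at h2 ⊢
      rcases h2 with ⟨h3, h4⟩ | ⟨h3, h4, h5, h6⟩
      · left
        refine ⟨?_, h4⟩
        simp only [ncen, h3]
      · right
        refine ⟨h3, h4, ?_, ?_⟩
        · change nW B z (Sum.inr ⟨a, ((B a).cen i).u⟩) (Sum.inr ⟨a, ((B a).cen i).w⟩) ≠ 0
          rw [nW_inr]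
          exact h5
        · change nW B z (Sum.inr ⟨a, ((B a).cen i).u⟩) (Sum.inr ⟨a, ((B a).cen i).w⟩) ≤ _
          rw [nW_inr]
          exact h6
    · exact kcen_valid B z M hz hε h1 hM a k k.2
  tok_reach := by
    intro k hk
    have := wr_p B z (m := 0) (n := k) (by omega)
    rwa [zero_add] at this
  tok_cert := by
    intro k hk
    have hk' : k < ε := by omega
    refine ⟨fun x => match x with
      | Sum.inl m => k + 1 - m
      | Sum.inr _ => 0, ?_, ?_, ?_⟩
    · apply lip
      · intro m hm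
        by_cases h : m + 1 < ε
        · simp only [p, hm, h, dite_true]
          omega
        · simp only [p, hm, h, dite_true, dite_false, root]
          omega
      · intro b hb
        have h0 : 0 < ε := hε
        simp only [p, h0, dite_true, root]
        omega
      · intro a x y _
        simp
    · have h0 : 0 < ε := hε
      simp [p, h0]
    · intro x hx
      rcases x with m | x
      · change rk B M (p B z k) < rk B M (Sum.inl m) at hx
        simp only [p, hk', dite_true, rk] at hx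
        simp only
        omega
      · rfl
  reach_top := by
    rintro ⟨a, i | k⟩
    · rcases (B a).reach_top i with ⟨k, h2, h3⟩ | ⟨k, h2, h3⟩
      · exact Or.inl ⟨k, wr_inr B z a h2, h3⟩
      · exact Or.inr ⟨k, wr_inr B z a h2, h3⟩
    · exact kcen_top B z M hz h1 hM a k k.2
  reach_root := by
    rintro ⟨a, i | k⟩
    · have h4 := (B a).idx_le i
      have h5 := (wr_root B z hε a).symm
      rcases (B a).reach_root i with ⟨k, h2, h3⟩ | ⟨k, h2, h3⟩
      · refine Or.inl ⟨k + ε, (wr_inr B z a h2).trans h5, ?_⟩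
        simp only [ncen]
        omega
      · refine Or.inr ⟨k + ε, (wr_inr B z a h2).trans h5, ?_⟩
        simp only [ncen]
        omega
    · exact kcen_root B z M hz hε h1 hM a k k.2
  cert := by
    rintro ⟨a, i | k⟩
    · obtain ⟨g, hg, hg0, hfar, hzero⟩ := (B a).cert i
      refine ⟨G a g (if a = z then fun m => ε + m else fun _ => ε), ?_, ?_, ?_, ?_⟩
      · apply G_lip B z M hz hε hM a g _ hg hg0.le
        · split_ifs <;> simp
        · intro m
          split_ifs <;> (beta_reduce; omega)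
        · intro h
          rw [if_pos h]
          omega
        · intro h
          rw [if_neg h]
          omega
      · rw [G_p_lt B z a g _ (show 0 < ε from hε)]
        split_ifs <;> simp
      · exact far_old B z a g _ i hfar
      · intro x hx
        exact G_zero B M hM a g _ ((B a).top i) hzero x hx
    · obtain ⟨g, hg, hg0, hzero⟩ := (B a).tok_cert k k.2
      have hk := k.2
      unfold tk at hk
      refine ⟨G a g (if a = z then tauz ε k else fun _ => ε), ?_, ?_, ?_, ?_⟩
      · apply G_lip B z M hz hε hM a g _ hg (by omega)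
        · split_ifs
          · unfold tauz
            omega
          · rfl
        · intro m
          split_ifs
          · unfold tauz
            omega
          · beta_reduce
            omega
        · intro h
          rw [if_pos h]
          unfold tauz
          omega
        · intro h
          rw [if_neg h]
          omega
      · rw [G_p_lt B z a g _ (show 0 < ε from hε)]
        split_ifs
        · unfold tauz
          omega
        · rfl
      · exact far_new B z hz hε h1 a k k.2 g hg0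
      · intro x hx
        exact G_zero B M hM a g _ ((B a).tok k) hzero x hx
  idx_le := fun _ => by omega

end

end Node

theorem block_node {r s ε : ℕ} (hs : 1 ≤ s) (hε : 1 ≤ ε) (h1 : ε ≤ r) (N : ℕ → ℕ)
    (h : ∀ a, 1 ≤ a → a ≤ s → HasBlock r a (2 * ε) (N a)) :
    HasBlock r s ε (ε + ∑ a ∈ Icc 1 s, N a) := by
  classical
  have h' : ∀ a : Fin s, HasBlock r ((a : ℕ) + 1) (2 * ε) (N (a + 1)) :=
    fun a => h _ (by omega) a.2
  choose D I instD instI B hN using h'
  obtain ⟨M, hM⟩ : ∃ M, ∀ a x, (B a).rank x < M := by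
    refine ⟨1 + ∑ a : Fin s, ∑ x : D a, (B a).rank x, fun a x => ?_⟩
    have h2 : (B a).rank x ≤ ∑ x : D a, (B a).rank x :=
      single_le_sum (f := fun x => (B a).rank x) (fun _ _ => Nat.zero_le _) (mem_univ x)
    have h3 : ∑ x : D a, (B a).rank x ≤ ∑ a : Fin s, ∑ x : D a, (B a).rank x :=
      single_le_sum (f := fun a => ∑ x : D a, (B a).rank x) (fun _ _ => Nat.zero_le _)
        (mem_univ a)
    omega
  refine ⟨Node.NC ε D, Σ a : Fin s, (I a ⊕ Fin (Node.tk r ε)), inferInstance, inferInstance,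
    Node.block B ⟨0, hs⟩ M rfl hε h1 hM, ?_⟩
  have h4 : ∑ a ∈ Icc 1 s, N a = ∑ a : Fin s, N (a + 1) := by
    rw [Fin.sum_univ_eq_sum_range (fun a => N (a + 1)) s, range_eq_Ico,
      sum_Ico_add' (fun a => N a) 0 s 1]
    rfl
  rw [h4, Fintype.card_sigma]
  have h5 : ∀ a : Fin s, N (a + 1) = Fintype.card (I a ⊕ Fin (Node.tk r ε)) := by
    intro a
    rw [hN a, Fintype.card_sum, Fintype.card_fin]
    rfl
  rw [sum_congr rfl (fun a _ => h5 a)]
  omega

end SubPow
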