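import Mathlib

/-!
Definitions for MP_686c67_co: the subchromatic number of powers of graphs of bounded treewidth.
-/

namespace SubPow

open Finset

/-- The `d`-th power of a graph: distinct vertices at distance at most `d` are adjacent. -/
def power {V : Type*} (G : SimpleGraph V) (d : ℕ) : SimpleGraph V where
  Adj u v := u ≠ v ∧ G.edist u v ≤ (d : ℕ∞)
  symm := ⟨fun u v h => ⟨h.1.symm, by rw [SimpleGraph.edist_comm]; exact h.2⟩⟩
  loopless := ⟨fun u h => h.1 rfl⟩

/-- A subcolouring: in every colour class, adjacency is transitive, that is, the class induces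
a disjoint union of complete graphs (there is no induced path on three vertices in a class). -/
def IsSubcolouring {V κ : Type*} (H : SimpleGraph V) (c : V → κ) : Prop :=
  ∀ u v w, H.Adj u v → H.Adj v w → u ≠ w → c u = c v → c v = c w → H.Adj u w

/-- The subchromatic number: the least `k` such that there is a subcolouring with `k` colours. -/
noncomputable def subchromatic {V : Type*} (H : SimpleGraph V) : ℕ :=
  sInf {k | ∃ c : V → Fin k, IsSubcolouring H c}

/-- Tree decompositions. -/
structure TreeDecomposition {V : Type*} (G : SimpleGraph V) where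
  /-- the nodes of the tree -/
  ι : Type
  finite : Finite ι
  /-- the tree -/
  T : SimpleGraph ι
  isTree : T.IsTree
  /-- the bags -/
  bag : ι → Finset V
  vertex_mem : ∀ v, ∃ i, v ∈ bag i
  edge_mem : ∀ u v, G.Adj u v → ∃ i, u ∈ bag i ∧ v ∈ bag i
  connected : ∀ v, (T.induce {i | v ∈ bag i}).Connected

/-- The treewidth: the least `w` such that there is a tree decomposition all of whose bags have
at most `w + 1` elements. -/
noncomputable def treewidth {V : Type*} (G : SimpleGraph V) : ℕ :=
  sInf {w | ∃ D : TreeDecomposition G, ∀ i, (D.bag i).card ≤ w + 1}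

/-- The exponent `j_d(k)` of the formula. -/
def jj (d k : ℕ) : ℕ := if Odd d then Nat.log 2 (2 * k) else Nat.log 2 (k + 1)

/-- The value `1 + ∑_{k=1}^{d} C(t + j_d(k) - 1, j_d(k))`. -/
def formula (d t : ℕ) : ℕ := 1 + ∑ k ∈ Icc 1 d, (t + jj d k - 1).choose (jj d k)

/-- Elimination structures: a proof-friendly form of `treewidth ≤ t`. Larger rank means older;
`P v` consists of vertices older than `v`. -/
structure Elim {V : Type*} (G : SimpleGraph V) (t : ℕ) where
  rank : V → ℕ
  rank_inj : Function.Injective rank
  P : V → Finset V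
  older : ∀ v u, u ∈ P v → rank v < rank u
  card_le : ∀ v, (P v).card ≤ t
  clique : ∀ v u w, u ∈ P v → w ∈ P v → rank u < rank w → w ∈ P u
  cover : ∀ u v, G.Adj u v → rank u < rank v → v ∈ P u

/-- The counting function `A(w, e)` (with parameter `r`). -/
def AA (r w e : ℕ) : ℕ :=
  ∑ k ∈ Icc (e + 1) (2 * r + 1), (w + Nat.log 2 (k / (e + 1))).choose (Nat.log 2 (k / (e + 1)) + 1)

end SubPow
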