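import Pool.Agent.Helper15.Sub.AlgDefs

/-!
Block RLA: relative lengths of submodules. `rl A B` is the length of `B / (A ⊓ B)`.
Use `Module.length_eq_add_of_exact`, `Module.length_le_of_injective`,
`Module.length_le_of_surjective`, `LinearEquiv.length_eq`, `Module.length_eq_one`
(simple modules), and the isomorphism theorems (`LinearMap.quotientInfEquivSupQuotient`).

* `rl_split`: `rl A B = rl A (A ⊔ (B ⊓ U)) + rl (A ⊔ (B ⊓ U)) B`; the first is
  `rl (A ⊓ U) (B ⊓ U)` by the second isomorphism theorem (modular law), and as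
  `A ⊔ (B ⊓ U) = (A ⊔ U) ⊓ B`, the second is `rl (A ⊔ U) (A ⊔ U ⊔ B)`.
* `card_le_rl`: induction on `b`, with `rl_trans` and `one_le_rl`.
* `rl_le_card`: induction on `s`; each step adds a vector `x` with `ϖ x ∈ A`, and
  `(A ⊔ span {x}) / A` is a quotient of the simple module `O / ϖ`.
* `card_le_rl_of_indep`: induction on `s`; each step is a strict inclusion.
-/

namespace SubPow

open Finset

section rl

variable {O E : Type*} [CommRing O] [AddCommGroup E] [Module O E]

/-- The length of `B / (A ⊓ B)`. -/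
noncomputable def rl (A B : Submodule O E) : ℕ∞ := Module.length O (B ⧸ A.submoduleOf B)

theorem rl_trans {A B C : Submodule O E} (h1 : A ≤ B) (h2 : B ≤ C) :
    rl A C = rl A B + rl B C := by
  have hf0 : A.submoduleOf B ≤ (A.submoduleOf C).comap (Submodule.inclusion h2) := by
    intro x hx
    simpa [Submodule.submoduleOf] using hx
  have hg0 : A.submoduleOf C ≤ (B.submoduleOf C).comap LinearMap.id := by
    intro x hx
    exact h1 hx
  have hf : Function.Injective
      (Submodule.mapQ (A.submoduleOf B) (A.submoduleOf C) (Submodule.inclusion h2) hf0) := by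
    rw [← LinearMap.ker_eq_bot, eq_bot_iff]
    intro x hx
    obtain ⟨x, rfl⟩ := Submodule.Quotient.mk_surjective _ x
    rw [LinearMap.mem_ker, Submodule.mapQ_apply, Submodule.Quotient.mk_eq_zero] at hx
    rw [Submodule.mem_bot, Submodule.Quotient.mk_eq_zero]
    simpa [Submodule.submoduleOf] using hx
  have hg : Function.Surjective
      (Submodule.mapQ (A.submoduleOf C) (B.submoduleOf C) LinearMap.id hg0) := by
    intro x
    obtain ⟨x, rfl⟩ := Submodule.Quotient.mk_surjective _ x
    exact ⟨Submodule.Quotient.mk x, by rw [Submodule.mapQ_apply, LinearMap.id_apply]⟩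
  refine Module.length_eq_add_of_exact _ _ hf hg ?_
  rw [LinearMap.exact_iff]
  apply le_antisymm
  · intro x hx
    obtain ⟨x, rfl⟩ := Submodule.Quotient.mk_surjective _ x
    rw [LinearMap.mem_ker, Submodule.mapQ_apply, Submodule.Quotient.mk_eq_zero] at hx
    refine ⟨Submodule.Quotient.mk ⟨x.1, hx⟩, ?_⟩
    rw [Submodule.mapQ_apply]
    rfl
  · rintro _ ⟨x, rfl⟩
    obtain ⟨x, rfl⟩ := Submodule.Quotient.mk_surjective _ x
    rw [LinearMap.mem_ker, Submodule.mapQ_apply, Submodule.mapQ_apply,
      Submodule.Quotient.mk_eq_zero]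
    exact x.2

theorem one_le_rl {A B : Submodule O E} (h : A < B) : 1 ≤ rl A B := by
  rw [Order.one_le_iff_pos, rl, Module.length_pos_iff]
  obtain ⟨hle, x, hxB, hxA⟩ := SetLike.lt_iff_le_and_exists.1 h
  rw [Submodule.Quotient.nontrivial_iff]
  intro htop
  have : (⟨x, hxB⟩ : B) ∈ A.submoduleOf B := by rw [htop]; trivial
  exact hxA this

theorem rl_self (A : Submodule O E) : rl A A = 0 := by
  rw [rl, Module.length_eq_zero_iff, Submodule.Quotient.subsingleton_iff]
  exact Submodule.submoduleOf_self A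

/-- second isomorphism theorem -/
theorem rl_sup_right (A B : Submodule O E) : rl A (A ⊔ B) = rl (A ⊓ B) B := by
  have h := (LinearMap.quotientInfEquivSupQuotient B A).length_eq
  have h1 : rl (B ⊓ A) B = rl A (B ⊔ A) := h
  rw [inf_comm, sup_comm, h1]

theorem rl_mono_right {A B C : Submodule O E} (h1 : A ≤ B) (h2 : B ≤ C) : rl A B ≤ rl A C := by
  rw [rl_trans h1 h2]
  exact le_self_add

theorem rl_mono_left {A B C : Submodule O E} (h1 : A ≤ B) (h2 : B ≤ C) : rl B C ≤ rl A C := by
  rw [rl_trans h1 h2]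
  exact le_add_self

theorem rl_inf_le {A B : Submodule O E} (h : A ≤ B) (Y : Submodule O E) :
    rl (A ⊓ Y) (B ⊓ Y) ≤ rl A B := by
  have h1 : A ⊓ Y = A ⊓ (B ⊓ Y) := by rw [← inf_assoc, inf_eq_left.2 h]
  rw [h1, ← rl_sup_right]
  exact rl_mono_right le_sup_left (sup_le h inf_le_left)

theorem rl_sup_le {A B : Submodule O E} (h : A ≤ B) (Y : Submodule O E) :
    rl (A ⊔ Y) (B ⊔ Y) ≤ rl A B := by
  have h1 : B ⊔ Y = (A ⊔ Y) ⊔ B := by
    rw [sup_comm A Y, sup_assoc, sup_eq_right.2 h, sup_comm]
  rw [h1, rl_sup_right]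
  exact rl_mono_left (le_inf le_sup_left h) inf_le_right

theorem rl_split {A B : Submodule O E} (h : A ≤ B) (U : Submodule O E) :
    rl A B = rl (A ⊓ U) (B ⊓ U) + rl (A ⊔ U) (B ⊔ U) := by
  have h1 : A ⊔ (B ⊓ U) ≤ B := sup_le h inf_le_left
  rw [rl_trans (le_sup_left : A ≤ A ⊔ (B ⊓ U)) h1, rl_sup_right]
  have h2 : A ⊓ (B ⊓ U) = A ⊓ U := by rw [← inf_assoc, inf_eq_left.2 h]
  have h3 : A ⊔ (B ⊓ U) = (A ⊔ U) ⊓ B := by
    rw [inf_comm B U]
    exact (sup_inf_assoc_of_le U h).symm
  have h4 : B ⊔ U = (A ⊔ U) ⊔ B := by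
    rw [sup_comm A U, sup_assoc, sup_eq_right.2 h, sup_comm]
  rw [h2, h3, h4, rl_sup_right]

/-- counting along a chain -/
theorem card_le_rl (R : ℕ → Submodule O E) (hR : Monotone R) (Y : Submodule O E) {a b : ℕ}
    (hab : a ≤ b) (X : Finset ℕ)
    (hX : ∀ n ∈ X, a ≤ n ∧ n < b ∧ ∃ y ∈ Y, y ∈ R (n + 1) ∧ y ∉ R n) :
    (X.card : ℕ∞) ≤ rl (R a ⊓ Y) (R b ⊓ Y) := by
  induction b, hab using Nat.le_induction generalizing X with
  | base =>
    have : X = ∅ := by
      rw [Finset.eq_empty_iff_forall_notMem]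
      intro n hn
      have := hX n hn
      omega
    rw [this]
    simp
  | succ b hab ih =>
    have hle : R a ⊓ Y ≤ R b ⊓ Y := inf_le_inf_right Y (hR hab)
    have hle' : R b ⊓ Y ≤ R (b + 1) ⊓ Y := inf_le_inf_right Y (hR (Nat.le_succ b))
    rw [rl_trans hle hle']
    have h1 := ih (X.erase b) (fun n hn => by
      obtain ⟨h2, h3, h4⟩ := hX n (Finset.mem_of_mem_erase hn)
      refine ⟨h2, ?_, h4⟩
      have := Finset.ne_of_mem_erase hn
      omega)
    by_cases hb : b ∈ X
    · obtain ⟨_, _, y, hyY, hy1, hy2⟩ := hX b hb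
      have hlt : R b ⊓ Y < R (b + 1) ⊓ Y := by
        refine SetLike.lt_iff_le_and_exists.2 ⟨hle', y, Submodule.mem_inf.2 ⟨hy1, hyY⟩, ?_⟩
        intro h
        exact hy2 (Submodule.mem_inf.1 h).1
      have h2 := one_le_rl hlt
      have h3 : X.card = (X.erase b).card + 1 := (Finset.card_erase_add_one hb).symm
      rw [h3, Nat.cast_add, Nat.cast_one]
      exact add_le_add h1 h2
    · rw [Finset.erase_eq_of_notMem hb] at h1
      exact h1.trans le_self_add

theorem rl_sup_span_singleton_le (x : E) (ϖ : O)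
    (hϖ : (Ideal.span {ϖ}).IsMaximal) (A : Submodule O E) (hx : ϖ • x ∈ A) :
    rl A (A ⊔ Submodule.span O {x}) ≤ 1 := by
  have hxm : ∀ r : O, r • x ∈ A ⊔ Submodule.span O {x} := fun r =>
    Submodule.mem_sup_right (Submodule.smul_mem _ r (Submodule.mem_span_singleton_self x))
  let f0 : O →ₗ[O] (A ⊔ Submodule.span O {x} : Submodule O E) :=
    LinearMap.codRestrict _ (LinearMap.toSpanSingleton O E x) (fun r => by
      rw [LinearMap.toSpanSingleton_apply]; exact hxm r)
  let f1 := (A.submoduleOf (A ⊔ Submodule.span O {x})).mkQ.comp f0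
  have hker : Ideal.span {ϖ} ≤ LinearMap.ker f1 := by
    rw [Ideal.span_le, Set.singleton_subset_iff]
    change f1 ϖ = 0
    change (A.submoduleOf (A ⊔ Submodule.span O {x})).mkQ (f0 ϖ) = 0
    rw [Submodule.mkQ_apply, Submodule.Quotient.mk_eq_zero]
    exact hx
  let f : (O ⧸ (Ideal.span {ϖ} : Ideal O)) →ₗ[O]
      ((A ⊔ Submodule.span O {x} : Submodule O E) ⧸ A.submoduleOf (A ⊔ Submodule.span O {x})) :=
    Submodule.liftQ (Ideal.span {ϖ} : Ideal O) f1 hker
  have hf : Function.Surjective f := by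
    intro y
    obtain ⟨⟨y, hy⟩, rfl⟩ := Submodule.Quotient.mk_surjective _ y
    obtain ⟨u, hu, v, hv, rfl⟩ := Submodule.mem_sup.1 hy
    obtain ⟨r, rfl⟩ := Submodule.mem_span_singleton.1 hv
    refine ⟨Submodule.Quotient.mk r, ?_⟩
    change Submodule.Quotient.mk (f0 r) = _
    rw [Submodule.Quotient.eq]
    change (r • x) - (u + r • x) ∈ A
    have : (r • x) - (u + r • x) = -u := by abel
    rw [this]
    exact A.neg_mem hu
  have : IsSimpleModule O (O ⧸ (Ideal.span {ϖ} : Ideal O)) :=
    isSimpleModule_iff_isCoatom.2 hϖ.out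
  calc rl A (A ⊔ Submodule.span O {x}) ≤ Module.length O (O ⧸ (Ideal.span {ϖ} : Ideal O)) :=
        Module.length_le_of_surjective f hf
    _ = 1 := Module.length_eq_one _ _

/-- generators of a quotient killed by a maximal ideal -/
theorem rl_le_card {ι : Type*} (s : Finset ι) (x : ι → E) (ϖ : O)
    (hϖ : (Ideal.span {ϖ}).IsMaximal) (A : Submodule O E) (hx : ∀ i ∈ s, ϖ • x i ∈ A) :
    rl A (A ⊔ Submodule.span O (x '' (s : Set ι))) ≤ s.card := by
  classical
  induction s using Finset.induction_on with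
  | empty =>
    simp [rl_self]
  | insert i s hi ih =>
    have h1 := ih (fun j hj => hx j (Finset.mem_insert_of_mem hj))
    have h2 : A ⊔ Submodule.span O (x '' ((insert i s : Finset ι) : Set ι)) =
        (A ⊔ Submodule.span O (x '' (s : Set ι))) ⊔ Submodule.span O {x i} := by
      rw [Finset.coe_insert, Set.image_insert_eq, Submodule.span_insert, sup_assoc,
        sup_comm (Submodule.span O {x i})]
    rw [h2, rl_trans le_sup_left le_sup_left, Finset.card_insert_of_notMem hi, Nat.cast_add,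
      Nat.cast_one]
    exact add_le_add h1 (rl_sup_span_singleton_le (x i) ϖ hϖ _
      (Submodule.mem_sup_left (hx i (Finset.mem_insert_self i s))))

/-- independent vectors -/
theorem card_le_rl_of_indep {ι : Type*} [DecidableEq ι] (s : Finset ι) (x : ι → E)
    (A : Submodule O E)
    (hx : ∀ i ∈ s, x i ∉ A ⊔ Submodule.span O (x '' ((s.erase i : Finset ι) : Set ι))) :
    (s.card : ℕ∞) ≤ rl A (A ⊔ Submodule.span O (x '' (s : Set ι))) := by
  induction s using Finset.induction_on with
  | empty => simp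
  | insert i s hi ih =>
    have h1 := ih (fun j hj h => hx j (Finset.mem_insert_of_mem hj) (by
      refine (sup_le_sup_left (Submodule.span_mono (Set.image_mono ?_)) A) h
      rw [Finset.coe_subset]
      exact Finset.erase_subset_erase j (Finset.subset_insert i s)))
    have h2 : A ⊔ Submodule.span O (x '' ((insert i s : Finset ι) : Set ι)) =
        (A ⊔ Submodule.span O (x '' (s : Set ι))) ⊔ Submodule.span O {x i} := by
      rw [Finset.coe_insert, Set.image_insert_eq, Submodule.span_insert, sup_assoc,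
        sup_comm (Submodule.span O {x i})]
    have h3 := hx i (Finset.mem_insert_self i s)
    rw [Finset.erase_insert hi] at h3
    have hlt : (A ⊔ Submodule.span O (x '' (s : Set ι))) <
        (A ⊔ Submodule.span O (x '' (s : Set ι))) ⊔ Submodule.span O {x i} :=
      SetLike.lt_iff_le_and_exists.2 ⟨le_sup_left, x i,
        Submodule.mem_sup_right (Submodule.mem_span_singleton_self _), h3⟩
    rw [h2, rl_trans le_sup_left le_sup_left, Finset.card_insert_of_notMem hi, Nat.cast_add,
      Nat.cast_one]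
    exact add_le_add h1 (one_le_rl hlt)

end rl

end SubPow
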