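import Pool.Agent.Helper15.Sub.Defs

/-! Definitions for the lower bound. -/

namespace SubPow

open Finset

/-- A design: `k` vertices pairwise at distance at most `d`, whose balls of radius `r` have
pairwise different oldest vertices. -/
def HasDesign (d t k : ℕ) : Prop :=
  ∃ (V : Type) (_ : Fintype V) (G : SimpleGraph V) (E : Elim G t) (r : ℕ) (v top : Fin k → V),
    2 * r ≤ d ∧ d ≤ 2 * r + 1 ∧ Function.Injective top ∧
    (∀ i, G.edist (v i) (top i) ≤ (r : ℕ∞)) ∧
    (∀ i u, E.rank (top i) < E.rank u → ¬ G.edist (v i) u ≤ (r : ℕ∞)) ∧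
    (∀ i j, G.edist (v i) (v j) ≤ (d : ℕ∞))

/-- Weighted reachability: `WR wt u v n` means that there is a route from `u` to `v` of total
weight at most `n`; `wt u v ≠ 0` means that there is an edge of length `wt u v`. -/
inductive WR {C : Type*} (wt : C → C → ℕ) : C → C → ℕ → Prop
  | refl (u : C) (n : ℕ) : WR wt u u n
  | fwd {u v w : C} {n : ℕ} : wt u v ≠ 0 → WR wt v w n → WR wt u w (wt u v + n)
  | bwd {u v w : C} {n : ℕ} : wt v u ≠ 0 → WR wt v w n → WR wt u w (wt v u + n)

/-- A weighted core graph: elimination structure and edge lengths. -/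
structure Core (C : Type) (s : ℕ) where
  rank : C → ℕ
  rank_inj : Function.Injective rank
  P : C → Finset C
  older : ∀ v u, u ∈ P v → rank v < rank u
  card_le : ∀ v, (P v).card ≤ s
  clique : ∀ v u w, u ∈ P v → w ∈ P v → rank u < rank w → w ∈ P u
  /-- length of the edge from `u` to an element of `P u`, or `0` if there is no edge -/
  wt : C → C → ℕ
  wt_mem : ∀ u v, wt u v ≠ 0 → v ∈ P u

/-- `g` is Lipschitz for the edge lengths. -/
def Core.Lip {C : Type} {s : ℕ} (X : Core C s) (g : C → ℕ) : Prop :=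
  ∀ u v, X.wt u v ≠ 0 → g u ≤ g v + X.wt u v ∧ g v ≤ g u + X.wt u v

/-- A virtual centre: it has distance `l` from `u` and distance `m` from `w`
(if `u = w` and `l = m`, it is attached to `u` only; then `l = 0` is allowed). -/
structure Cen (C : Type) where
  u : C
  l : ℕ
  w : C
  m : ℕ

/-- Validity of a virtual centre. -/
def Cen.Valid {C : Type} {s : ℕ} (c : Cen C) (X : Core C s) : Prop :=
  (c.u = c.w ∧ c.l = c.m) ∨
    (0 < c.l ∧ 0 < c.m ∧ X.wt c.u c.w ≠ 0 ∧ X.wt c.u c.w ≤ c.l + c.m)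

/-- The centre reaches `x` within distance `n`. -/
def Cen.Reach {C : Type} {s : ℕ} (c : Cen C) (X : Core C s) (x : C) (n : ℕ) : Prop :=
  (∃ k, WR X.wt c.u x k ∧ c.l + k ≤ n) ∨ (∃ k, WR X.wt c.w x k ∧ c.m + k ≤ n)

/-- `g` certifies that the centre is at distance at least `n` from the zero set of `g`. -/
def Cen.Far {C : Type} (c : Cen C) (g : C → ℕ) (n : ℕ) : Prop :=
  n ≤ g c.u + c.l ∧ n ≤ g c.w + c.m

/-- A block with capacity `s` and scale `ε`: `tok k` are its tokens (`tok 0` is the root), the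
index type `I` enumerates the other nodes. -/
structure Block (r s ε : ℕ) (C I : Type) extends Core C s where
  tok : ℕ → C
  top : I → C
  top_inj : Function.Injective top
  tok_inj : ∀ k l, k < min ε (2 * r + 2 - ε) → l < min ε (2 * r + 2 - ε) → tok k = tok l → k = l
  top_ne_tok : ∀ i k, k < min ε (2 * r + 2 - ε) → top i ≠ tok k
  cen : I → Cen C
  valid : ∀ i, (cen i).Valid toCore
  tok_reach : ∀ k, k < min ε (2 * r + 2 - ε) → WR wt (tok 0) (tok k) k
  tok_cert : ∀ k, k < min ε (2 * r + 2 - ε) → ∃ g : C → ℕ, toCore.Lip g ∧ g (tok 0) = k + 1 ∧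
    ∀ x, rank (tok k) < rank x → g x = 0
  reach_top : ∀ i, (cen i).Reach toCore (top i) r
  reach_root : ∀ i, (cen i).Reach toCore (tok 0) (r + 1 - ε)
  cert : ∀ i, ∃ g : C → ℕ, toCore.Lip g ∧ g (tok 0) = ε ∧ (cen i).Far g (r + 1) ∧
    ∀ x, rank (top i) < rank x → g x = 0
  /-- blocks of large scale have no other nodes -/
  idx_le : ∀ _ : I, ε ≤ r + 1

/-- There is a block with `N` nodes (tokens included). -/
def HasBlock (r s ε N : ℕ) : Prop :=
  ∃ (C I : Type) (_ : Fintype C) (_ : Fintype I) (_ : Block r s ε C I),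
    N = Fintype.card I + min ε (2 * r + 2 - ε)

end SubPow
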