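import Pool.Agent.Helper15.Sub.LowDefs

/-!
Block SM: the two small designs.
`design_path`: the path `u_0, …, u_{d+r}` with `r = d / 2`, `rank (u_i) = i`, `P (u_i) = {u_{i+1}}`,
`v i = u_i`, `top i = u_{i+r}` for `i ≤ d`. `design_complete`: `K_{t+1}`, `r = 0`.
-/

namespace SubPow

open Finset

/-- the path with `m` vertices -/
def pathG (m : ℕ) : SimpleGraph (Fin m) where
  Adj a b := a.val + 1 = b.val ∨ b.val + 1 = a.val
  symm := ⟨fun _ _ h => h.symm⟩
  loopless := ⟨fun a h => by rcases h with h | h <;> omega⟩

theorem pathG_walk_le {m : ℕ} {a b : Fin m} (p : (pathG m).Walk a b) :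
    a.val ≤ b.val + p.length ∧ b.val ≤ a.val + p.length := by
  induction p with
  | nil => simp
  | cons h p ih =>
    rw [SimpleGraph.Walk.length_cons]
    rcases h with h | h <;> omega

theorem pathG_edist_le_iff {m : ℕ} (a b : Fin m) (n : ℕ) (h : a.val ≤ b.val) :
    (pathG m).edist a b ≤ (n : ℕ∞) ↔ b.val ≤ a.val + n := by
  constructor
  · intro h1
    obtain ⟨p, hp⟩ := SimpleGraph.exists_walk_of_edist_ne_top
      (ne_top_of_le_ne_top (ENat.natCast_ne_top _) h1)
    have h2 := (pathG_walk_le p).2
    rw [← hp] at h1
    have h3 : p.length ≤ n := by exact_mod_cast h1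
    omega
  · intro h1
    have key : ∀ (k : ℕ) (c : Fin m), c.val = a.val + k → (pathG m).edist a c ≤ (k : ℕ∞) := by
      intro k
      induction k with
      | zero =>
        intro c hc
        have : a = c := Fin.ext (by omega)
        subst this
        simp
      | succ k ih =>
        intro c hc
        have h3 := ih ⟨a.val + k, by omega⟩ rfl
        obtain ⟨p, hp⟩ := SimpleGraph.exists_walk_of_edist_ne_top
          (ne_top_of_le_ne_top (ENat.natCast_ne_top _) h3)
        have hadj : (pathG m).Adj ⟨a.val + k, by omega⟩ c := Or.inl (by simp; omega)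
        refine (SimpleGraph.edist_le (p.concat hadj)).trans ?_
        rw [← hp] at h3
        have h4 : p.length ≤ k := by exact_mod_cast h3
        rw [SimpleGraph.Walk.length_concat]
        exact_mod_cast Nat.succ_le_succ h4
    obtain ⟨k, hk⟩ := Nat.exists_eq_add_of_le h
    refine (key k b hk).trans ?_
    exact_mod_cast (by omega : k ≤ n)

/-- elimination structure of the path -/
def pathElim (m : ℕ) : Elim (pathG m) 1 where
  rank := Fin.val
  rank_inj := Fin.val_injective
  P v := if h : v.val + 1 < m then {⟨v.val + 1, h⟩} else ∅
  older := by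
    intro v u hu
    split at hu
    · rw [Finset.mem_singleton] at hu
      subst hu
      simp
    · simp at hu
  card_le := by
    intro v
    split <;> simp
  clique := by
    intro v u w hu hw huw
    split at hu
    · rename_i h
      rw [dif_pos h] at hw
      rw [Finset.mem_singleton] at hu hw
      subst hu
      subst hw
      exact absurd huw (lt_irrefl _)
    · simp at hu
  cover := by
    intro u v h huv
    have h1 : u.val + 1 = v.val := by
      rcases h with h | h
      · exact h
      · omega
    have h2 : u.val + 1 < m := h1 ▸ v.isLt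
    rw [dif_pos h2, Finset.mem_singleton]
    exact Fin.ext h1.symm

/-- the path design -/
theorem design_path (d : ℕ) : HasDesign d 1 (d + 1) := by
  refine ⟨Fin (d + d / 2 + 1), inferInstance, pathG _, pathElim _, d / 2,
    fun i => ⟨i.val, by omega⟩, fun i => ⟨i.val + d / 2, by omega⟩, by omega, by omega, ?_, ?_, ?_, ?_⟩
  · intro i j hij
    have h := congrArg Fin.val hij
    simp only at h
    exact Fin.ext (by omega)
  · intro i
    exact (pathG_edist_le_iff _ _ _ (by simp)).mpr (le_refl _)
  · intro i u hu h
    have hu' : i.val + d / 2 < u.val := hu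
    have h2 := (pathG_edist_le_iff _ _ _ (by simp; omega)).mp h
    simp only at h2
    omega
  · intro i j
    rcases le_total i.val j.val with h | h
    · refine (pathG_edist_le_iff (⟨i.val, by omega⟩ : Fin (d + d / 2 + 1))
        ⟨j.val, by omega⟩ d h).mpr ?_
      show j.val ≤ i.val + d
      omega
    · rw [SimpleGraph.edist_comm]
      refine (pathG_edist_le_iff (⟨j.val, by omega⟩ : Fin (d + d / 2 + 1))
        ⟨i.val, by omega⟩ d h).mpr ?_
      show i.val ≤ j.val + d
      omega

/-- elimination structure of the complete graph -/
def completeElim (t : ℕ) : Elim (⊤ : SimpleGraph (Fin (t + 1))) t where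
  rank := Fin.val
  rank_inj := Fin.val_injective
  P v := Finset.univ.filter (fun u => v < u)
  older := by
    intro v u hu
    simpa using hu
  card_le := by
    intro v
    have h : (Finset.univ.filter (fun u => v < u)) ⊆ Finset.univ.erase v := by
      intro u hu
      simp only [Finset.mem_filter, Finset.mem_univ, true_and] at hu
      simp [hu.ne']
    refine (Finset.card_le_card h).trans ?_
    simp
  clique := by
    intro v u w _ _ huw
    simpa using huw
  cover := by
    intro u v _ huv
    simpa using huv

/-- the complete graph on `t + 1` vertices -/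
theorem design_complete (t : ℕ) : HasDesign 1 t (t + 1) := by
  refine ⟨Fin (t + 1), inferInstance, ⊤, completeElim t, 0, id, id, by omega, by omega,
    Function.injective_id, ?_, ?_, ?_⟩
  · intro i
    simp
  · intro i u hu h
    have h1 : (⊤ : SimpleGraph (Fin (t + 1))).edist (id i) u = 0 := le_antisymm (by simpa using h) bot_le
    have h2 : id i = u := SimpleGraph.edist_eq_zero_iff.mp h1
    rw [← h2] at hu
    exact lt_irrefl _ hu
  · intro i j
    by_cases h : i = j
    · subst h
      simp
    · have hadj : (⊤ : SimpleGraph (Fin (t + 1))).Adj (id i) (id j) := h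
      have h1 := SimpleGraph.edist_le (SimpleGraph.Walk.cons hadj SimpleGraph.Walk.nil)
      simpa using h1

end SubPow
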