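import Pool.Agent.Helper15.Sub.Defs

/-! Block TD: elimination structures and tree decompositions. -/

namespace SubPow

open Finset

/-- In a rooted tree (`P i` = the path from the root to `i`), if `m` is the node of the connected
set `S` closest to the root, then for `i ∈ S` the path `P i` passes through `m` and stays in `S`
afterwards. -/
theorem rooted_key {ι : Type} {T : SimpleGraph ι} (r : ι) (P : ∀ i, T.Walk r i)
    (hP : ∀ i, (P i).IsPath) (hu : ∀ i (q : T.Walk r i), q.IsPath → q = P i)
    (S : Set ι) (hS : (T.induce S).Connected) (m : ι) (hm : m ∈ S)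
    (hmin : ∀ i ∈ S, (P m).length ≤ (P i).length) (i : ι) (hi : i ∈ S) :
    (P i).getVert (P m).length = m ∧ ∀ k, (P m).length ≤ k → (P i).getVert k ∈ S := by
  classical
  obtain ⟨q, hq⟩ := (hS.preconnected ⟨m, hm⟩ ⟨i, hi⟩).exists_isPath
  let φ : T.induce S →g T := (SimpleGraph.Embedding.induce S).toHom
  have hφ : Function.Injective φ := fun a b h => Subtype.ext h
  let q' : T.Walk m i := q.map φ
  have hq' : q'.IsPath := SimpleGraph.Walk.map_isPath_of_injective hφ hq
  have hsup : ∀ x ∈ q'.support, x ∈ S := by
    intro x hx
    have hx' : x ∈ (q.map φ).support := hx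
    rw [SimpleGraph.Walk.support_map] at hx'
    obtain ⟨y, -, rfl⟩ := List.mem_map.1 hx'
    exact y.2
  have hW : ((P m).append q').IsPath := by
    rw [SimpleGraph.Walk.isPath_def, SimpleGraph.Walk.support_append, List.nodup_append']
    refine ⟨(hP m).support_nodup, hq'.support_nodup.tail, ?_⟩
    intro x hx1 hx2
    have hxS : x ∈ S := hsup x (List.mem_of_mem_tail hx2)
    have hxm : x ≠ m := by
      rintro rfl
      have h1 := hq'.support_nodup
      rw [SimpleGraph.Walk.support_eq_cons] at h1
      exact (List.nodup_cons.1 h1).1 hx2
    have h2 : (P m).takeUntil x hx1 = P x := hu x _ ((hP m).takeUntil hx1)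
    have h3 := SimpleGraph.Walk.length_takeUntil_lt hx1 hxm
    rw [h2] at h3
    exact absurd (hmin x hxS) (by omega)
  have hWi : (P m).append q' = P i := hu i _ hW
  constructor
  · rw [← hWi, SimpleGraph.Walk.getVert_append]
    simp
  · intro k hk
    rw [← hWi, SimpleGraph.Walk.getVert_append, if_neg (by omega)]
    exact hsup _ (SimpleGraph.Walk.getVert_mem_support _ _)

/-- Root the tree; `τ v` = the bag containing `v` that is closest to the root; older = smaller
depth of `τ v` (ties broken arbitrarily); `P v` = the older vertices in the bag `τ v`. -/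
theorem elim_of_treeDecomposition {V : Type*} [Fintype V] {G : SimpleGraph V} {t : ℕ}
    (D : TreeDecomposition G) (hD : ∀ i, (D.bag i).card ≤ t + 1) : Nonempty (Elim G t) := by
  classical
  obtain ⟨r⟩ := D.isTree.connected.nonempty
  choose P hP hu using fun i => D.isTree.existsUnique_path r i
  have hex : ∀ v : V, ∃ m, v ∈ D.bag m ∧ ∀ i, v ∈ D.bag i → (P m).length ≤ (P i).length := by
    intro v
    have hne : {n | ∃ i, v ∈ D.bag i ∧ (P i).length = n}.Nonempty := by
      obtain ⟨i, hi⟩ := D.vertex_mem v
      exact ⟨_, i, hi, rfl⟩
    obtain ⟨m, hm, hm2⟩ := Nat.sInf_mem hne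
    refine ⟨m, hm, fun i hi => ?_⟩
    rw [hm2]
    exact Nat.sInf_le ⟨i, hi, rfl⟩
  choose τ hτ hτmin using hex
  have key : ∀ (u w : V) (i : D.ι), u ∈ D.bag i → w ∈ D.bag i →
      (P (τ w)).length ≤ (P (τ u)).length → w ∈ D.bag (τ u) := by
    intro u w i hui hwi hle
    have h1 := rooted_key r P hP hu {i | u ∈ D.bag i} (D.connected u) (τ u) (hτ u)
      (fun i hi => hτmin u i hi) i hui
    have h2 := rooted_key r P hP hu {i | w ∈ D.bag i} (D.connected w) (τ w) (hτ w)
      (fun i hi => hτmin w i hi) i hwi
    have h3 := h2.2 _ hle
    rw [h1.1] at h3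
    exact h3
  let N := Fintype.card V
  let e : V ≃ Fin N := Fintype.equivFin V
  let B : ℕ := Finset.univ.sup (fun v : V => (P (τ v)).length)
  have hB : ∀ v, (P (τ v)).length ≤ B := fun v =>
    Finset.le_sup (f := fun v : V => (P (τ v)).length) (Finset.mem_univ v)
  let rank : V → ℕ := fun v => (B - (P (τ v)).length) * N + (e v : ℕ)
  have hrank : ∀ u w, rank u < rank w → (P (τ w)).length ≤ (P (τ u)).length := by
    intro u w huw
    by_contra hcon
    push Not at hcon
    have h1 : (B - (P (τ w)).length) + 1 ≤ B - (P (τ u)).length := by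
      have := hB w
      omega
    have h2 : ((B - (P (τ w)).length) + 1) * N ≤ (B - (P (τ u)).length) * N :=
      Nat.mul_le_mul_right _ h1
    have h3 : (e w : ℕ) < N := (e w).2
    simp only [rank] at huw
    rw [add_mul, one_mul] at h2
    omega
  refine ⟨{
    rank := rank
    rank_inj := ?_
    P := fun v => (D.bag (τ v)).filter (fun u => rank v < rank u)
    older := ?_
    card_le := ?_
    clique := ?_
    cover := ?_ }⟩
  · intro u w huw
    have h1 : ∀ v, rank v % N = (e v : ℕ) := by
      intro v
      simp only [rank]
      rw [Nat.mul_add_mod_self_right]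
      exact Nat.mod_eq_of_lt (e v).2
    have h2 : (e u : ℕ) = (e w : ℕ) := by rw [← h1 u, ← h1 w, huw]
    exact e.injective (Fin.ext h2)
  · intro v u hu'
    exact (Finset.mem_filter.1 hu').2
  · intro v
    have hss : (D.bag (τ v)).filter (fun u => rank v < rank u) ⊆ (D.bag (τ v)).erase v := by
      intro u hu'
      rw [Finset.mem_filter] at hu'
      rw [Finset.mem_erase]
      refine ⟨?_, hu'.1⟩
      rintro rfl
      exact absurd hu'.2 (lt_irrefl _)
    have h1 := Finset.card_le_card hss
    rw [Finset.card_erase_of_mem (hτ v)] at h1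
    have h2 := hD (τ v)
    omega
  · intro v u w hu' hw' huw
    rw [Finset.mem_filter] at hu' hw' ⊢
    exact ⟨key u w (τ v) hu'.1 hw'.1 (hrank u w huw), huw⟩
  · intro u v huv hlt
    obtain ⟨i, hi1, hi2⟩ := D.edge_mem u v huv
    rw [Finset.mem_filter]
    exact ⟨key u v i hi1 hi2 (hrank u v hlt), hlt⟩

/-- The tree on `Option V` with `parent v = some (the youngest element of P v)` or `none`. -/
theorem treeDecomposition_of_elim {V : Type} [Fintype V] {G : SimpleGraph V} {t : ℕ}
    (E : Elim G t) : ∃ D : TreeDecomposition G, ∀ i, (D.bag i).card ≤ t + 1 := by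
  classical
  -- the parent
  have hpar : ∀ v : V, ∃ p : Option V, (p = none ∧ E.P v = ∅) ∨
      ∃ y ∈ E.P v, p = some y ∧ ∀ z ∈ E.P v, E.rank y ≤ E.rank z := by
    intro v
    rcases Finset.eq_empty_or_nonempty (E.P v) with h | h
    · exact ⟨none, Or.inl ⟨rfl, h⟩⟩
    · obtain ⟨y, hy, hy2⟩ := Finset.exists_min_image (E.P v) E.rank h
      exact ⟨some y, Or.inr ⟨y, hy, rfl, hy2⟩⟩
  choose par hpar' using hpar
  let T : SimpleGraph (Option V) := SimpleGraph.fromRel
    (fun a b => ∃ v, a = some v ∧ b = par v)
  have hadj : ∀ v, T.Adj (some v) (par v) := by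
    intro v
    rw [SimpleGraph.fromRel_adj]
    refine ⟨?_, Or.inl ⟨v, rfl, rfl⟩⟩
    intro h
    rcases hpar' v with ⟨h1, -⟩ | ⟨y, hy, h1, -⟩
    · rw [h1] at h
      exact absurd h (by simp)
    · rw [h1] at h
      have hvy : v = y := Option.some.inj h
      have := E.older v y hy
      rw [hvy] at this
      exact lt_irrefl _ this
  let B : ℕ := Finset.univ.sup E.rank
  have hB : ∀ v, E.rank v ≤ B := fun v => Finset.le_sup (Finset.mem_univ v)
  have hreach : ∀ (n : ℕ) (v : V), B - E.rank v ≤ n → T.Reachable (some v) none := by
    intro n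
    induction n with
    | zero =>
      intro v hv
      rcases hpar' v with ⟨h1, -⟩ | ⟨y, hy, h1, -⟩
      · have := (hadj v).reachable
        rwa [h1] at this
      · have h2 := E.older v y hy
        have h3 := hB y
        omega
    | succ n ih =>
      intro v hv
      rcases hpar' v with ⟨h1, -⟩ | ⟨y, hy, h1, -⟩
      · have := (hadj v).reachable
        rwa [h1] at this
      · have h2 := E.older v y hy
        have h3 := (hadj v).reachable
        rw [h1] at h3
        exact h3.trans (ih y (by omega))
  have hreach' : ∀ a : Option V, T.Reachable a none := by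
    intro a
    cases a with
    | none => exact SimpleGraph.Reachable.refl _
    | some v => exact hreach _ v le_rfl
  have hconn : T.Connected := by
    have : Nonempty (Option V) := ⟨none⟩
    exact SimpleGraph.Connected.mk (fun a b => (hreach' a).trans (hreach' b).symm)
  have hcard : Nat.card T.edgeSet ≤ Nat.card V := by
    let f : V → T.edgeSet := fun v => ⟨s(some v, par v), by
      rw [SimpleGraph.mem_edgeSet]
      exact hadj v⟩
    refine Nat.card_le_card_of_surjective f ?_
    rintro ⟨ed, hed⟩
    induction ed using Sym2.ind with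
    | _ a b =>
      rw [SimpleGraph.mem_edgeSet, SimpleGraph.fromRel_adj] at hed
      rcases hed.2 with ⟨v, rfl, rfl⟩ | ⟨v, rfl, rfl⟩
      · exact ⟨v, rfl⟩
      · refine ⟨v, ?_⟩
        apply Subtype.ext
        exact Sym2.eq_swap
  have htree : T.IsTree := by
    rw [SimpleGraph.isTree_iff_connected_and_card]
    refine ⟨hconn, le_antisymm ?_ hconn.card_vert_le_card_edgeSet_add_one⟩
    have : Nat.card (Option V) = Nat.card V + 1 := Finite.card_option
    omega
  let bag : Option V → Finset V := fun a => a.elim ∅ (fun v => insert v (E.P v))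
  have hbag : ∀ v, bag (some v) = insert v (E.P v) := fun v => rfl
  have hbag0 : bag none = ∅ := rfl
  refine ⟨{
    ι := Option V
    finite := inferInstance
    T := T
    isTree := htree
    bag := bag
    vertex_mem := ?_
    edge_mem := ?_
    connected := ?_ }, ?_⟩
  · intro v
    exact ⟨some v, by rw [hbag]; exact Finset.mem_insert_self _ _⟩
  · intro u v huv
    rcases lt_trichotomy (E.rank u) (E.rank v) with h | h | h
    · exact ⟨some u, by rw [hbag]; exact Finset.mem_insert_self _ _, by
        rw [hbag]
        exact Finset.mem_insert_of_mem (E.cover u v huv h)⟩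
    · exact absurd (E.rank_inj h) huv.ne
    · exact ⟨some v, by
        rw [hbag]
        exact Finset.mem_insert_of_mem (E.cover v u huv.symm h), by
        rw [hbag]; exact Finset.mem_insert_self _ _⟩
  · intro v
    have hv0 : (some v : Option V) ∈ {i | v ∈ bag i} := by
      show v ∈ bag (some v)
      rw [hbag]; exact Finset.mem_insert_self _ _
    have hr : ∀ (n : ℕ) (u : V) (hu : (some u : Option V) ∈ {i | v ∈ bag i}),
        B - E.rank u ≤ n →
        (T.induce {i | v ∈ bag i}).Reachable ⟨some u, hu⟩ ⟨some v, hv0⟩ := by
      intro n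
      induction n with
      | zero =>
        intro u hu hn
        by_cases huv : u = v
        · subst huv
          exact SimpleGraph.Reachable.refl _
        · have hu' : v ∈ insert u (E.P u) := hu
          have hvP : v ∈ E.P u := by
            rcases Finset.mem_insert.1 hu' with h | h
            · exact absurd h.symm huv
            · exact h
          have h2 := E.older u v hvP
          have h3 := hB v
          omega
      | succ n ih =>
        intro u hu hn
        by_cases huv : u = v
        · subst huv
          exact SimpleGraph.Reachable.refl _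
        · have hu' : v ∈ insert u (E.P u) := hu
          have hvP : v ∈ E.P u := by
            rcases Finset.mem_insert.1 hu' with h | h
            · exact absurd h.symm huv
            · exact h
          rcases hpar' u with ⟨-, h1⟩ | ⟨y, hy, h1, hymin⟩
          · rw [h1] at hvP
            exact absurd hvP (Finset.notMem_empty _)
          · have hyS : (some y : Option V) ∈ {i | v ∈ bag i} := by
              show v ∈ bag (some y)
              rw [hbag]
              by_cases hyv : y = v
              · rw [hyv]; exact Finset.mem_insert_self _ _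
              · have hlt : E.rank y < E.rank v := by
                  refine lt_of_le_of_ne (hymin v hvP) ?_
                  intro h
                  exact hyv (E.rank_inj h)
                exact Finset.mem_insert_of_mem (E.clique u y v hy hvP hlt)
            have h2 := E.older u y hy
            have hstep : (T.induce {i | v ∈ bag i}).Adj ⟨some u, hu⟩ ⟨some y, hyS⟩ := by
              show T.Adj (some u) (some y)
              have := hadj u
              rwa [h1] at this
            exact hstep.reachable.trans (ih y hyS (by omega))
    have hr' : ∀ a : {i | v ∈ bag i},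
        (T.induce {i | v ∈ bag i}).Reachable a ⟨some v, hv0⟩ := by
      rintro ⟨a, ha⟩
      cases a with
      | none =>
        have : v ∈ bag none := ha
        rw [hbag0] at this
        exact absurd this (Finset.notMem_empty _)
      | some u => exact hr _ u ha le_rfl
    have : Nonempty {i | v ∈ bag i} := ⟨⟨some v, hv0⟩⟩
    exact SimpleGraph.Connected.mk (fun a b => (hr' a).trans (hr' b).symm)
  · intro a
    cases a with
    | none =>
      show (bag none).card ≤ t + 1
      rw [hbag0, Finset.card_empty]
      exact Nat.zero_le _
    | some v =>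
      show (bag (some v)).card ≤ t + 1
      rw [hbag]
      exact (Finset.card_insert_le _ _).trans (by have := E.card_le v; omega)

/-- The trivial elimination structure. -/
theorem exists_trivial_elim {V : Type*} [Fintype V] (G : SimpleGraph V) :
    Nonempty (Elim G (Fintype.card V)) := by
  classical
  let e : V ≃ Fin (Fintype.card V) := Fintype.equivFin V
  refine ⟨{
    rank := fun v => (e v : ℕ)
    rank_inj := fun u w h => e.injective (Fin.ext h)
    P := fun v => Finset.univ.filter (fun u => (e v : ℕ) < (e u : ℕ))
    older := fun v u h => (Finset.mem_filter.1 h).2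
    card_le := fun v => (Finset.card_filter_le _ _).trans (by rw [Finset.card_univ])
    clique := fun v u w _ _ h => Finset.mem_filter.2 ⟨Finset.mem_univ _, h⟩
    cover := fun u v _ h => Finset.mem_filter.2 ⟨Finset.mem_univ _, h⟩ }⟩

theorem treewidth_le_iff {V : Type} [Fintype V] (G : SimpleGraph V) (t : ℕ) :
    treewidth G ≤ t ↔ Nonempty (Elim G t) := by
  constructor
  · intro h
    have hne : {w | ∃ D : TreeDecomposition G, ∀ i, (D.bag i).card ≤ w + 1}.Nonempty := by
      obtain ⟨E⟩ := exists_trivial_elim G
      exact ⟨_, treeDecomposition_of_elim E⟩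
    obtain ⟨D, hD⟩ := Nat.sInf_mem hne
    exact elim_of_treeDecomposition D (fun i => (hD i).trans (Nat.succ_le_succ h))
  · rintro ⟨E⟩
    exact Nat.sInf_le (treeDecomposition_of_elim E)

end SubPow
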