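import Pool.Agent.Helper15.Sub.Up
import Pool.Agent.Helper15.Sub.TD
import Pool.Agent.Helper15.Sub.Blow
import Pool.Agent.Helper15.Sub.Comp
import Pool.Agent.Helper15.Sub.Small

/-! The main theorem. -/

namespace SubPow

open Finset

theorem exists_subcolouring_formula (d t : ℕ) (hd : 1 ≤ d) {V : Type} [Fintype V]
    (G : SimpleGraph V) (E : Elim G t) :
    ∃ c : V → Fin (formula d t), IsSubcolouring (power G d) c := by
  rcases Nat.even_or_odd' d with ⟨r, hr | hr⟩
  · have h1 : 1 ≤ r := by omega
    subst hr
    rw [formula_even]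
    exact exists_subcolouring G E (2 * r) r 1 (Or.inr ⟨rfl, rfl, h1⟩)
  · subst hr
    rw [formula_odd]
    exact exists_subcolouring G E (2 * r + 1) r 0 (Or.inl ⟨rfl, rfl⟩)

theorem upper (d t : ℕ) (hd : 1 ≤ d) {V : Type} [Fintype V] (G : SimpleGraph V)
    (h : treewidth G ≤ t) : subchromatic (power G d) ≤ formula d t := by
  obtain ⟨E⟩ := (treewidth_le_iff G t).1 h
  exact Nat.sInf_le (exists_subcolouring_formula d t hd G E)

theorem exists_design (d t : ℕ) (hd : 1 ≤ d) (ht : 1 ≤ t) : HasDesign d t (formula d t) := by
  rcases Nat.lt_or_ge t 2 with ht2 | ht2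
  · have : t = 1 := by omega
    subst this
    rw [formula_one]
    exact design_path d
  · rcases Nat.even_or_odd' d with ⟨r, hr | hr⟩
    · have h1 : 1 ≤ r := by omega
      subst hr
      rw [formula_even]
      exact design_even h1 ht2
    · subst hr
      rcases Nat.eq_zero_or_pos r with h0 | h0
      · subst h0
        have h1 : formula (2 * 0 + 1) t = t + 1 := by
          rw [formula_odd, AA_step t le_rfl]
          have : ∑ l ∈ range (t + 1), AA 0 l (2 * 0 + 1) = 0 := by
            apply sum_eq_zero
            intro l _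
            rw [AA_base l (by omega)]
            simp
          rw [this]
          ring
        rw [h1]
        exact design_complete t
      · rw [formula_odd]
        exact design_odd h0 ht2

theorem le_subchromatic {V : Type} [Fintype V] {H : SimpleGraph V} {k : ℕ}
    (hk : 1 ≤ k) (hne : {k | ∃ c : V → Fin k, IsSubcolouring H c}.Nonempty)
    (h : ∀ c : V → Fin (k - 1), ¬ IsSubcolouring H c) : k ≤ subchromatic H := by
  by_contra hlt
  obtain ⟨c, hc⟩ := Nat.sInf_mem hne
  have hle : sInf {k | ∃ c : V → Fin k, IsSubcolouring H c} ≤ k - 1 := by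
    unfold subchromatic at hlt
    omega
  refine h (fun v => Fin.castLE hle (c v)) ?_
  intro u v w huv hvw huw h1 h2
  exact hc u v w huv hvw huw (Fin.castLE_injective hle h1) (Fin.castLE_injective hle h2)

theorem main (d t : ℕ) (hd : 1 ≤ d) :
    IsGreatest {k | ∃ (V : Type) (_ : Fintype V) (G : SimpleGraph V),
      treewidth G ≤ t ∧ subchromatic (power G d) = k} (formula d t) := by
  constructor
  · rcases Nat.eq_zero_or_pos t with h0 | h0
    · subst h0
      have hE : Nonempty (Elim (⊥ : SimpleGraph Unit) 0) :=
        ⟨{ rank := fun _ => 0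
           rank_inj := fun _ _ _ => Subsingleton.elim _ _
           P := fun _ => ∅
           older := by simp
           card_le := by simp
           clique := by simp
           cover := by simp }⟩
      have htw := (treewidth_le_iff (⊥ : SimpleGraph Unit) 0).2 hE
      obtain ⟨E⟩ := hE
      refine ⟨Unit, inferInstance, ⊥, htw, ?_⟩
      refine le_antisymm (upper d 0 hd _ htw) ?_
      rw [formula_zero]
      refine le_subchromatic le_rfl ⟨_, exists_subcolouring_formula d 0 hd _ E⟩ ?_
      intro c _
      exact (c ()).elim0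
    · have hk : 1 ≤ formula d t := by unfold formula; omega
      obtain ⟨V, hV, G, ⟨E⟩, hG⟩ := lower_of_design hk (exists_design d t hd h0)
      have htw := (treewidth_le_iff G t).2 ⟨E⟩
      refine ⟨V, hV, G, htw, ?_⟩
      exact le_antisymm (upper d t hd _ htw)
        (le_subchromatic hk ⟨_, exists_subcolouring_formula d t hd _ E⟩ hG)
  · rintro k ⟨V, _, G, htw, rfl⟩
    exact upper d t hd G htw

end SubPow
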