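import Pool.Agent.Helper15.Sub.AlgDefs

/-!
Block RB: dual vectors, one step along an edge, boundary vectors.

Dual vector. Let `A` be the `V × V` matrix over `O` with row `q` equal to
`(δ_{qz} - [G.Adj q z] ϖ w_{q,z})_z` for `q ∈ S` and to `(δ_{qz})_z` for `q ∉ S`. Its determinant is
`1` modulo the maximal ideal, so it is a unit; `H = A⁻¹`. For `p : V` let
`χ_p : (V → L) → L`, `χ_p v = ∑ q, v q * H q p` (`L`-linear). From `A H = 1`:
`χ_p (rho_q) = δ_{qp}` for `q ∈ S`, `χ_p (e_q) = H q p = δ_{qp}` for `q ∉ S`, and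
`H q p = δ_{qp} + ϖ ∑_{y ~ q} w_{q,y} H y p` for `q ∈ S`. Hence `H p p ∈ 1 + ϖ O`, and
`ϖ ^ (k+1) ∣ H q p` if `¬ G.edist q p ≤ k` (induction on `k`).

(V3) `p ∈ K`, so `p ∉ S`. If `e_p = u + v`, `u ∈ LT C b`, `s^{-(a+1)} v ∈ R`: `χ_p (u) ∈ ϖ O`
(`u_c ∈ s^{-b c} O`, `s^{b c + 1} ∣ H c p`), `χ_p (v) ∈ ϖ O` (`χ_p (R) ⊆ O`), but `χ_p (e_p) = H p p`
is `1` modulo `ϖ`.

(V2) `p ∈ S`, so `p ∉ K`. Write `e_p = u + ∑_{q ∈ S} λ_q rho_q + s^{a+1} ∑_{o ∈ K} μ_o e_o`,
`u ∈ LT C b`, `λ_q ∈ L`, `μ_o ∈ O`. Apply `χ_p`: `H p p = χ_p (u) + λ_p`, so `λ_p ∈ 1 + ϖ O`.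
Let `τ` be the endomorphism for the pair `(p, y)`, extended to `L` by `IsFractionRing.map`,
applied coordinatewise: `τ (e_q) = e_q`, `τ (rho_q) = rho_q` for `q ≠ p`,
`τ (rho_p) = rho_p - s e_y`, `τ (u) ∈ LT C b`. So
`s τ(λ_p) e_y = τ(u) + ∑ τ(λ_q) rho_q + s^{a+1} ∑ τ(μ_o) e_o - e_p ∈ LT C b ⊔ sh (a+1) R` (also `e_p`
is in there by hypothesis), and `τ (λ_p)` is a unit of `O`; multiply by `s⁻¹`.
-/

namespace SubPow

open Finset

variable {O V : Type*} [CommRing O] [IsDomain O] [IsDiscreteValuationRing O]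
  (L : Type*) [Field L] [Algebra O L] [IsFractionRing O L] [Fintype V] [DecidableEq V]
  (G : SimpleGraph V) (W : WData V O) {S K : Finset V}

/-- The dual vector. -/
theorem exists_dual (hdisj : Disjoint S K) (p : V) :
    ∃ H : V → O, (∃ x, H p = 1 + W.ϖ * x) ∧
      (∀ q (k : ℕ), ¬ G.edist q p ≤ (k : ℕ∞) → W.ϖ ^ (k + 1) ∣ H q) ∧
      (∀ q, q ∉ S → H q = if q = p then 1 else 0) ∧
      (∀ q, q ∈ S → ∑ z, rho L G W q z * algebraMap O L (H z) = if q = p then 1 else 0) := by
  classical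
  have hres : IsLocalRing.residue O W.ϖ = 0 := by
    by_contra hne
    exact W.irr.not_isUnit ((IsLocalRing.residue_ne_zero_iff_isUnit _).1 hne)
  let A : Matrix V V O := fun q z => (if z = q then 1 else 0) -
    (if q ∈ S ∧ G.Adj q z then W.ϖ * W.w q z else 0)
  have hdet : IsUnit A.det := by
    rw [← IsLocalRing.residue_ne_zero_iff_isUnit, RingHom.map_det]
    have h1 : (IsLocalRing.residue O).mapMatrix A = 1 := by
      ext q z
      rw [RingHom.mapMatrix_apply, Matrix.map_apply, Matrix.one_apply]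
      simp only [A, map_sub]
      have h2 : IsLocalRing.residue O (if q ∈ S ∧ G.Adj q z then W.ϖ * W.w q z else 0) = 0 := by
        split_ifs
        · rw [map_mul, hres, zero_mul]
        · rw [map_zero]
      rw [h2, sub_zero]
      by_cases h3 : z = q
      · rw [if_pos h3, if_pos h3.symm, map_one]
      · rw [if_neg h3, if_neg (fun h => h3 h.symm), map_zero]
    rw [h1, Matrix.det_one]
    exact one_ne_zero
  have hmul : A * A⁻¹ = 1 := Matrix.mul_nonsing_inv A hdet
  obtain ⟨H, hH⟩ : ∃ H : V → O, H = fun z => A⁻¹ z p := ⟨_, rfl⟩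
  have hrow : ∀ q, ∑ z, A q z * H z = if q = p then 1 else 0 := by
    intro q
    have := congrFun (congrFun hmul q) p
    rw [Matrix.mul_apply, Matrix.one_apply] at this
    rw [hH]
    exact this
  have hrec : ∀ q, H q = (if q = p then 1 else 0) +
      W.ϖ * ∑ z, (if q ∈ S ∧ G.Adj q z then W.w q z * H z else 0) := by
    intro q
    rw [← hrow q]
    have h4 : ∑ z, A q z * H z = H q -
        W.ϖ * ∑ z, (if q ∈ S ∧ G.Adj q z then W.w q z * H z else 0) := by
      rw [Finset.mul_sum]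
      have h5 : H q = ∑ z, (if z = q then H z else 0) := by
        rw [Finset.sum_ite_eq' Finset.univ q]
        simp
      conv_rhs => rw [h5]
      rw [← Finset.sum_sub_distrib]
      refine Finset.sum_congr rfl fun z _ => ?_
      simp only [A]
      split_ifs <;> ring
    rw [h4]
    ring
  have hdiv : ∀ (k : ℕ) (q : V), ¬ G.edist q p ≤ (k : ℕ∞) → W.ϖ ^ (k + 1) ∣ H q := by
    intro k
    induction k with
    | zero =>
      intro q hq
      have hqp : q ≠ p := by
        rintro rfl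
        apply hq
        simp
      rw [hrec q, if_neg hqp, zero_add, zero_add, pow_one]
      exact dvd_mul_right _ _
    | succ k ih =>
      intro q hq
      have hqp : q ≠ p := by
        rintro rfl
        apply hq
        simp
      rw [hrec q, if_neg hqp, zero_add, pow_succ']
      refine mul_dvd_mul_left _ (Finset.dvd_sum fun z _ => ?_)
      split_ifs with h
      · refine Dvd.dvd.mul_left (ih z fun hz => hq ?_) _
        calc G.edist q p ≤ G.edist q z + G.edist z p := G.edist_triangle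
          _ ≤ 1 + (k : ℕ∞) := by
            gcongr
            rw [SimpleGraph.edist_eq_one_iff_adj.2 h.2]
          _ = ((k + 1 : ℕ) : ℕ∞) := by
            push_cast
            ring
      · exact dvd_zero _
  refine ⟨H, ⟨∑ z, (if p ∈ S ∧ G.Adj p z then W.w p z * H z else 0), ?_⟩,
    fun q k h => hdiv k q h, ?_, ?_⟩
  · have := hrec p
    rw [if_pos rfl] at this
    exact this
  · intro q hq
    have := hrec q
    rw [this]
    simp [hq]
  · intro q hq
    have := congrArg (algebraMap O L) (hrow q)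
    rw [map_sum] at this
    have h6 : algebraMap O L (if q = p then 1 else 0) = if q = p then 1 else 0 := by
      split_ifs <;> simp
    rw [h6] at this
    rw [← this]
    refine Finset.sum_congr rfl fun z _ => ?_
    rw [map_mul]
    congr 1
    simp only [rho, A, map_sub, WData.s]
    congr 1
    · split_ifs <;> simp
    · simp only [hq, true_and]
      split_ifs <;> simp

namespace RelB

/-- The functional given by a vector `H` over `O`. -/
noncomputable def chi (H : V → O) : (V → L) →ₗ[L] L where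
  toFun v := ∑ q, v q * algebraMap O L (H q)
  map_add' v w := by
    simp only [Pi.add_apply, add_mul, Finset.sum_add_distrib]
  map_smul' c v := by
    simp only [Pi.smul_apply, smul_eq_mul, RingHom.id_apply, Finset.mul_sum, mul_assoc]

lemma chi_apply (H : V → O) (v : V → L) : chi L H v = ∑ q, v q * algebraMap O L (H q) := rfl

lemma chi_ee (H : V → O) (q : V) : chi L H (ee L q) = algebraMap O L (H q) := by
  rw [chi_apply]
  simp [ee, Pi.single_apply]

lemma s_ne : W.s L ≠ 0 := by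
  rw [WData.s]
  intro h
  have := (IsFractionRing.injective O L) (h.trans (map_zero _).symm)
  exact W.irr.ne_zero this

/-- The functional on `LT C b` is divisible by `s`. -/
lemma chi_LT (H : V → O) (C : Finset V) (b : V → ℕ)
    (hH : ∀ c ∈ C, W.ϖ ^ (b c + 1) ∣ H c) (u : V → L) (hu : u ∈ LT O (W.s L) C b) :
    ∃ x : O, chi L H u = W.s L * algebraMap O L x := by
  classical
  have hs := s_ne L W
  have key : ∀ q, ∃ x : O, u q * algebraMap O L (H q) = W.s L * algebraMap O L x := by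
    intro q
    by_cases hq : q ∈ C
    · obtain ⟨x, hx⟩ := hu.2 q hq
      obtain ⟨y, hy⟩ := hH q hq
      refine ⟨x * y, ?_⟩
      rw [hy, map_mul, map_mul, hx, map_pow]
      change u q * (W.s L ^ (b q + 1) * _) = _
      ring
    · exact ⟨0, by rw [hu.1 q hq]; simp⟩
  choose f hf using key
  refine ⟨∑ q, f q, ?_⟩
  rw [chi_apply, map_sum, Finset.mul_sum]
  exact Finset.sum_congr rfl fun q _ => hf q

omit [IsDomain O] [IsDiscreteValuationRing O] [IsFractionRing O L] [Fintype V] [DecidableEq V] in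
lemma exists_ext {R M : Type*} [Semiring R] [AddCommMonoid M] [Module R M] (T : Finset V)
    (f : V → M) (c : T → R) : ∃ c' : V → R, ∑ i : T, c i • f i = ∑ i ∈ T, c' i • f i := by
  classical
  refine ⟨fun q => if h : q ∈ T then c ⟨q, h⟩ else 0, ?_⟩
  rw [← Finset.sum_coe_sort T]
  refine Finset.sum_congr rfl fun i _ => ?_
  change c i • f i = (if h : (i : V) ∈ T then c ⟨i, h⟩ else 0) • f i
  rw [dif_pos i.2]

/-- Elements of the relation module. -/
lemma mem_RR {r : V → L} : r ∈ RR L G W S K ↔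
    ∃ (c : V → L) (m : V → O), r = ∑ q ∈ S, c q • rho L G W q +
      ∑ o ∈ K, algebraMap O L (m o) • ee L o := by
  classical
  rw [RR, Submodule.mem_sup]
  constructor
  · rintro ⟨x, hx, y, hy, rfl⟩
    rw [Submodule.restrictScalars_mem] at hx
    rw [Submodule.mem_span_image_finset_iff_exists_fun] at hx hy
    obtain ⟨c0, hc0⟩ := hx
    obtain ⟨m0, hm0⟩ := hy
    obtain ⟨c, hc⟩ := exists_ext S (rho L G W) c0
    obtain ⟨m, hm⟩ := exists_ext K (ee L) m0
    refine ⟨c, m, ?_⟩
    rw [← hc0, hc, ← hm0, hm]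
    congr 1
    refine Finset.sum_congr rfl fun o _ => ?_
    rw [algebraMap_smul]
  · rintro ⟨c, m, rfl⟩
    refine ⟨_, ?_, _, ?_, rfl⟩
    · rw [Submodule.restrictScalars_mem]
      exact Submodule.sum_mem _ fun q hq =>
        Submodule.smul_mem _ _ (Submodule.subset_span ⟨q, hq, rfl⟩)
    · refine Submodule.sum_mem _ fun o ho => ?_
      rw [algebraMap_smul]
      exact Submodule.smul_mem _ _ (Submodule.subset_span ⟨o, ho, rfl⟩)

/-- The functional of the dual vector on the relation module. -/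
lemma chi_sum (hdisj : Disjoint S K) {p : V} {H : V → O}
    (h3 : ∀ q, q ∈ S → ∑ z, rho L G W q z * algebraMap O L (H z) = if q = p then 1 else 0)
    (c : V → L) (m : V → O) :
    chi L H (∑ q ∈ S, c q • rho L G W q + ∑ o ∈ K, algebraMap O L (m o) • ee L o) =
      (if p ∈ S then c p else 0) + algebraMap O L (∑ o ∈ K, m o * H o) := by
  classical
  rw [map_add, map_sum, map_sum, map_sum]
  congr 1
  · rw [← Finset.sum_ite_eq' S p c]
    refine Finset.sum_congr rfl fun q hq => ?_
    rw [map_smul, chi_apply, h3 q hq, smul_eq_mul]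
    by_cases h : q = p
    · rw [if_pos h, if_pos h, mul_one]
    · rw [if_neg h, if_neg h, mul_zero]
  · refine Finset.sum_congr rfl fun o _ => ?_
    rw [map_smul, chi_ee, map_mul, smul_eq_mul]

/-- Coordinatewise application of a ring endomorphism of `L`. -/
def coord (σ : L →+* L) : (V → L) →+ (V → L) where
  toFun v q := σ (v q)
  map_zero' := by funext q; simp
  map_add' v w := by funext q; simp

lemma coord_apply (σ : L →+* L) (v : V → L) (q : V) : coord L σ v q = σ (v q) := rfl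

lemma coord_smul (σ : L →+* L) (c : L) (v : V → L) : coord L σ (c • v) = σ c • coord L σ v := by
  funext q
  simp [coord_apply]

lemma coord_ee (σ : L →+* L) (q : V) : coord L σ (ee L q) = ee L q := by
  funext z
  rw [coord_apply]
  by_cases h : z = q
  · subst h; simp [ee]
  · simp [ee, h]

end RelB

open RelB in
theorem step_mem (hdisj : Disjoint S K) (hnb : ∀ p ∈ S, ∀ y, G.Adj p y → y ∈ S ∪ K)
    {p y : V} (hp : p ∈ S) (hy : G.Adj p y) (C : Finset V) (b : V → ℕ) (a : ℕ)
    (hb : ∀ c ∈ C, ¬ G.edist c p ≤ (b c : ℕ∞))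
    (h : ee L p ∈ LT O (W.s L) C b ⊔ sh (W.s L) ((a : ℤ) + 1) (RR L G W S K)) :
    ee L y ∈ LT O (W.s L) C (fun q => b q + 1) ⊔ sh (W.s L) (a : ℤ) (RR L G W S K) := by
  classical
  obtain ⟨H, ⟨x, hx⟩, hdiv, -, h3⟩ := exists_dual L G W hdisj p
  have hs := s_ne L W
  have hpe := h
  obtain ⟨u, hu, v, hv, huv⟩ := Submodule.mem_sup.1 h
  rw [mem_sh] at hv
  obtain ⟨c, m, hcm⟩ := (mem_RR L G W).1 hv
  obtain ⟨y', hy'⟩ := chi_LT L W H C b (fun c hc => hdiv c (b c) (hb c hc)) u hu
  -- the coefficient of `rho p`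
  have h1 := congrArg (chi L H) hcm
  rw [chi_sum L G W hdisj h3, if_pos hp, map_smul, smul_eq_mul] at h1
  have h2 : chi L H v = W.s L ^ ((a : ℤ) + 1) * (c p + algebraMap O L (∑ o ∈ K, m o * H o)) := by
    rw [← h1, ← mul_assoc, ← zpow_add₀ hs]
    simp
  have h4 := congrArg (chi L H) huv
  rw [map_add, hy', h2, chi_ee, hx] at h4
  have h5 : W.s L ^ ((a : ℤ) + 1) = W.s L * algebraMap O L (W.ϖ ^ a) := by
    rw [zpow_add₀ hs, zpow_natCast, zpow_one, map_pow]
    rw [WData.s]
    ring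
  have h6 : W.s L ^ ((a : ℤ) + 1) * c p =
      algebraMap O L (1 + W.ϖ * (x - y' - W.ϖ ^ a * ∑ o ∈ K, m o * H o)) := by
    rw [mul_add] at h4
    rw [eq_sub_iff_add_eq.2 (by rw [← h4]; ring : W.s L ^ ((a : ℤ) + 1) * c p +
      (W.s L * algebraMap O L y' + W.s L ^ ((a : ℤ) + 1) * algebraMap O L (∑ o ∈ K, m o * H o)) =
      algebraMap O L (1 + W.ϖ * x)), h5]
    simp only [map_mul, map_add, map_sub, WData.s]
    ring
  set e : O := 1 + W.ϖ * (x - y' - W.ϖ ^ a * ∑ o ∈ K, m o * H o) with he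
  have hunit : IsUnit e := by
    have hm : W.ϖ * (x - y' - W.ϖ ^ a * ∑ o ∈ K, m o * H o) ∈ IsLocalRing.maximalIdeal O :=
      Ideal.mul_mem_right _ _ ((IsLocalRing.mem_maximalIdeal _).2 W.irr.not_isUnit)
    by_contra hne
    have h7 : e ∈ IsLocalRing.maximalIdeal O := (IsLocalRing.mem_maximalIdeal _).2 hne
    have h8 : (1 : O) ∈ IsLocalRing.maximalIdeal O := by
      have := Ideal.sub_mem _ h7 hm
      rwa [he, add_sub_cancel_right] at this
    exact (Ideal.ne_top_iff_one _).1 (IsLocalRing.maximalIdeal.isMaximal O).ne_top h8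
  -- the endomorphism
  obtain ⟨τ, hτinj, hτϖ, hτp, hτq⟩ := W.move p y
  let σ : L →+* L := IsFractionRing.map hτinj
  have hσ : ∀ z : O, σ (algebraMap O L z) = algebraMap O L (τ z) := fun z =>
    IsLocalization.map_eq _ z
  have hσs : σ (W.s L) = W.s L := by rw [WData.s, hσ, hτϖ]
  have hrho : ∀ q, coord L σ (rho L G W q) =
      rho L G W q - (if q = p then W.s L else 0) • ee L y := by
    intro q
    funext z
    rw [coord_apply, Pi.sub_apply, Pi.smul_apply, smul_eq_mul]
    simp only [rho, map_sub]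
    have e1 : σ (if z = q then 1 else 0) = if z = q then 1 else 0 := by
      split_ifs <;> simp
    rw [e1, sub_sub]
    congr 1
    by_cases hqz : (q, z) = (p, y)
    · obtain ⟨rfl, rfl⟩ := Prod.mk.inj hqz
      rw [if_pos hy, if_pos rfl, map_mul, hσs, hσ, hτp, map_add, map_one]
      simp [ee]
      ring
    · have e2 : (if q = p then W.s L else 0) * ee L y z = 0 := by
        by_cases hq : q = p
        · have hz : z ≠ y := fun hz => hqz (by rw [hq, hz])
          simp [ee, hz]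
        · rw [if_neg hq, zero_mul]
      rw [e2, add_zero]
      split_ifs with h7
      · rw [map_mul, hσs, hσ, hτq _ _ hqz]
      · simp
  have hTu : coord L σ u ∈ LT O (W.s L) C b := by
    refine ⟨fun q hq => ?_, fun q hq => ?_⟩
    · rw [coord_apply, hu.1 q hq, map_zero]
    · obtain ⟨z, hz⟩ := hu.2 q hq
      refine ⟨τ z, ?_⟩
      rw [← hσ, hz, map_mul, map_pow, hσs, coord_apply]
  -- apply the endomorphism
  have hv2 : v = W.s L ^ ((a : ℤ) + 1) • (∑ q ∈ S, c q • rho L G W q +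
      ∑ o ∈ K, algebraMap O L (m o) • ee L o) := by
    rw [← hcm, smul_smul, ← zpow_add₀ hs]
    simp
  have hσsz : σ (W.s L ^ ((a : ℤ) + 1)) = W.s L ^ ((a : ℤ) + 1) := by
    rw [map_zpow₀, hσs]
  have hTv : coord L σ v = W.s L ^ ((a : ℤ) + 1) • (∑ q ∈ S, σ (c q) • rho L G W q +
      ∑ o ∈ K, algebraMap O L (τ (m o)) • ee L o) -
      (W.s L * algebraMap O L (τ e)) • ee L y := by
    rw [hv2, coord_smul, hσsz, map_add, map_sum, map_sum]
    have e3 : ∑ q ∈ S, coord L σ (c q • rho L G W q) =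
        ∑ q ∈ S, σ (c q) • rho L G W q - (σ (c p) * W.s L) • ee L y := by
      have e4 : (σ (c p) * W.s L) • ee L y =
          ∑ q ∈ S, (if q = p then (σ (c p) * W.s L) • ee L y else 0) := by
        rw [Finset.sum_ite_eq' S p, if_pos hp]
      rw [e4, ← Finset.sum_sub_distrib]
      refine Finset.sum_congr rfl fun q _ => ?_
      rw [coord_smul, hrho, smul_sub]
      congr 1
      by_cases hq : q = p
      · subst hq
        rw [if_pos rfl, if_pos rfl, smul_smul]
      · rw [if_neg hq, if_neg hq, zero_smul, smul_zero]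
    have e5 : ∑ o ∈ K, coord L σ (algebraMap O L (m o) • ee L o) =
        ∑ o ∈ K, algebraMap O L (τ (m o)) • ee L o := by
      refine Finset.sum_congr rfl fun o _ => ?_
      rw [coord_smul, coord_ee, hσ]
    rw [e3, e5]
    have e6 : W.s L ^ ((a : ℤ) + 1) • ((σ (c p) * W.s L) • ee L y) =
        (W.s L * algebraMap O L (τ e)) • ee L y := by
      rw [smul_smul]
      congr 1
      rw [← hσ, ← h6, map_mul, hσsz]
      ring
    rw [← e6, ← smul_sub]
    congr 1
    abel
  have h9 : (W.s L * algebraMap O L (τ e)) • ee L y ∈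
      LT O (W.s L) C b ⊔ sh (W.s L) ((a : ℤ) + 1) (RR L G W S K) := by
    have e7 := congrArg (coord L σ) huv
    rw [map_add, coord_ee, hTv] at e7
    have e8 : (W.s L * algebraMap O L (τ e)) • ee L y = coord L σ u +
        W.s L ^ ((a : ℤ) + 1) • (∑ q ∈ S, σ (c q) • rho L G W q +
          ∑ o ∈ K, algebraMap O L (τ (m o)) • ee L o) - ee L p := by
      rw [← e7]
      abel
    rw [e8]
    refine Submodule.sub_mem _ (Submodule.add_mem _ (Submodule.mem_sup_left hTu)
      (Submodule.mem_sup_right ?_)) hpe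
    rw [mem_sh, smul_smul, ← zpow_add₀ hs]
    rw [(by ring : -((a : ℤ) + 1) + ((a : ℤ) + 1) = 0), zpow_zero, one_smul]
    exact (mem_RR L G W).2 ⟨_, _, rfl⟩
  have hunit2 : IsUnit (τ e) := hunit.map τ
  obtain ⟨f, hf⟩ := hunit2.exists_left_inv
  have h10 : W.s L • ee L y ∈
      LT O (W.s L) C b ⊔ sh (W.s L) ((a : ℤ) + 1) (RR L G W S K) := by
    have := Submodule.smul_mem _ f h9
    rw [← algebraMap_smul L f, smul_smul] at this
    have e9 : algebraMap O L f * (W.s L * algebraMap O L (τ e)) = W.s L := by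
      rw [mul_left_comm, ← map_mul, hf, map_one, mul_one]
    rwa [e9] at this
  obtain ⟨u', hu', v', hv', huv'⟩ := Submodule.mem_sup.1 h10
  refine Submodule.mem_sup.2 ⟨(W.s L)⁻¹ • u', ?_, (W.s L)⁻¹ • v', ?_, ?_⟩
  · refine ⟨fun q hq => ?_, fun q hq => ?_⟩
    · rw [Pi.smul_apply, hu'.1 q hq, smul_zero]
    · obtain ⟨z, hz⟩ := hu'.2 q hq
      refine ⟨z, ?_⟩
      rw [hz, Pi.smul_apply, smul_eq_mul, pow_succ]
      field_simp
  · rw [mem_sh] at hv' ⊢
    rw [smul_smul]
    have e10 : W.s L ^ (-(a : ℤ)) * (W.s L)⁻¹ = W.s L ^ (-((a : ℤ) + 1)) := by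
      rw [← zpow_neg_one, ← zpow_add₀ hs]
      congr 1
      ring
    rwa [e10]
  · rw [← smul_add, huv', smul_smul, inv_mul_cancel₀ hs, one_smul]

open RelB in
theorem ee_not_mem (hdisj : Disjoint S K) (hnb : ∀ p ∈ S, ∀ y, G.Adj p y → y ∈ S ∪ K)
    {p : V} (hp : p ∈ K) (C : Finset V) (b : V → ℕ) (a : ℕ)
    (hb : ∀ c ∈ C, ¬ G.edist c p ≤ (b c : ℕ∞)) :
    ee L p ∉ LT O (W.s L) C b ⊔ sh (W.s L) ((a : ℤ) + 1) (RR L G W S K) := by
  classical
  intro hmem
  obtain ⟨H, ⟨x, hx⟩, hdiv, -, h3⟩ := exists_dual L G W hdisj p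
  have hs := s_ne L W
  have hpS : p ∉ S := fun h => Finset.disjoint_left.1 hdisj h hp
  obtain ⟨u, hu, v, hv, huv⟩ := Submodule.mem_sup.1 hmem
  rw [mem_sh] at hv
  obtain ⟨c, m, hcm⟩ := (mem_RR L G W).1 hv
  obtain ⟨y, hy⟩ := chi_LT L W H C b (fun c hc => hdiv c (b c) (hb c hc)) u hu
  have h1 := congrArg (chi L H) hcm
  rw [chi_sum L G W hdisj h3, if_neg hpS, zero_add, map_smul, smul_eq_mul] at h1
  have h2 : chi L H v = W.s L ^ ((a : ℤ) + 1) * algebraMap O L (∑ o ∈ K, m o * H o) := by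
    rw [← h1, ← mul_assoc, ← zpow_add₀ hs]
    simp
  have h4 := congrArg (chi L H) huv
  rw [map_add, hy, h2, chi_ee, hx] at h4
  have h5 : W.s L ^ ((a : ℤ) + 1) = W.s L * algebraMap O L (W.ϖ ^ a) := by
    rw [zpow_add₀ hs, zpow_natCast, zpow_one, map_pow]
    rw [WData.s]
    ring
  rw [h5] at h4
  have h6 : algebraMap O L (1 + W.ϖ * x) =
      algebraMap O L (W.ϖ * (y + W.ϖ ^ a * ∑ o ∈ K, m o * H o)) := by
    rw [← h4]
    simp only [map_mul, map_add, WData.s]
    ring
  have h7 := IsFractionRing.injective O L h6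
  apply W.irr.not_isUnit
  refine IsUnit.of_mul_eq_one (y + W.ϖ ^ a * (∑ o ∈ K, m o * H o) - x) ?_
  linear_combination -h7

end SubPow
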