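import Pool.Agent.Helper15.Sub.RelA
import Pool.Agent.Helper15.Sub.RelB
import Pool.Agent.Helper15.Sub.LenB

/-!
Block RC: distance to the boundary in terms of the relation module.

`←`: induction on `i`: `¬ near K q i` implies `q ∈ S`, `e_q = rho_q + s ∑ w_{q,y} e_y`, and
`¬ near K y (i - 1)` for the neighbours `y` (all in `S ∪ K`); for `i = 0` use `ee_mem_RR`.
`→`: let `δ ≤ i` be the distance from `q` to `K`, `q = q_0, …, q_δ` a shortest path to `K`,
`q_0, …, q_{δ-1} ∈ S`. By `step_mem` with `C = ∅`: `e_{q_l} ∈ sh (i + 1 - l) R`; for `l = δ` this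
contradicts `ee_not_mem`.
-/

namespace SubPow

open Finset

variable {O V : Type*} [CommRing O] [IsDomain O] [IsDiscreteValuationRing O]
  (L : Type*) [Field L] [Algebra O L] [IsFractionRing O L] [Fintype V] [DecidableEq V]
  (G : SimpleGraph V) (W : WData V O) {S K : Finset V}

theorem exists_step {q k : V} {n : ℕ} (h : G.edist q k ≤ ((n + 1 : ℕ) : ℕ∞)) (hne : q ≠ k) :
    ∃ y, G.Adj q y ∧ G.edist y k ≤ (n : ℕ∞) := by
  obtain ⟨p, hp⟩ := SimpleGraph.exists_walk_of_edist_ne_top
    (ne_top_of_le_ne_top (ENat.natCast_ne_top _) h)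
  cases p with
  | nil => exact absurd rfl hne
  | cons hadj p' =>
    refine ⟨_, hadj, (SimpleGraph.edist_le p').trans ?_⟩
    rw [← hp, SimpleGraph.Walk.length_cons] at h
    have h2 : p'.length + 1 ≤ n + 1 := by exact_mod_cast h
    exact_mod_cast Nat.le_of_succ_le_succ h2

theorem edist_step {q y k : V} {n : ℕ} (hadj : G.Adj q y) (h : G.edist y k ≤ (n : ℕ∞)) :
    G.edist q k ≤ ((n + 1 : ℕ) : ℕ∞) := by
  obtain ⟨p, hp⟩ := SimpleGraph.exists_walk_of_edist_ne_top
    (ne_top_of_le_ne_top (ENat.natCast_ne_top _) h)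
  refine (SimpleGraph.edist_le (SimpleGraph.Walk.cons hadj p)).trans ?_
  rw [← hp] at h
  have h2 : p.length ≤ n := by exact_mod_cast h
  rw [SimpleGraph.Walk.length_cons]
  exact_mod_cast Nat.succ_le_succ h2

theorem rho_mem_sh (k : ℤ) {q : V} (hq : q ∈ S) :
    rho L G W q ∈ sh (W.s L) k (RR L G W S K) := by
  rw [mem_sh]
  refine Submodule.mem_sup_left ?_
  exact Submodule.smul_mem (Submodule.span L (rho L G W '' (S : Set V))) _
    (Submodule.subset_span ⟨q, hq, rfl⟩)

theorem not_mem_of_near (hdisj : Disjoint S K) (hnb : ∀ p ∈ S, ∀ y, G.Adj p y → y ∈ S ∪ K)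
    (δ : ℕ) : ∀ (q : V) (a : ℕ) (b : V → ℕ), q ∈ S ∪ K → (∃ k ∈ K, G.edist q k ≤ (δ : ℕ∞)) →
      ee L q ∉ LT O (W.s L) ∅ b ⊔ sh (W.s L) (((a + δ : ℕ) : ℤ) + 1) (RR L G W S K) := by
  induction δ with
  | zero =>
    rintro q a b hq ⟨k, hk, hqk⟩
    have h0 : q = k := by
      have h1 : G.edist q k = 0 := le_antisymm (by simpa using hqk) bot_le
      exact SimpleGraph.edist_eq_zero_iff.mp h1
    subst h0
    exact ee_not_mem L G W hdisj hnb hk ∅ b _ (by simp)
  | succ δ ih =>
    rintro q a b hq ⟨k, hk, hqk⟩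
    by_cases hqK : q ∈ K
    · exact ee_not_mem L G W hdisj hnb hqK ∅ b _ (by simp)
    · have hqS : q ∈ S := by
        rcases Finset.mem_union.mp hq with h | h
        · exact h
        · exact absurd h hqK
      have hne : q ≠ k := fun h => hqK (h ▸ hk)
      obtain ⟨y, hy, hyk⟩ := exists_step G hqk hne
      intro hmem
      have hmem' : ee L q ∈ LT O (W.s L) ∅ b ⊔
          sh (W.s L) (((a + δ + 1 : ℕ) : ℤ) + 1) (RR L G W S K) := hmem
      have h2 := step_mem L G W hdisj hnb hqS hy ∅ b (a + δ + 1) (by simp) hmem'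
      refine ih y a (fun q => b q + 1) (hnb q hqS y hy) ⟨k, hk, hyk⟩ ?_
      have h3 : (((a + δ + 1 : ℕ) : ℤ)) = ((a + δ : ℕ) : ℤ) + 1 := by push_cast; ring
      rw [h3] at h2
      exact h2

open Classical in
theorem ee_eq_rho_add (q : V) : ee L q = rho L G W q +
    ∑ y, (if G.Adj q y then (W.s L * algebraMap O L (W.w q y)) • ee L y else 0) := by
  funext z
  rw [Pi.add_apply, Finset.sum_apply, Finset.sum_eq_single z]
  · by_cases h : G.Adj q z
    · by_cases hz : z = q
      · subst hz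
        exact absurd h (G.loopless.irrefl _)
      · simp [ee, rho, h, hz]
    · by_cases hz : z = q
      · subst hz
        simp [ee, rho]
      · simp [ee, rho, h, hz]
  · intro y _ hy
    by_cases h : G.Adj q y
    · simp [h, ee, Pi.single_eq_of_ne hy.symm]
    · simp [h]
  · intro h
    exact absurd (Finset.mem_univ _) h

theorem smul_ee_mem {k : ℤ} {q y : V} (h : ee L y ∈ sh (W.s L) k (RR L G W S K)) :
    (W.s L * algebraMap O L (W.w q y)) • ee L y ∈ sh (W.s L) (k + 1) (RR L G W S K) := by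
  have hs : W.s L ≠ 0 := W.s_ne_zero L
  rw [mem_sh] at h ⊢
  have h1 : W.s L ^ (-(k + 1)) • ((W.s L * algebraMap O L (W.w q y)) • ee L y) =
      W.w q y • (W.s L ^ (-k) • ee L y) := by
    rw [← algebraMap_smul L (W.w q y), smul_smul, smul_smul]
    congr 1
    rw [neg_add, zpow_add₀ hs, zpow_neg_one]
    field_simp
  rw [h1]
  exact Submodule.smul_mem _ _ h

theorem ee_mem_sh_iff (hdisj : Disjoint S K) (hnb : ∀ p ∈ S, ∀ y, G.Adj p y → y ∈ S ∪ K)
    {q : V} (hq : q ∈ S ∪ K) (i : ℕ) :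
    ee L q ∈ sh (W.s L) ((i : ℤ) + 1) (RR L G W S K) ↔ ¬ near G K q i := by
  classical
  constructor
  · rintro h ⟨k, hk, hqk⟩
    have h0 := not_mem_of_near L G W hdisj hnb i q 0 (fun _ => 0) hq ⟨k, hk, hqk⟩
    rw [Nat.zero_add] at h0
    exact h0 (Submodule.mem_sup_right h)
  · induction i generalizing q with
    | zero =>
      intro h
      have hqK : q ∉ K := fun hK => h ⟨q, hK, by simp⟩
      have hqS : q ∈ S := (Finset.mem_union.mp hq).resolve_right hqK
      rw [ee_eq_rho_add L G W q]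
      refine Submodule.add_mem _ (rho_mem_sh L G W _ hqS) (Submodule.sum_mem _ fun y _ => ?_)
      split
      · next hy =>
        have h1 : ee L y ∈ sh (W.s L) ((0 : ℕ) : ℤ) (RR L G W S K) := by
          rw [Nat.cast_zero, sh_zero]
          exact ee_mem_RR L G W hnb (hnb q hqS y hy)
        exact smul_ee_mem L G W h1
      · exact Submodule.zero_mem _
    | succ i ih =>
      intro h
      have hqK : q ∉ K := fun hK => h ⟨q, hK, by simp⟩
      have hqS : q ∈ S := (Finset.mem_union.mp hq).resolve_right hqK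
      rw [ee_eq_rho_add L G W q]
      refine Submodule.add_mem _ (rho_mem_sh L G W _ hqS) (Submodule.sum_mem _ fun y _ => ?_)
      split
      · next hy =>
        have h1 : ee L y ∈ sh (W.s L) ((i : ℤ) + 1) (RR L G W S K) := by
          refine ih (hnb q hqS y hy) ?_
          rintro ⟨k, hk, hyk⟩
          exact h ⟨k, hk, edist_step G hy hyk⟩
        have h2 := smul_ee_mem L G W (q := q) h1
        rwa [show ((i : ℤ) + 1) = ((i + 1 : ℕ) : ℤ) by push_cast; ring] at h2
      · exact Submodule.zero_mem _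

end SubPow
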