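import Pool.Agent.Helper15.Sub.AlgDefs

/-!
Block RA: relation modules, elementary part.

* `ee_mem_RR` (A0): `T = span_O {e_q : q ∈ S ∪ K}` is finitely generated; for `q ∈ S`,
  `e_q = rho_q + s ∑_{y ~ q} w_{q,y} e_y` with all `y ∈ S ∪ K`, so `T ≤ R ⊔ ϖ • T` and Nakayama
  (`Submodule.le_of_le_smul_of_le_jacobson_bot`, `O` is a local ring and `ϖ` is in its maximal
  ideal) gives `T ≤ R`.
* `RR_mono`: the generators: `rho_q ∈ span_L {rho_q : q ∈ S'}`, `e_o ∈ R(S', K')` by `ee_mem_RR`.
* `RR_le` (A5): `s^{-k} span_L {...} = span_L {...}`; `e_o ∈ LT K 0`.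
-/

namespace SubPow

open Finset

variable {O V : Type*} [CommRing O] [IsDomain O] [IsDiscreteValuationRing O]
  (L : Type*) [Field L] [Algebra O L] [IsFractionRing O L] [Fintype V] [DecidableEq V]
  (G : SimpleGraph V) (W : WData V O) {S K : Finset V}

include W in
theorem WData.s_ne_zero : W.s L ≠ 0 :=
  (map_ne_zero_iff _ (IsFractionRing.injective O L)).2 W.irr.ne_zero

theorem ee_mem_RR (hnb : ∀ p ∈ S, ∀ y, G.Adj p y → y ∈ S ∪ K) {q : V} (hq : q ∈ S ∪ K) :
    ee L q ∈ RR L G W S K := by
  classical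
  set T : Submodule O (V → L) := Submodule.span O (ee L '' ((S ∪ K : Finset V) : Set V)) with hT
  have hfg : T.FG := by
    rw [hT]
    exact Submodule.fg_span (((S ∪ K : Finset V).finite_toSet).image _)
  have hmax : Ideal.span {W.ϖ} ≤ (⊥ : Ideal O).jacobson := by
    rw [IsLocalRing.jacobson_eq_maximalIdeal (⊥ : Ideal O) bot_ne_top,
      Ideal.span_le, Set.singleton_subset_iff]
    exact (IsLocalRing.mem_maximalIdeal _).2 W.irr.not_isUnit
  have hle : T ≤ RR L G W S K ⊔ (Ideal.span {W.ϖ}) • T := by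
    rw [hT, Submodule.span_le]
    rintro _ ⟨p, hp, rfl⟩
    rw [SetLike.mem_coe, ← hT]
    rw [Finset.mem_coe, Finset.mem_union] at hp
    rcases hp with hp | hp
    · have h1 : ee L p = rho L G W p +
          ∑ z : V, (if G.Adj p z then W.ϖ * W.w p z else 0 : O) • ee L z := by
        funext x
        rw [Pi.add_apply, Finset.sum_apply, Finset.sum_eq_single x]
        · unfold rho ee WData.s
          by_cases hx : x = p
          · subst hx
            simp
          · by_cases ha : G.Adj p x
            · simp [hx, ha, Pi.single_eq_of_ne hx, Algebra.smul_def]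
            · simp [hx, ha, Pi.single_eq_of_ne hx]
        · intro z _ hz
          rw [Pi.smul_apply, ee, Pi.single_eq_of_ne (Ne.symm hz), smul_zero]
        · intro h
          exact absurd (Finset.mem_univ x) h
      rw [h1]
      refine Submodule.add_mem_sup ?_ (Submodule.sum_mem _ fun z _ => ?_)
      · exact Submodule.mem_sup_left (Submodule.subset_span ⟨p, hp, rfl⟩)
      · by_cases ha : G.Adj p z
        · rw [if_pos ha, mul_smul]
          refine Submodule.smul_mem_smul (Ideal.mem_span_singleton_self _) ?_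
          exact Submodule.smul_mem _ _ (Submodule.subset_span ⟨z, hnb p hp z ha, rfl⟩)
        · rw [if_neg ha, zero_smul]
          exact Submodule.zero_mem _
    · exact Submodule.mem_sup_left
        (Submodule.mem_sup_right (Submodule.subset_span ⟨p, hp, rfl⟩))
  exact Submodule.le_of_le_smul_of_le_jacobson_bot hfg hmax hle
    (Submodule.subset_span ⟨q, hq, rfl⟩)

theorem RR_mono {S' K' : Finset V} (hS : S ⊆ S') (hK : K ⊆ S' ∪ K')
    (hnb' : ∀ p ∈ S', ∀ y, G.Adj p y → y ∈ S' ∪ K') : RR L G W S K ≤ RR L G W S' K' := by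
  refine sup_le ?_ ?_
  · refine le_trans ?_ le_sup_left
    intro v hv
    exact Submodule.span_mono (Set.image_mono (by exact_mod_cast hS)) hv
  · rw [Submodule.span_le]
    rintro _ ⟨q, hq, rfl⟩
    exact ee_mem_RR L G W hnb' (hK hq)

theorem RR_le (k : ℕ) :
    RR L G W S K ≤ LT O (W.s L) K (fun _ => 0) ⊔ sh (W.s L) (k : ℤ) (RR L G W S K) := by
  refine sup_le ?_ ?_
  · intro v hv
    refine Submodule.mem_sup_right ?_
    rw [mem_sh]
    refine Submodule.mem_sup_left ?_
    exact Submodule.smul_mem (Submodule.span L (rho L G W '' (S : Set V))) _ hv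
  · rw [Submodule.span_le]
    rintro _ ⟨q, hq, rfl⟩
    refine Submodule.mem_sup_left ⟨fun p hp => ?_, fun p _ => ?_⟩
    · have : p ≠ q := fun h => hp (h ▸ hq)
      rw [ee, Pi.single_eq_of_ne this]
    · by_cases h : p = q
      · subst h
        exact ⟨1, by simp [ee]⟩
      · exact ⟨0, by simp [ee, Pi.single_eq_of_ne h]⟩

end SubPow
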