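import Pool.Agent.Helper15.Sub.AT

/-!
Block UP: reduction of the upper bound to the abstract theorem.

`top v` = the vertex of largest rank (oldest) in the ball `{u | edist v u ≤ r}`. Conflict graph on
`V`: `x ≠ y` conflict if there are `v, w` with `top v = x`, `top w = y`, `edist v w ≤ d`. If for
every `y` the number of older (`rank y < rank x`) vertices `x` in conflict with `y` is at most
`AA r t e₀`, then greedy colouring from the oldest vertex gives `col : V → Fin (1 + AA r t e₀)`
proper on the conflict graph; put `c v = col (top v)`. This is a subcolouring of `power G d`: if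
`c v = c w` and `edist v w ≤ d` then `top v = top w`, and `top u = top w` implies
`edist u w ≤ 2 r ≤ d`.

Bound. Fix `y`, `Z = P y`. Descendants: `Desc x` = the set of `v` from which `x` is reached by
repeatedly passing from `v` to the element of `P v` of smallest rank (`x ∈ Desc x`). Facts:
* if `v ∈ Desc x` and `G.Adj v u` then `u ∈ Desc x ∪ P x`; if `u ∈ P v`, `v ∈ Desc x` then
  `u ∈ Desc x ∪ P x` (clique condition, induction);
* `Desc x` has only elements of rank `≤ rank x`; `P x` and `Desc x` are disjoint;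
* if `u` and `x` are joined by a walk all of whose vertices have rank `≤ rank x`, then `u ∈ Desc x`.
`n 0 = y`, `n (j+1)` = the element of smallest rank of `P (n j)` (`n (j+1) = n j` if
`P (n j) = ∅`); `K j = P (n j)`, `S j = Desc (n j)`: this is a `Sit V t` (at the end of the chain
`K j = ∅` and all conditions are trivial).
Let `x` (older than `y`) conflict with `y`: `top v = y`, `top w = x`, `edist v w ≤ d`. The ball of
`v` contains no vertex older than `y`, so `edist v z > r` for `z ∈ Z`, and `v ∈ Desc y`;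
`x ∉ Desc y`.
* `w ∈ Desc y`: the geodesic from `w` to `x` meets `Z`, at a vertex `z` with `edist w z ≤ r`, and
  `edist w z = r` only if `x = z ∈ Z`.
* `w ∉ Desc y`: the geodesic from `v` to `w` meets `Z` at `z`, `edist v z ≥ r + 1`, so
  `edist w z ≤ d - (r+1)`, which is `r` for `d = 2r+1` and `r - 1` for `d = 2r`.
So: (i) `x ∈ Z` (only needed for `e₀ = 1`), or (ii) `x = top w` with `edist w z + e₀ ≤ r` for some
`z ∈ Z`. In both cases `z` resp. `x` shows that `x = n j` for some `j ≥ 1` (in case (ii) `z` and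
`x` are joined inside the ball of `w`, so `z ∈ Desc x`, and `z ∈ P y` so `y ∈ Desc x`). Take the
smallest such `j`; `x ∈ K (j-1)`, `x ∉ K j`, and `j - 1` is the index: the ball `(q, i)` with
(i) `(x, 0)` [`i + e₀ ≤ 2r`]; (ii) `(w, r)` if `w ∈ S (j-1) ∪ K (j-1)`: alive at `j - 1` because of `x`,
dead at `j` since all elements of `K j` are older than `x`; if `w ∉ S (j-1) ∪ K (j-1)`: the geodesic
from `z ∈ S (j-1) ∪ K (j-1)` to `w` leaves through an element `κ` of `K (j-1)`, which lies in the
ball of `w`, so it is not older than `x`, so `κ = x` (`K (j-1) ⊆ {x} ∪ K j`); take the ball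
`(x, r - edist w x)`; it satisfies `edist x z + e₀ ≤ r - edist w x`.
The map `x ↦ j - 1` is injective, so `abstract_theorem` bounds the number of `x`.
-/

namespace SubPow

open Finset

namespace Up

/-- Greedy colouring from the oldest vertex. -/
theorem greedy {V : Type*} [Fintype V] (rank : V → ℕ) (hinj : Function.Injective rank)
    (conf : V → V → Prop) (m : ℕ)
    (h : ∀ y, ∀ A : Finset V, (∀ x ∈ A, rank y < rank x ∧ conf y x) → A.card ≤ m) :
    ∃ col : V → Fin (1 + m), ∀ x y, rank y < rank x → conf y x → col x ≠ col y := by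
  classical
  obtain ⟨B, hB⟩ : ∃ B, ∀ v, rank v < B := by
    refine ⟨(univ : Finset V).sup rank + 1, fun v => ?_⟩
    exact Nat.lt_succ_of_le (Finset.le_sup (f := rank) (mem_univ v))
  have key : ∀ j, ∃ col : V → Fin (1 + m), ∀ x y, B ≤ rank y + j → rank y < rank x → conf y x →
      col x ≠ col y := by
    intro j
    induction j with
    | zero =>
      refine ⟨fun _ => ⟨0, by omega⟩, fun x y hy => ?_⟩
      have := hB y
      omega
    | succ j ih =>
      obtain ⟨col, hcol⟩ := ih
      by_cases hex : ∃ y0, rank y0 + j + 1 = B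
      · obtain ⟨y0, hy0⟩ := hex
        set A := univ.filter (fun x => rank y0 < rank x ∧ conf y0 x) with hA
        have hAc : A.card ≤ m := h y0 A (fun x hx => by simpa [hA] using hx)
        obtain ⟨a, ha⟩ : ∃ a : Fin (1 + m), a ∉ A.image col := by
          by_contra hcon
          push Not at hcon
          have h1 : (univ : Finset (Fin (1 + m))) ⊆ A.image col := fun a _ => hcon a
          have h2 := card_le_card h1
          have h3 : (A.image col).card ≤ A.card := card_image_le
          rw [card_univ, Fintype.card_fin] at h2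
          omega
        refine ⟨Function.update col y0 a, fun x y hy hxy hc => ?_⟩
        by_cases hyy : y = y0
        · subst hyy
          have hx : x ≠ y := fun he => by rw [he] at hxy; exact lt_irrefl _ hxy
          rw [Function.update_of_ne hx, Function.update_self]
          intro he
          exact ha (mem_image.2 ⟨x, by simp [hA, hxy, hc], he⟩)
        · have hne : rank y ≠ rank y0 := fun he => hyy (hinj he)
          have hx : x ≠ y0 := fun he => by
            rw [he] at hxy; omega
          rw [Function.update_of_ne hx, Function.update_of_ne hyy]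
          exact hcol x y (by omega) hxy hc
      · refine ⟨col, fun x y hy hxy hc => hcol x y ?_ hxy hc⟩
        by_contra hlt
        exact hex ⟨y, by omega⟩
  obtain ⟨col, hcol⟩ := key B
  exact ⟨col, fun x y hxy hc => hcol x y (by omega) hxy hc⟩

section dist

variable {V : Type*} {G : SimpleGraph V}

/-- Distance at most `n`. -/
def nd (G : SimpleGraph V) (a b : V) (n : ℕ) : Prop := G.edist a b ≤ (n : ℕ∞)

theorem nd_refl (a : V) (n : ℕ) : nd G a a n := by
  unfold nd; rw [SimpleGraph.edist_self]; exact zero_le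

theorem nd_symm {a b : V} {n : ℕ} (h : nd G a b n) : nd G b a n := by
  unfold nd at *; rwa [SimpleGraph.edist_comm]

theorem nd_mono {a b : V} {m n : ℕ} (h : nd G a b m) (hmn : m ≤ n) : nd G a b n :=
  le_trans h (by exact_mod_cast hmn)

theorem nd_trans {a b c : V} {m n : ℕ} (h : nd G a b m) (h' : nd G b c n) : nd G a c (m + n) := by
  unfold nd at *
  calc G.edist a c ≤ G.edist a b + G.edist b c := SimpleGraph.edist_triangle
    _ ≤ (m : ℕ∞) + (n : ℕ∞) := add_le_add h h'
    _ = ((m + n : ℕ) : ℕ∞) := by push_cast; rfl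

theorem nd_zero {a b : V} (h : nd G a b 0) : a = b := by
  unfold nd at h
  have : G.edist a b = 0 := le_antisymm (by simpa using h) zero_le
  exact SimpleGraph.edist_eq_zero_iff.1 this

theorem walk_nd {a b : V} (p : G.Walk a b) : nd G a b p.length := SimpleGraph.Walk.edist_le p

theorem exists_walk {a b : V} {n : ℕ} (h : nd G a b n) : ∃ p : G.Walk a b, p.length ≤ n := by
  have hr : G.edist a b ≠ ⊤ := ne_top_of_le_ne_top (ENat.natCast_ne_top n) h
  obtain ⟨p, hp⟩ := SimpleGraph.exists_walk_of_edist_ne_top hr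
  refine ⟨p, ?_⟩
  unfold nd at h
  rw [← hp] at h
  exact_mod_cast h

/-- A walk that leaves `S` passes through its neighbourhood. -/
theorem cut [DecidableEq V] {S K : Finset V} (nb : ∀ p ∈ S, ∀ y, G.Adj p y → y ∈ S ∪ K) {a b : V}
    (ha : a ∈ S ∪ K) (hb : b ∉ S) {n : ℕ} (h : nd G a b n) :
    ∃ z ∈ K, ∃ i j, nd G a z i ∧ nd G z b j ∧ i + j ≤ n := by
  obtain ⟨p, hp⟩ := exists_walk h
  clear h
  induction p generalizing n with
  | nil =>
    rcases mem_union.1 ha with h1 | h1
    · exact absurd h1 hb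
    · exact ⟨_, h1, 0, 0, nd_refl _ _, nd_refl _ _, by omega⟩
  | @cons u v w hadj q ih =>
    rcases mem_union.1 ha with h1 | h1
    · obtain ⟨z, hz, i, j, h2, h3, h4⟩ := ih (nb _ h1 _ hadj) hb (n := n - 1)
        (by rw [SimpleGraph.Walk.length_cons] at hp; omega)
      refine ⟨z, hz, i + 1, j, ?_, h3, ?_⟩
      · rw [add_comm]
        exact nd_trans (walk_nd (SimpleGraph.Walk.cons hadj SimpleGraph.Walk.nil)) h2
      · rw [SimpleGraph.Walk.length_cons] at hp
        omega
    · exact ⟨_, h1, 0, n, nd_refl _ _,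
        nd_mono (walk_nd (SimpleGraph.Walk.cons hadj q)) hp, by omega⟩

end dist

section elim

variable {V : Type*} {G : SimpleGraph V} {t : ℕ} (E : Elim G t)

open Classical in
/-- The youngest element of `P v`, or `v` if `P v` is empty. -/
noncomputable def par (v : V) : V :=
  if h : (E.P v).Nonempty then (exists_min_image (E.P v) E.rank h).choose else v

theorem par_mem {v : V} (h : (E.P v).Nonempty) : par E v ∈ E.P v := by
  unfold par; rw [dif_pos h]
  exact (exists_min_image (E.P v) E.rank h).choose_spec.1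

theorem par_min {v u : V} (hu : u ∈ E.P v) : E.rank (par E v) ≤ E.rank u := by
  have h : (E.P v).Nonempty := ⟨u, hu⟩
  unfold par; rw [dif_pos h]
  exact (exists_min_image (E.P v) E.rank h).choose_spec.2 u hu

theorem par_of_empty {v : V} (h : ¬ (E.P v).Nonempty) : par E v = v := by
  unfold par; rw [dif_neg h]

theorem rank_le_par (v : V) : E.rank v ≤ E.rank (par E v) := by
  by_cases h : (E.P v).Nonempty
  · exact (E.older v _ (par_mem E h)).le
  · rw [par_of_empty E h]

theorem rank_le_iter (v : V) (k : ℕ) : E.rank v ≤ E.rank ((par E)^[k] v) := by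
  induction k with
  | zero => simp
  | succ k ih =>
    rw [Function.iterate_succ_apply']
    exact ih.trans (rank_le_par E _)

/-- `x` is reached from `v`. -/
def IsDesc (x v : V) : Prop := ∃ k, (par E)^[k] v = x

theorem isDesc_refl (x : V) : IsDesc E x x := ⟨0, rfl⟩

theorem isDesc_trans {x y z : V} (h : IsDesc E x y) (h' : IsDesc E y z) : IsDesc E x z := by
  obtain ⟨k, hk⟩ := h
  obtain ⟨l, hl⟩ := h'
  exact ⟨k + l, by rw [Function.iterate_add_apply, hl, hk]⟩

theorem isDesc_par (x : V) : IsDesc E (par E x) x := ⟨1, rfl⟩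

theorem rank_le_of_isDesc {x v : V} (h : IsDesc E x v) : E.rank v ≤ E.rank x := by
  obtain ⟨k, rfl⟩ := h
  exact rank_le_iter E v k

theorem mem_P_par {v u : V} (hu : u ∈ E.P v) : u = par E v ∨ u ∈ E.P (par E v) := by
  by_cases h : u = par E v
  · exact Or.inl h
  · right
    have h1 := par_min E hu
    have h2 : E.rank (par E v) ≠ E.rank u := fun he => h (E.rank_inj he).symm
    exact E.clique v _ u (par_mem E ⟨u, hu⟩) hu (lt_of_le_of_ne h1 h2)

theorem mem_of_isDesc {x v u : V} (h : IsDesc E x v) (hu : u ∈ E.P v) :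
    IsDesc E x u ∨ u ∈ E.P x := by
  obtain ⟨k, hk⟩ := h
  induction k generalizing v with
  | zero =>
    right
    simp at hk
    rwa [← hk]
  | succ k ih =>
    rw [Function.iterate_succ_apply] at hk
    rcases mem_P_par E hu with h1 | h1
    · left
      rw [h1]
      exact ⟨k, hk⟩
    · exact ih h1 hk

theorem isDesc_of_mem {v u : V} (hv : v ∈ E.P u) : IsDesc E v u := by
  induction hm : E.rank v - E.rank u using Nat.strong_induction_on generalizing u with
  | _ m ih =>
    subst hm
    rcases mem_P_par E hv with h1 | h1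
    · rw [h1]; exact isDesc_par E u
    · have h2 := E.older u _ (par_mem E ⟨v, hv⟩)
      have h3 := E.older _ _ h1
      exact isDesc_trans E (ih _ (by omega) h1 rfl) (isDesc_par E u)

theorem nb_isDesc {x p y : V} (hp : IsDesc E x p) (h : G.Adj p y) :
    IsDesc E x y ∨ y ∈ E.P x := by
  have hne : E.rank p ≠ E.rank y := fun he => h.ne (E.rank_inj he)
  rcases lt_or_gt_of_ne hne with h1 | h1
  · exact mem_of_isDesc E hp (E.cover p y h h1)
  · left
    exact isDesc_trans E hp (isDesc_of_mem E (E.cover y p h.symm h1))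

variable [Fintype V]

open Classical in
/-- The descendants of `x`. -/
noncomputable def Desc (x : V) : Finset V := univ.filter (IsDesc E x)

theorem mem_Desc {x v : V} : v ∈ Desc E x ↔ IsDesc E x v := by
  classical
  simp [Desc]

theorem nb_Desc [DecidableEq V] (x p : V) (hp : p ∈ Desc E x) (y : V) (h : G.Adj p y) :
    y ∈ Desc E x ∪ E.P x := by
  rw [mem_union, mem_Desc]
  exact nb_isDesc E ((mem_Desc E).1 hp) h

/-- The situation of the abstract theorem. -/
noncomputable def sit [DecidableEq V] (y : V) : Sit V t where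
  G := G
  S := fun j => Desc E ((par E)^[j] y)
  K := fun j => E.P ((par E)^[j] y)
  card_le := fun n => E.card_le _
  disj := fun n => by
    rw [Finset.disjoint_left]
    intro v hv hv'
    have h1 := rank_le_of_isDesc E ((mem_Desc E).1 hv)
    have h2 := E.older _ _ hv'
    omega
  nb := fun n p hp u h => nb_Desc E _ p hp u h
  S_sub := fun n v hv => by
    rw [mem_Desc] at *
    rw [Function.iterate_succ_apply']
    exact isDesc_trans E (isDesc_par E _) hv
  K_sub := fun n v hv => by
    rw [mem_union, mem_Desc, Function.iterate_succ_apply']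
    exact mem_of_isDesc E (isDesc_par E _) hv

omit [Fintype V] in
theorem SK_sub [DecidableEq V] (X : Sit V t) (m : ℕ) : X.K 0 ⊆ X.S m ∪ X.K m := by
  induction m with
  | zero => exact subset_union_right
  | succ m ih =>
    intro v hv
    rcases mem_union.1 (ih hv) with h | h
    · exact mem_union_left _ (X.S_sub m h)
    · exact X.K_sub m h

/-- The oldest vertex of the ball of radius `r`. -/
structure IsTop (r : ℕ) (v x : V) : Prop where
  near : nd G v x r
  max : ∀ u, nd G v u r → E.rank u ≤ E.rank x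

theorem exists_top (r : ℕ) (v : V) : ∃ x, IsTop E r v x := by
  classical
  obtain ⟨x, hx, hmax⟩ := exists_max_image (univ.filter (fun u => nd G v u r)) E.rank
    ⟨v, by simp [nd_refl]⟩
  refine ⟨x, by simpa using hx, fun u hu => hmax u (by simpa using hu)⟩

theorem IsTop.ball {r : ℕ} {w x : V} (h : IsTop E r w x) {u : V} (hu : nd G w u r) :
    IsDesc E x u := by
  classical
  have hno : ∀ z ∈ E.P x, ∀ i, i ≤ r → ¬ nd G w z i := by
    intro z hz i hi hnd
    have h1 := h.max z (nd_mono hnd hi)
    have h2 := E.older _ _ hz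
    omega
  have hw : IsDesc E x w := by
    by_contra hcon
    obtain ⟨z, hz, i, j, h1, h2, h3⟩ := cut (nb_Desc E x) (a := x) (b := w)
      (mem_union_left _ ((mem_Desc E).2 (isDesc_refl E x))) (fun h' => hcon ((mem_Desc E).1 h'))
      (nd_symm h.near)
    exact hno z hz j (by omega) (nd_symm h2)
  by_contra hcon
  obtain ⟨z, hz, i, j, h1, h2, h3⟩ := cut (nb_Desc E x) (a := w) (b := u)
    (mem_union_left _ ((mem_Desc E).2 hw)) (fun h' => hcon ((mem_Desc E).1 h')) hu
  exact hno z hz i (by omega) h1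

/-- The main estimate: an older vertex in conflict with `y` kills a ball at its own step. -/
theorem conflict [DecidableEq V] (d r e₀ : ℕ)
    (h : (d = 2 * r + 1 ∧ e₀ = 0) ∨ (d = 2 * r ∧ e₀ = 1 ∧ 1 ≤ r)) {x y v w : V}
    (hxy : E.rank y < E.rank x) (hv : IsTop E r v y) (hw : IsTop E r w x) (hvw : nd G v w d) :
    ∃ m, (par E)^[m + 1] y = x ∧ ∃ q i, i ≤ r ∧ (sit E y).Dies m q i ∧
      ((∃ c ∈ (sit E y).K 0, (sit E y).G.edist q c + (e₀ : ℕ∞) ≤ (i : ℕ∞)) ∨
        (q ∈ (sit E y).K 0 ∧ i + e₀ ≤ 2 * r)) := by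
  have hnoy : ∀ z ∈ E.P y, ∀ i, nd G v z i → r + 1 ≤ i := by
    intro z hz i hi
    by_contra hlt
    have h1 := hv.max z (nd_mono hi (by omega))
    have h2 := E.older _ _ hz
    omega
  have hxD : x ∉ Desc E y := fun hx => by
    have := rank_le_of_isDesc E ((mem_Desc E).1 hx)
    omega
  have hvD : v ∈ Desc E y := (mem_Desc E).2 (hv.ball E (nd_refl v r))
  -- the two cases
  have hcase : (x ∈ E.P y ∧ e₀ = 1) ∨ ∃ z ∈ E.P y, ∃ i, nd G w z i ∧ i + e₀ ≤ r := by
    by_cases hwD : w ∈ Desc E y
    · obtain ⟨z, hz, i, j, h1, h2, h3⟩ := cut (nb_Desc E y) (a := w) (b := x)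
        (mem_union_left _ hwD) hxD hw.near
      rcases h with ⟨_, h0⟩ | ⟨_, h0, _⟩
      · exact Or.inr ⟨z, hz, i, h1, by omega⟩
      · rcases Nat.eq_zero_or_pos j with hj | hj
        · subst hj
          have := nd_zero h2
          subst this
          exact Or.inl ⟨hz, h0⟩
        · exact Or.inr ⟨z, hz, i, h1, by omega⟩
    · obtain ⟨z, hz, i, j, h1, h2, h3⟩ := cut (nb_Desc E y) (a := v) (b := w)
        (mem_union_left _ hvD) hwD hvw
      have h4 := hnoy z hz i h1
      refine Or.inr ⟨z, hz, j, nd_symm h2, ?_⟩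
      rcases h with ⟨_, h0⟩ | ⟨_, h0, _⟩ <;> omega
  -- `y` is a descendant of `x`
  have hyx : IsDesc E x y := by
    rcases hcase with ⟨h1, _⟩ | ⟨z, hz, i, h1, h2⟩
    · exact isDesc_of_mem E h1
    · exact isDesc_trans E (hw.ball E (nd_mono h1 (by omega))) (isDesc_of_mem E hz)
  classical
  obtain ⟨j, hj, hmin⟩ : ∃ j, (par E)^[j] y = x ∧ ∀ i < j, (par E)^[i] y ≠ x :=
    ⟨Nat.find hyx, Nat.find_spec hyx, fun i hi => Nat.find_min hyx hi⟩
  obtain ⟨m, rfl⟩ : ∃ m, j = m + 1 := by
    rcases j with _ | m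
    · simp at hj
      rw [hj] at hxy
      exact absurd hxy (lt_irrefl _)
    · exact ⟨m, rfl⟩
  set n := (par E)^[m] y with hn
  have hpar : par E n = x := by
    rw [← hj, Function.iterate_succ_apply']
  have hnx : n ≠ x := hmin m (by omega)
  have hne : (E.P n).Nonempty := by
    by_contra hcon
    rw [par_of_empty E hcon] at hpar
    exact hnx hpar
  have hxn : x ∈ E.P n := by rw [← hpar]; exact par_mem E hne
  have hKn : (sit E y).K m = E.P n := rfl
  have hKx : (sit E y).K (m + 1) = E.P x := by
    change E.P ((par E)^[m + 1] y) = E.P x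
    rw [hj]
  have hK0 : (sit E y).K 0 = E.P y := rfl
  have hG : (sit E y).G = G := rfl
  refine ⟨m, hj, ?_⟩
  have hno : ∀ z ∈ E.P x, ¬ nd G w z r := by
    intro z hz hnd
    have h1 := hw.max z hnd
    have h2 := E.older _ _ hz
    omega
  rcases hcase with ⟨h1, h0⟩ | ⟨z, hz, l, h1, h2⟩
  · refine ⟨x, 0, by omega, ⟨?_, ?_, ?_⟩, Or.inr ⟨by rw [hK0]; exact h1, ?_⟩⟩
    · rw [hKn]; exact mem_union_right _ hxn
    · rw [hKn]; exact ⟨x, hxn, nd_refl x 0⟩
    · rw [hKx]
      rintro ⟨k, hk, hk'⟩
      have := nd_zero (G := G) hk'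
      subst this
      exact lt_irrefl _ (E.older _ _ hk)
    · rcases h with ⟨_, h0'⟩ | ⟨_, h0', _⟩ <;> omega
  · by_cases hwS : w ∈ (sit E y).S m ∪ (sit E y).K m
    · refine ⟨w, r, le_rfl, ⟨hwS, ?_, ?_⟩, Or.inl ⟨z, by rw [hK0]; exact hz, ?_⟩⟩
      · rw [hKn]; exact ⟨x, hxn, hw.near⟩
      · rw [hKx]
        rintro ⟨k, hk, hk'⟩
        exact hno k hk hk'
      · rw [hG]
        calc G.edist w z + (e₀ : ℕ∞) ≤ (l : ℕ∞) + (e₀ : ℕ∞) := add_le_add h1 le_rfl
          _ = ((l + e₀ : ℕ) : ℕ∞) := by push_cast; rfl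
          _ ≤ (r : ℕ∞) := by exact_mod_cast h2
    · have hzS : z ∈ (sit E y).S m ∪ (sit E y).K m :=
        SK_sub (sit E y) m (by rw [hK0]; exact hz)
      obtain ⟨κ, hκ, i, j, h3, h4, h5⟩ := cut (G := G) (sit E y |>.nb m) (a := z) (b := w)
        hzS (fun h' => hwS (mem_union_left _ h')) (nd_symm h1)
      have hκx : κ = x := by
        rw [hKn] at hκ
        rcases mem_P_par E hκ with h6 | h6
        · rw [h6, hpar]
        · rw [hpar] at h6
          exact absurd (nd_mono (nd_symm h4) (by omega)) (hno κ h6)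
      subst hκx
      refine ⟨κ, r - j, by omega, ⟨?_, ?_, ?_⟩, Or.inl ⟨z, by rw [hK0]; exact hz, ?_⟩⟩
      · exact mem_union_right _ hκ
      · exact ⟨κ, hκ, nd_refl (G := G) κ _⟩
      · rw [hKx]
        rintro ⟨k, hk, hk'⟩
        refine hno k hk ?_
        have := nd_trans (nd_symm h4) (show nd G κ k (r - j) from hk')
        exact nd_mono this (by omega)
      · rw [hG]
        have h6 : nd G κ z i := nd_symm h3
        calc G.edist κ z + (e₀ : ℕ∞) ≤ (i : ℕ∞) + (e₀ : ℕ∞) := add_le_add h6 le_rfl
          _ = ((i + e₀ : ℕ) : ℕ∞) := by push_cast; rfl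
          _ ≤ ((r - j : ℕ) : ℕ∞) := by exact_mod_cast (by omega)

end elim

end Up

open Up in
theorem exists_subcolouring {V : Type*} [Fintype V] (G : SimpleGraph V) {t : ℕ} (E : Elim G t)
    (d r e₀ : ℕ) (h : (d = 2 * r + 1 ∧ e₀ = 0) ∨ (d = 2 * r ∧ e₀ = 1 ∧ 1 ≤ r)) :
    ∃ c : V → Fin (1 + AA r t e₀), IsSubcolouring (power G d) c := by
  classical
  choose top htop using exists_top E r
  obtain ⟨col, hcol⟩ := greedy E.rank E.rank_inj
    (fun y x => ∃ v w, top v = y ∧ top w = x ∧ nd G v w d) (AA r t e₀) (by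
      intro y A hA
      have key : ∀ x ∈ A, ∃ m, (par E)^[m + 1] y = x ∧ ∃ q i, i ≤ r ∧ (sit E y).Dies m q i ∧
          ((∃ c ∈ (sit E y).K 0, (sit E y).G.edist q c + (e₀ : ℕ∞) ≤ (i : ℕ∞)) ∨
            (q ∈ (sit E y).K 0 ∧ i + e₀ ≤ 2 * r)) := by
        intro x hx
        obtain ⟨h1, v, w, h2, h3, h4⟩ := hA x hx
        exact conflict E d r e₀ h h1 (h2 ▸ htop v) (h3 ▸ htop w) h4
      choose! f hf1 hf2 using key
      have h1 : (A.image f).card = A.card := by
        refine card_image_of_injOn fun x hx x' hx' he => ?_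
        rw [← hf1 x hx, ← hf1 x' hx', he]
      rw [← h1]
      refine abstract_theorem (sit E y) r e₀ _ fun m hm => ?_
      obtain ⟨x, hx, rfl⟩ := mem_image.1 hm
      exact hf2 x hx)
  refine ⟨fun v => col (top v), ?_⟩
  have key : ∀ a b, (power G d).Adj a b → col (top a) = col (top b) → top a = top b := by
    intro a b hab hc
    by_contra hne
    have h1 : E.rank (top a) ≠ E.rank (top b) := fun he => hne (E.rank_inj he)
    rcases lt_or_gt_of_ne h1 with h2 | h2
    · exact hcol _ _ h2 ⟨a, b, rfl, rfl, hab.2⟩ hc.symm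
    · exact hcol _ _ h2 ⟨b, a, rfl, rfl, nd_symm hab.2⟩ hc
  intro u v w huv hvw huw h1 h2
  have h3 := key u v huv h1
  have h4 := key v w hvw h2
  refine ⟨huw, ?_⟩
  have h5 : nd G u (top w) r := by rw [← h4, ← h3]; exact (htop u).near
  have h6 := nd_trans h5 (nd_symm (htop w).near)
  exact nd_mono h6 (by rcases h with ⟨h0, _⟩ | ⟨h0, _, _⟩ <;> omega)

end SubPow
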